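import Pool.Agent.Helper6.MONO.Prog

/-!
The certificate checker: boxes organised in binary trees, subdivision trees, tags (block types).
-/

set_option autoImplicit false
noncomputable section
namespace Pool.Agent.Helper6.MONO

open I

/-- the coordinates which may be bisected -/
inductive Co where
  | a | b | be | R | s | k | hd | he

/-- path in a binary tree of boxes -/
inductive Pth where
  | z : Pth
  | l : Pth → Pth
  | r : Pth → Pth

/-- subdivision tree; a leaf names the target box -/
inductive Tr where
  | L : Pth → Tr
  | N : Co → Tr → Tr → Tr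

structure Cell where
  a : I
  b : I
  be : I
  R : I
  s : I
  k : I
  hd : I
  he : I

def mid (l h : Nat) : Nat := Nat.div (Nat.add l h) (nat_lit 2)
def mif (l h : Nat) : Nat := Nat.div (Nat.sub h l) (nat_lit 2)

def loP (l h : Nat) : I := I.pos l (mid l h)
def loN (l h : Nat) : I := I.neg (mid l h) h
def loX1 (l h : Nat) : I := I.mix l (mif l h)
def loX2 (l h : Nat) : I := I.neg (mif h l) l
def loX (l h : Nat) : I :=
  Bool.rec (motive := fun _ => Nat → Nat → I) loX2 loX1 (Nat.ble l h) l h
/-- lower half of an interval -/
def lo (x : I) : I := I.rec (motive := fun _ => I) loP loN loX x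

def hiP (l h : Nat) : I := I.pos (mid l h) h
def hiN (l h : Nat) : I := I.neg l (mid l h)
def hiX1 (l h : Nat) : I := I.pos (mif l h) h
def hiX2 (l h : Nat) : I := I.mix (mif h l) h
def hiX (l h : Nat) : I :=
  Bool.rec (motive := fun _ => Nat → Nat → I) hiX2 hiX1 (Nat.ble l h) l h
/-- upper half of an interval -/
def hi (x : I) : I := I.rec (motive := fun _ => I) hiP hiN hiX x

/-- apply `f` to the coordinate `q` of the cell -/
def upd (f : I → I) (q : Co) (c : Cell) : Cell :=
  Co.rec (motive := fun _ => Cell)
    (Cell.mk (f c.a) c.b c.be c.R c.s c.k c.hd c.he)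
    (Cell.mk c.a (f c.b) c.be c.R c.s c.k c.hd c.he)
    (Cell.mk c.a c.b (f c.be) c.R c.s c.k c.hd c.he)
    (Cell.mk c.a c.b c.be (f c.R) c.s c.k c.hd c.he)
    (Cell.mk c.a c.b c.be c.R (f c.s) c.k c.hd c.he)
    (Cell.mk c.a c.b c.be c.R c.s (f c.k) c.hd c.he)
    (Cell.mk c.a c.b c.be c.R c.s c.k (f c.hd) c.he)
    (Cell.mk c.a c.b c.be c.R c.s c.k c.hd (f c.he)) q

/-- region box: intervals for the state, a flag, a potential (in units `2^-28`) -/
structure Bx where
  z : St
  v : Bool
  pot : Nat

inductive BTr where
  | e : BTr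
  | b : Bx → BTr
  | n : BTr → BTr → BTr

/-- look up a box and apply a test (false if the path leads nowhere) -/
def lkz (t : BTr) (f : Bx → Bool) : Bool :=
  BTr.rec (motive := fun _ => (Bx → Bool) → Bool) (fun _ => false) (fun x f => f x)
    (fun _ _ _ _ _ => false) t f
def lkl (ih : BTr → (Bx → Bool) → Bool) (t : BTr) (f : Bx → Bool) : Bool :=
  BTr.rec (motive := fun _ => (Bx → Bool) → Bool) (fun _ => false) (fun _ _ => false)
    (fun l _ _ _ f => ih l f) t f
def lkr (ih : BTr → (Bx → Bool) → Bool) (t : BTr) (f : Bx → Bool) : Bool :=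
  BTr.rec (motive := fun _ => (Bx → Bool) → Bool) (fun _ => false) (fun _ _ => false)
    (fun _ r _ _ f => ih r f) t f
def lk (p : Pth) : BTr → (Bx → Bool) → Bool :=
  Pth.rec (motive := fun _ => BTr → (Bx → Bool) → Bool) lkz (fun _ ih => lkl ih)
    (fun _ ih => lkr ih) p

/-- how `R-bar` is given: exact index 2..6 or the interval of the cell -/
inductive RT where
  | r2 | r3 | r4 | r5 | r6 | tl

def ev (t : RT) (s : I) (eps even : Bool) (z : St) (k hd he R : I) : Res :=
  RT.rec (motive := fun _ => Res)
    (rb2 s eps even z k hd he) (rb3 s eps even z k hd he) (rb4 s eps even z k hd he)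
    (rb5 s eps even z k hd he) (rb6 s eps even z k hd he) (stp s eps even z k hd he R) t

/-- block type: sign, parity of m, flag after the block, R-bar -/
structure Tag where
  eps : Bool
  even : Bool
  vout : Bool
  rt : RT
  /-- for tails: the first index (4, 5 or 6) -/
  m0 : RT

def imp (x y : Bool) : Bool := Bool.rec (motive := fun _ => Bool) true y x

/-- test of one leaf with target `x` -/
def okL (t : Tag) (src : Bx) (c : Cell) (x : Bx) : Bool :=
  band (imp x.v t.vout) (okR (ev t.rt c.s t.eps t.even
    (St.mk c.a c.b c.be src.z.yr src.z.ad src.z.bd src.z.bed) c.k c.hd c.he c.R) x.z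
    (I.sub (I.pos x.pot x.pot) (I.pos src.pot src.pot)))

def trL (t : Tag) (src : Bx) (bt : BTr) (p : Pth) (c : Cell) : Bool := lk p bt (okL t src c)
def trN (q : Co) (x y : Cell → Bool) (c : Cell) : Bool := band (x (upd lo q c)) (y (upd hi q c))
def chkTr (t : Tag) (src : Bx) (bt : BTr) (tr : Tr) : Cell → Bool :=
  Tr.rec (motive := fun _ => Cell → Bool) (fun p => trL t src bt p)
    (fun q _ _ x y => trN q x y) tr

/-! ### tails: the interval of `R-bar` -/

def leRI (num den R : I) : Bool :=
  band (isPos den) (le (I.sub one (dbl (I.mul num (I.inv den)))) R)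
/-- the interval `R` contains the formula for the first index -/
def upOK (m : RT) (k R : I) : Bool :=
  RT.rec (motive := fun _ => Bool) false (leRI one (I.mul k (I.add k one)) R)
    (leRI one (sqr k) R) (leRI (I.add one k) (I.mul k (I.sub (I.add (sqr k) k) one)) R)
    (leRI one (I.sub (sqr k) one) R) false m
/-- the interval `R` contains `0` (sign `+`) or `1 - 2/k` (sign `-`) -/
def lowOK (eps : Bool) (k R : I) : Bool :=
  Bool.rec (motive := fun _ => Bool) (leRI one k R) (le zero R) eps
def isTl (t : RT) : Bool :=
  RT.rec (motive := fun _ => Bool) false false false false false true t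
def tlOK (t : Tag) (k R : I) : Bool := imp (isTl t.rt) (band (upOK t.m0 k R) (lowOK t.eps k R))

/-! ### block types by class -/

/-- class of an order: exactly 3, 4, 5, or at least 6 -/
inductive CT where
  | c3 | c4 | c5 | g

def tg (eps even vout : Bool) (rt : RT) : Tag := Tag.mk eps even vout rt RT.r2

/-- the block types which may follow, by class and flag -/
def tags (ct : CT) (v : Bool) : List Tag :=
  match ct, v with
  | CT.c3, false => [tg true true false RT.r2, tg true false true RT.r3,
      tg false false false RT.r3, tg false true true RT.r4]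
  | CT.c3, true => [tg false false true RT.r3]
  | CT.c4, false => [tg true true false RT.r2, tg true false false RT.r3, tg true true true RT.r4,
      tg false false false RT.r3, tg false true false RT.r4, tg false false true RT.r5]
  | CT.c4, true => [tg false false false RT.r3, tg false true true RT.r4]
  | CT.c5, false => [tg true true false RT.r2, tg true false false RT.r3,
      tg true true false RT.r4, tg true false true RT.r5,
      tg false false false RT.r3, tg false true false RT.r4, tg false false false RT.r5,
      tg false true true RT.r6]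
  | CT.c5, true => [tg false false false RT.r3, tg false true false RT.r4,
      tg false false true RT.r5]
  | CT.g, false => [tg true true false RT.r2, tg true false false RT.r3,
      Tag.mk true true false RT.tl RT.r4, Tag.mk true false false RT.tl RT.r5,
      tg false false false RT.r3, tg false true false RT.r4,
      Tag.mk false false false RT.tl RT.r5, Tag.mk false true false RT.tl RT.r6]
  | CT.g, true => [tg false false false RT.r3, tg false true false RT.r4,
      Tag.mk false false false RT.tl RT.r5, Tag.mk false true false RT.tl RT.r6]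

/-- class of orders `lo ≤ M ≤ hi` (no upper bound if `top`), with an interval for `2 cos(π/M)` -/
structure ClassD where
  lo : Nat
  hi : Nat
  top : Bool
  ct : CT
  k : I

structure StarD where
  ck : ClassD
  cd : ClassD
  ce : ClassD
  nE : Nat
  nO : Nat
  bt : BTr

def StarD.dummy : StarD :=
  StarD.mk (ClassD.mk 0 0 false CT.g zero) (ClassD.mk 0 0 false CT.g zero)
    (ClassD.mk 0 0 false CT.g zero) 0 0 BTr.e

/-- check of one tag of one box; `bt` is the tree of boxes of the next star -/
def chkTag (s : I) (ck cd ce : ClassD) (bt : BTr) (src : Bx) (t : Tag) (R : I) (tr : Tr) : Bool :=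
  band (tlOK t ck.k R) (chkTr t src bt tr
    (Cell.mk src.z.a src.z.b src.z.be R s ck.k cd.k ce.k))

/-! ### the start -/

/-- `A = a0² + td`, `K = Sb g² (1+s)`; `Y` contains the small root of `A + K y² - y` -/
def stY (A K : I) (yl yh : Nat) : Bool :=
  band (isPos (I.sub (I.add A (I.mul K (sqr (I.pos yl yl)))) (I.pos yl yl)))
    (band (isPos (I.sub (I.pos yh yh) (I.add A (I.mul K (sqr (I.pos yh yh))))))
      (band (isPos (I.sub one (dbl (I.mul K (I.pos yh yh))))) (Nat.ble yl yh)))

def st3 (s a0 : I) (Sb td g : I) (yl yh : Nat) : Bool :=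
  stY (I.add (sqr a0) td) (I.mul (I.mul Sb (sqr g)) (I.add one s)) yl yh
def st2 (s a0 k k2 hd hd2 l2 : I) (yl yh : Nat) : Bool :=
  band (isPos l2) (band (isPos k2) (band (isPos hd2)
    (st3 s a0 (I.mul (I.mul (I.sub two k) (I.add two k)) (I.inv k2))
      (I.mul (I.mul (I.sub two hd) (I.add two hd)) (I.inv hd2)) (I.inv l2) yl yh)))
def st1 (s a0 k hd he khd : I) (yl yh : Nat) : Bool :=
  band (isPos khd) (st2 s a0 k (sqr k) hd (sqr hd)
    (dbl (I.add one (I.mul (dbl he) (I.inv khd)))) yl yh)

def notb (x : Bool) : Bool := Bool.rec (motive := fun _ => Bool) true false x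

/-- the start with `a = a0` lies in the box `x` -/
def stB (s a0 k hd he : I) (yl yh : Nat) (x : Bx) : Bool :=
  band (notb x.v) (band (le a0 x.z.a) (band (le zero x.z.b) (band (le zero x.z.be)
    (band (le (I.pos yl yh) x.z.yr) (band (le zero x.z.ad) (band (le zero x.z.bd)
    (band (le zero x.z.bed) (st1 s a0 k hd he (I.mul k hd) yl yh))))))))

/-- one start value: path of a box and bounds for `y` -/
def chkSt (s a0 : I) (S : StarD) (p : Pth) (yl yh : Nat) : Bool :=
  lk p S.bt (stB s a0 S.ck.k S.cd.k S.ce.k yl yh)

def a06 : I := I.pos (nat_lit 161061273) (nat_lit 161061274)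
def a07 : I := I.pos (nat_lit 187904819) (nat_lit 187904820)
def a08 : I := I.pos (nat_lit 214748364) (nat_lit 214748365)

/-! ### validity of a group -/

/-- the box at path `p` -/
def BTr.at : Pth → BTr → Option Bx
  | Pth.z, BTr.b x => some x
  | Pth.l p, BTr.n l _ => BTr.at p l
  | Pth.r p, BTr.n _ r => BTr.at p r
  | _, _ => none

/-- all boxes of the tree satisfy `P` -/
def BTr.All (P : Bx → Prop) : BTr → Prop
  | BTr.e => True
  | BTr.b x => P x
  | BTr.n l r => BTr.All P l ∧ BTr.All P r

/-- all tags of the list satisfy `P` -/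
def AllL (P : Tag → Prop) : List Tag → Prop
  | [] => True
  | t :: ts => P t ∧ AllL P ts

def getS (G : List StarD) (i : Nat) : StarD := G.getD i StarD.dummy

/-- the next star (even or odd m) -/
def nxt (G : List StarD) (S : StarD) (even : Bool) : StarD := getS G (if even then S.nE else S.nO)

structure StarOK (s : I) (G : List StarD) (S : StarD) : Prop where
  lE : S.nE < G.length
  lO : S.nO < G.length
  e1 : (getS G S.nE).ck = S.cd
  e2 : (getS G S.nE).cd = S.ck
  e3 : (getS G S.nE).ce = S.ce
  o1 : (getS G S.nO).ck = S.ce
  o2 : (getS G S.nO).cd = S.ck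
  o3 : (getS G S.nO).ce = S.cd
  st6 : ∃ p yl yh, chkSt s a06 S p yl yh = true
  st7 : ∃ p yl yh, chkSt s a07 S p yl yh = true
  st8 : ∃ p yl yh, chkSt s a08 S p yl yh = true
  bx : BTr.All (fun x => AllL (fun t => ∃ R tr,
    chkTag s S.ck S.cd S.ce (nxt G S t.even).bt x t R tr = true) (tags S.ck.ct x.v)) S.bt

/-- the group `G` is valid on the interval `s = [sa, sb]` (units `2^-28`) -/
def GroupOK (sa sb : Nat) (G : List StarD) : Prop :=
  ∀ i, i < G.length → StarOK (I.pos sa sb) G (getS G i)

end Pool.Agent.Helper6.MONO
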