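import Pool.Agent.C75W.Im

/-!
Complex hyperbolic triangle groups: the definitions used by the final statement.
-/

set_option autoImplicit false
noncomputable section
namespace Pool.Agent.Helper6.MONO

/-- the Hermitian form of signature (2,1) on `ℂ³` -/
def hf (x y : Fin 3 → ℂ) : ℂ :=
  x 0 * star (y 0) + x 1 * star (y 1) - x 2 * star (y 2)

/-- negative vectors; their lines are the points of the complex hyperbolic plane -/
def Neg (x : Fin 3 → ℂ) : Prop := (hf x x).re < 0

/-- the distance of the complex hyperbolic plane (Bergman metric, normalised so that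
`cosh² (d/2) = |<x,y>|² / (<x,x><y,y>)`) -/
def hd (x y : Fin 3 → ℂ) : ℝ :=
  2 * Real.arcosh (‖hf x y‖ / Real.sqrt ((hf x x).re * (hf y y).re))

/-- translation length of a map of the complex hyperbolic plane induced by `g` -/
def tl (g : (Fin 3 → ℂ) → (Fin 3 → ℂ)) : ℝ := sInf {t | ∃ x, Neg x ∧ t = hd x (g x)}

/-- the complex reflection of order two in the complex line polar to the unit vector `n`
(up to the scalar `-1`, which acts trivially on the plane) -/
def refl (n x : Fin 3 → ℂ) : Fin 3 → ℂ := x - (2 * hf x n) • n

/-- the product of reflections spelled by a word -/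
def act (e : Fin 3 → Fin 3 → ℂ) : List (Fin 3) → (Fin 3 → ℂ) → (Fin 3 → ℂ)
  | [], x => x
  | i :: w, x => refl (e i) (act e w x)

/-- `e 0, e 1, e 2` are unit polar vectors of three complex lines in general position, the first
two meeting at the angle `π/p`, the last two at `π/q`, the third and the first at `π/r` -/
structure IsTri (p q r : ℕ) (e : Fin 3 → Fin 3 → ℂ) : Prop where
  unit : ∀ i, hf (e i) (e i) = 1
  ang1 : ‖hf (e 0) (e 1)‖ = Real.cos (Real.pi / p)
  ang2 : ‖hf (e 1) (e 2)‖ = Real.cos (Real.pi / q)
  ang3 : ‖hf (e 2) (e 0)‖ = Real.cos (Real.pi / r)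
  indep : LinearIndependent ℂ e

/-- the triple product of the polar vectors; it is negative real for the real triangle group -/
def trip (e : Fin 3 → Fin 3 → ℂ) : ℂ := hf (e 0) (e 1) * hf (e 1) (e 2) * hf (e 2) (e 0)

/-- `t` is the Cartan angular invariant of the three vertices: `v k` spans the line orthogonal
to the two polar vectors other than `e k` -/
def IsCartan (e : Fin 3 → Fin 3 → ℂ) (t : ℝ) : Prop :=
  ∃ v : Fin 3 → Fin 3 → ℂ, (∀ k, v k ≠ 0) ∧ (∀ k i, i ≠ k → hf (v k) (e i) = 0) ∧
    t = Complex.arg (-(hf (v 0) (v 1) * hf (v 1) (v 2) * hf (v 2) (v 0)))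

/-- the equation `act.eq_def`, made here once -/
theorem eqn_act_eq_def : True := by
  have h := @act.eq_def
  trivial

end Pool.Agent.Helper6.MONO
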