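import Pool.Agent.Helper6.MONO.Dots
import Pool.Agent.Helper6.MONO.Defs
import Pool.Agent.Helper6.MONO.Chk
import Pool.Agent.Helper6.MONO.Sound

/-!
Statements of the modules.
-/

set_option autoImplicit false
noncomputable section
namespace Pool.Agent.Helper6.MONO

abbrev V3 : Type := Fin 3 → ℂ
abbrev E3 : Type := V3 →ₗ[ℂ] V3

/-! ### A. translation length -/

def Pres (g : E3) : Prop := ∀ x y, hf (g x) (g y) = hf x y

/-- triangle inequality -/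
def ST_TL1 : Prop := ∀ x y z : V3, Neg x → Neg y → Neg z → hd x z ≤ hd x y + hd y z

/-- midpoints: displacement of the midpoint of `x` and `g x` -/
def ST_TL2 : Prop := ∀ g : E3, Pres g → ∀ x : V3, Neg x →
  ∃ m : V3, Neg m ∧ 2 * hd m (g m) ≤ hd x (g (g x))

/-- norm and displacement -/
def ST_TL3 : Prop := ∀ x : V3, Neg x → ∃ C : ℝ, 0 < C ∧ ∀ g : E3, Pres g →
  nrm g ≤ C * Real.exp (hd x (g x) / 2) ∧ Real.exp (hd x (g x) / 2) ≤ C * nrm g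

/-- comparison of translation lengths -/
def ST_TLE : Prop := ∀ g g' : E3, Pres g → Pres g' →
  (∃ C : ℝ, ∀ n : ℕ, nrm (g' ^ n : E3) ≤ C * nrm (g ^ n : E3)) → tl g' ≤ tl g

def ST_TLE' : Prop := ST_TL1 → ST_TL2 → ST_TL3 → ST_TLE

/-! ### B. polar vectors and Gram data -/

def gram (e : Fin 3 → V3) (i j : Fin 3) : ℂ := -2 * hf (e i) (e j)

def ST_GRA : Prop := ∀ (p q r : ℕ), 3 ≤ p → 3 ≤ q → 3 ≤ r → ∀ e : Fin 3 → V3, IsTri p q r e →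
  (trip e).re ≤ 0 → ∃ τ : ℝ, |τ| ≤ 1 ∧ IsG p q r τ (gram e)

/-- coordinates with respect to the polar vectors -/
def ecomb (e : Fin 3 → V3) (x : V3) : V3 := ∑ i, x i • e i

def ST_CNJ : Prop := ∀ e : Fin 3 → V3, (∀ i, hf (e i) (e i) = 1) → ∀ (w : List (Fin 3)) (x : V3),
  act e w (ecomb e x) = ecomb e (gact (gram e) w.reverse x)

/-- the action is linear and preserves the form -/
def ST_ACT : Prop := ∀ e : Fin 3 → V3, (∀ i, hf (e i) (e i) = 1) → ∀ w : List (Fin 3),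
  ∃ g : E3, (∀ x, g x = act e w x) ∧ Pres g

/-- configurations exist for all phases up to a right angle -/
def ST_EXI : Prop := ∀ (p q r : ℕ), 4 ≤ p → 4 ≤ q → 4 ≤ r → ∀ θ : ℝ, |θ| ≤ Real.pi / 2 →
  ∃ e : Fin 3 → V3, IsTri p q r e ∧ Complex.arg (-trip e) = θ

/-! ### C. the Cartan invariant -/

/-- `arctan τ + Σ arctan (δ τ)` -/
def dl1 (h l m : ℝ) : ℝ := (l * m - 2 * h) / (l * m + 2 * h)
def tC (h l m τ : ℝ) : ℝ :=
  Real.arctan τ + Real.arctan (dl1 h l m * τ) + Real.arctan (dl1 l m h * τ)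
    + Real.arctan (dl1 m h l * τ)

def ST_CAR : Prop := ∀ (p q r : ℕ), 3 ≤ p → 3 ≤ q → 3 ≤ r → ∀ (e : Fin 3 → V3) (τ t : ℝ),
  IsTri p q r e → |τ| ≤ 1 → IsG p q r τ (gram e) → IsCartan e t →
  |t| = |tC (kk p q r 0 1) (kk p q r 1 2) (kk p q r 2 0) τ|

def ST_CMO : Prop := ∀ (h l m : ℝ), Real.sqrt 2 ≤ h → h < 2 → Real.sqrt 2 ≤ l → l < 2 →
  Real.sqrt 2 ≤ m → m < 2 → StrictMonoOn (tC h l m) (Set.Icc 0 1)

/-! ### D. words -/

def ST_BRD : Prop := ∀ (p q r : ℕ), 3 ≤ p → 3 ≤ q → 3 ≤ r → ∀ i j : Fin 3, i ≠ j →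
  Eqv p q r (alt i j (mm p q r i j)) (alt j i (mm p q r i j))

def ST_INV : Prop := ∀ (p q r : ℕ), 3 ≤ p → 3 ≤ q → 3 ≤ r → ∀ i : Fin 3, Eqv p q r [i, i] []

/-- minimal length among equivalent words -/
def MinW (p q r : ℕ) (u : List (Fin 3)) : Prop := ∀ v, Eqv p q r u v → u.length ≤ v.length

/-- right shape of blocks -/
def shp (bs : List (Bool × ℕ)) : Prop :=
  ∀ b ∈ bs, (b.1 = true → 2 ≤ b.2) ∧ (b.1 = false → 3 ≤ b.2)

/-- cutting a word with distinct neighbours into blocks; the head is short (an alternating word,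
or a letter followed by one) -/
def ST_CUT : Prop := ∀ u : List (Fin 3), List.IsChain (fun a b => a ≠ b) u →
  ∃ (h : List (Fin 3)) (c d e : Fin 3) (bs : List (Bool × ℕ)), Dist c d e ∧ shp bs ∧
    u = h ++ bw (c, d, e) bs ∧
    ((∃ i j n, i ≠ j ∧ h = alt i j n) ∨ (∃ a i j n, i ≠ j ∧ h = a :: alt i j n))

/-- minimal words give admissible paths -/
def ST_FLG : Prop := ST_BRD → ST_INV → ∀ (p q r : ℕ), 3 ≤ p → 3 ≤ q → 3 ≤ r →
  ∀ (h : List (Fin 3)) (c d e : Fin 3) (bs : List (Bool × ℕ)), Dist c d e → shp bs →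
    MinW p q r (h ++ bw (c, d, e) bs) → okPath p q r false (c, d, e) bs

/-- every group element has an admissible word -/
def ST_PATH : Prop := ∀ (p q r : ℕ), 3 ≤ p → 3 ≤ q → 3 ≤ r → ∃ B : ℕ, ∀ w : List (Fin 3),
  ∃ (h : List (Fin 3)) (c d e : Fin 3) (bs : List (Bool × ℕ)), Dist c d e ∧ h.length ≤ B ∧
    okPath p q r false (c, d, e) bs ∧ Eqv p q r w (h ++ bw (c, d, e) bs)

def ST_PATH' : Prop := ST_BRD → ST_INV → ST_CUT → ST_FLG → ST_PATH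

/-! ### E. the chart -/

/-- the fixed point and the alternating block, start `d` (`σ = 1`) or `e` (`σ = -1`);
`A = G c d ξ`, `B = G c e ξ`, `f = 2 x d - G e d x e - A` -/
def ST_ALT : Prop := ∀ (G : Fin 3 → Fin 3 → ℂ) (φ κ : ℝ) (c d e : Fin 3) (x : V3), Dist c d e →
  (∀ i j, G j i = star (G i j)) → κ = 2 * Real.cos φ → Real.sin φ ≠ 0 → κ ≠ 0 →
  ‖G d e‖ = κ → ∀ (ε : Bool) (m : ℕ), 1 ≤ m →
  let A := G c d * x c
  let B := G c e * x c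
  let f := 2 * x d - G e d * x e - A
  let pe := (2 * B + G d e * A) / (4 - κ ^ 2 : ℝ)
  let pd := (2 * A + G e d * B) / (4 - κ ^ 2 : ℝ)
  let C := fun k : ℕ => ((Real.cos (k * φ) : ℝ) : ℂ)
  let S := fun k : ℕ => ((Real.sin (k * φ) / Real.sin φ : ℝ) : ℂ)
  let σ : ℂ := if ε then 1 else -1
  let y := gact G (blk d e ε m) x
  y c = x c ∧
  (m % 2 = 0 →
    y e = pe + (x e - pe) * C m - σ * (G d e / κ) * f * S m / 2 ∧
    y d = pd + (G e d / κ) * (x e - pe) * C (m - 1) - σ * f * S (m - 1) / 2) ∧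
  (m % 2 = 1 →
    y d = pd + (G e d / κ) * (x e - pe) * C m - σ * f * S m / 2 ∧
    y e = pe + (x e - pe) * C (m - 1) - σ * (G d e / κ) * f * S (m - 1) / 2)

def ST_BRD' : Prop := ST_ALT → ST_BRD

/-- effect of a block in the chart -/
def ST_BLK (ev : Bool) : Prop := ∀ (p q r : ℕ), 3 ≤ p → 3 ≤ q → 3 ≤ r →
  ∀ (τ : ℝ) (G : Fin 3 → Fin 3 → ℂ), IsG p q r τ G → ∀ (c d e : Fin 3), Dist c d e →
  ∀ (ε : Bool) (m : ℕ), 2 ≤ m → m ≤ mm p q r d e + 1 → ev2 m = ev →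
  ∀ (x : V3) (ξ : ℂ) (z : RV), ξ ≠ 0 → Ch p q r τ G (c, d, e) x ξ z →
  stepN p q r (τ ^ 2) c d e ε m z ≠ 0 →
  ∃ ξ' : ℂ, ξ' ≠ 0 ∧
    Ch p q r τ G (nx (ev2 m) c d e) (gact G (blk d e ε m) x) ξ' (stepV p q r (τ ^ 2) c d e ε m z) ∧
    ‖ξ'‖ ^ 2 = stepF p q r (τ ^ 2) c d e ε m z * ‖ξ‖ ^ 2

def ST_BLKE : Prop := ST_ALT → ST_BLK true
def ST_BLKO : Prop := ST_ALT → ST_BLK false

/-- along a path -/
def ST_PTH : Prop := ST_BLK true → ST_BLK false → ∀ (p q r : ℕ), 3 ≤ p → 3 ≤ q → 3 ≤ r →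
  ∀ (τ : ℝ) (G : Fin 3 → Fin 3 → ℂ), IsG p q r τ G →
  ∀ (bs : List (Bool × ℕ)) (c d e : Fin 3) (v : Bool), Dist c d e →
  okPath p q r v (c, d, e) bs →
  ∀ (x : V3) (ξ : ℂ) (z : RV), ξ ≠ 0 → Ch p q r τ G (c, d, e) x ξ z →
  nP p q r (τ ^ 2) (c, d, e) z bs →
  ∃ ξ' : ℂ, ξ' ≠ 0 ∧ Dist (sP (c, d, e) bs).1 (sP (c, d, e) bs).2.1 (sP (c, d, e) bs).2.2 ∧
    Ch p q r τ G (sP (c, d, e) bs) (gact G (bw (c, d, e) bs) x) ξ' (zP p q r (τ ^ 2) (c, d, e) z bs) ∧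
    ‖ξ'‖ ^ 2 = fP p q r (τ ^ 2) (c, d, e) z bs * ‖ξ‖ ^ 2

/-- size of a vector in terms of its chart -/
def ST_CHN : Prop := ∀ (p q r : ℕ), 3 ≤ p → 3 ≤ q → 3 ≤ r → ∀ B : ℝ, ∃ C : ℝ, 0 < C ∧
  ∀ (τ : ℝ) (G : Fin 3 → Fin 3 → ℂ), |τ| ≤ 1 → IsG p q r τ G →
  ∀ (c d e : Fin 3), Dist c d e → ∀ (x : V3) (ξ : ℂ) (z : RV), Ch p q r τ G (c, d, e) x ξ z →
  |z.a| ≤ B → |z.b| ≤ B → |z.be| ≤ B → |z.yr| ≤ B → ‖ξ‖ ≤ ‖x‖ ∧ ‖x‖ ≤ C * ‖ξ‖

def av (i : Fin 3) : ℝ := ![3 / 5, 7 / 10, 4 / 5] i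

/-- the three starting vectors form a basis -/
def ST_SPN : Prop := ∀ (p q r : ℕ), 3 ≤ p → 3 ≤ q → 3 ≤ r →
  ∀ (τ : ℝ) (G : Fin 3 → Fin 3 → ℂ), IsG p q r τ G → ∀ (c d e : Fin 3), Dist c d e →
  (∀ i, NR (τ ^ 2) (kk p q r d e) (kk p q r c d) (kk p q r c e) (zst p q r (τ ^ 2) (c, d, e) (av i))) →
  ∃ x : Fin 3 → V3, LinearIndependent ℂ x ∧
    ∀ i, Ch p q r τ G (c, d, e) (x i) 1 (zst p q r (τ ^ 2) (c, d, e) (av i))

/-! ### F. the real recursion -/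

/-- parameters of the next star -/
def nk (ev : Bool) (_k hd he : ℝ) : ℝ := if ev then hd else he
def nhd (_ev : Bool) (k _hd _he : ℝ) : ℝ := k
def nhe (ev : Bool) (_k hd he : ℝ) : ℝ := if ev then he else hd

/-- the null relation is preserved -/
def ST_NRI : Prop := ∀ (s k hd he R : ℝ) (ε ev : Bool) (z : RV), 0 ≤ s → 0 < k → 0 < hd → 0 < he →
  NR s k hd he z → vn s ε ev z k hd he R ≠ 0 →
  NR s (nk ev k hd he) (nhd ev k hd he) (nhe ev k hd he) (vstep s ε ev z k hd he R)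

/-- the program computes the explicit formulas -/
def ST_EQ (ev : Bool) : Prop := ∀ (s k hd he R : ℝ) (ε : Bool) (z : RSt), 0 ≤ s → 0 < k →
  0 < hd → 0 < he → NR s k hd he z.val → (r_stp s ε ev z k hd he R).ck →
  0 < vDr s ε ev z.val k hd he R ∧ 0 < vn s ε ev z.val k hd he R ∧
  0 < 1 - 2 * (SbP k * (gP k hd he * gP k hd he)) * (1 + s) * z.yr ∧
  (r_stp s ε ev z k hd he R).st.val = vstep s ε ev z.val k hd he R ∧
  (r_stp s ε ev z k hd he R).st.ad = dwr s ε ev z k hd he R (ydP s k hd he z) ∧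
  (r_stp s ε ev z k hd he R).st.bd =
    rsg (!(cjP ε ev)) (dwi s ε ev z k hd he R (ydP s k hd he z)) ∧
  (r_stp s ε ev z k hd he R).st.bed =
    rsg (!(cjP ε ev)) (dyi s ε ev z k hd he R (ydP s k hd he z)) ∧
  (r_stp s ε ev z k hd he R).L = dL s ε ev z k hd he R (ydP s k hd he z)

/-- a state moving with `s`: values `Z`, derivatives as in the state `z` at `s` -/
structure Mov (Z : ℝ → RV) (s : ℝ) (z : RSt) (yd : ℝ) : Prop where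
  val : Z s = z.val
  da : HasDerivAt (fun t => (Z t).a) (z.ad / (1 + s)) s
  db : HasDerivAt (fun t => (Z t).b) (z.bd / (1 + s)) s
  dbe : HasDerivAt (fun t => (Z t).be) (z.bed / (1 + s)) s
  dyr : HasDerivAt (fun t => (Z t).yr) (yd / (1 + s)) s

/-- differentiation of the step -/
def ST_DER : Prop := ∀ (s k hd he R : ℝ) (ε ev : Bool) (Z : ℝ → RV) (z : RSt) (yd : ℝ), 0 ≤ s →
  0 < k → 0 < hd → 0 < he → Mov Z s z yd → 0 < vn s ε ev z.val k hd he R →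
  HasDerivAt (fun t => (vstep t ε ev (Z t) k hd he R).a) (dwr s ε ev z k hd he R yd / (1 + s)) s ∧
  HasDerivAt (fun t => (vstep t ε ev (Z t) k hd he R).b)
    (rsg (!(cjP ε ev)) (dwi s ε ev z k hd he R yd) / (1 + s)) s ∧
  HasDerivAt (fun t => (vstep t ε ev (Z t) k hd he R).be)
    (rsg (!(cjP ε ev)) (dyi s ε ev z k hd he R yd) / (1 + s)) s ∧
  HasDerivAt (fun t => (vstep t ε ev (Z t) k hd he R).yr) (dyr s ε ev z k hd he R yd / (1 + s)) s ∧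
  (0 < (R * R + SbP k) * (R * R + SbP k) →
    0 < fac s ε ev z.val k hd he R ∧
    HasDerivAt (fun t => Real.log (fac t ε ev (Z t) k hd he R))
      (dL s ε ev z k hd he R yd / (1 + s)) s)

/-- the derivative of `yr` is determined by the null relation -/
def ST_YD : Prop := ∀ (s0 s1 s k hd he : ℝ) (Z : ℝ → RV) (z : RSt) (yd : ℝ), s0 < s1 → s0 ≤ s →
  s ≤ s1 → 0 ≤ s0 → Mov Z s z yd → (∀ t, s0 ≤ t → t ≤ s1 → NR t k hd he (Z t)) →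
  1 - 2 * (SbP k * (gP k hd he * gP k hd he)) * (1 + s) * z.yr ≠ 0 → yd = ydP s k hd he z

/-- the start: small root of the quadratic, smooth in `s` -/
def ST_Y0 : Prop := ∀ (s k hd he a0 : ℝ), 0 ≤ s → 0 < k → k ≤ 2 → 0 < hd → hd ≤ 2 → 0 < he →
  4 * Kst s k hd he * (a0 * a0 + SbP hd) < 1 →
  NR s k hd he (z0 s k hd he a0) ∧ ∃ yd : ℝ, HasDerivAt (fun t => y0 t k hd he a0) yd s

/-- the region: everything the certificate provides for the orders `p, q, r` and `s0 ≤ s ≤ s1` -/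
def RegOK (p q r : ℕ) (s0 s1 : ℝ) : Prop :=
  ∃ (J : Type) (At : J → Fin 3 × Fin 3 × Fin 3 → Prop) (fl : J → Bool) (pt : J → ℝ)
    (Bx : J → RSt → Prop) (B : ℝ),
    (∀ j, |pt j| ≤ B) ∧
    (∀ j z, Bx j z → |z.a| ≤ B ∧ |z.b| ≤ B ∧ |z.be| ≤ B ∧ |z.yr| ≤ B) ∧
    (∀ c d e : Fin 3, Dist c d e → ∀ a0, isA0 a0 → ∃ j, At j (c, d, e) ∧ fl j = false ∧
      ∀ s, s0 ≤ s → s ≤ s1 →
        4 * Kst s (kk p q r d e) (kk p q r c d) (kk p q r c e) * (a0 * a0 + SbP (kk p q r c d)) < 1 ∧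
        Bx j ⟨a0, 0, 0, y0 s (kk p q r d e) (kk p q r c d) (kk p q r c e) a0, 0, 0, 0⟩) ∧
    (∀ (j : J) (c d e : Fin 3), Dist c d e → At j (c, d, e) → ∀ (ε : Bool) (m : ℕ),
      allowed (mm p q r d e) (fl j) ε m → ∀ (s : ℝ) (z : RSt), s0 ≤ s → s ≤ s1 → Bx j z →
      (r_stp s ε (ev2 m) z (kk p q r d e) (kk p q r c d) (kk p q r c e) (Rb (mm p q r d e) m)).ck ∧
      ∃ j' : J, At j' (nx (ev2 m) c d e) ∧
        (fl j' = true → vnext (mm p q r d e) (fl j) ε m = true) ∧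
        Bx j' (r_stp s ε (ev2 m) z (kk p q r d e) (kk p q r c d) (kk p q r c e)
          (Rb (mm p q r d e) m)).st ∧
        (r_stp s ε (ev2 m) z (kk p q r d e) (kk p q r c d) (kk p q r c e)
          (Rb (mm p q r d e) m)).L + (pt j' - pt j) < 0)

/-- monotonicity up to constants on `s0 ≤ s ≤ s1` -/
def MB (p q r : ℕ) (s0 s1 : ℝ) : Prop :=
  ∃ C : ℝ, 0 < C ∧ ∀ (c d e : Fin 3), Dist c d e → ∀ a0, isA0 a0 → ∀ bs : List (Bool × ℕ),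
    okPath p q r false (c, d, e) bs → ∀ s, s0 ≤ s → s ≤ s1 →
      NR s (kk p q r d e) (kk p q r c d) (kk p q r c e) (zst p q r s (c, d, e) a0) ∧
      nP p q r s (c, d, e) (zst p q r s (c, d, e) a0) bs ∧
      0 ≤ fP p q r s (c, d, e) (zst p q r s (c, d, e) a0) bs ∧
      |(zst p q r s (c, d, e) a0).yr| ≤ C ∧
      |(zP p q r s (c, d, e) (zst p q r s (c, d, e) a0) bs).a| ≤ C ∧
      |(zP p q r s (c, d, e) (zst p q r s (c, d, e) a0) bs).b| ≤ C ∧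
      |(zP p q r s (c, d, e) (zst p q r s (c, d, e) a0) bs).be| ≤ C ∧
      |(zP p q r s (c, d, e) (zst p q r s (c, d, e) a0) bs).yr| ≤ C ∧
      ∀ s', s ≤ s' → s' ≤ s1 →
        fP p q r s' (c, d, e) (zst p q r s' (c, d, e) a0) bs ≤
          C * fP p q r s (c, d, e) (zst p q r s (c, d, e) a0) bs

def ST_GRW : Prop := ST_NRI → ST_EQ true → ST_EQ false → ST_DER → ST_YD → ST_Y0 →
  ∀ (p q r : ℕ), 3 ≤ p → 3 ≤ q → 3 ≤ r → ∀ s0 s1 : ℝ, 0 ≤ s0 → s0 < s1 → s1 ≤ 2 →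
  RegOK p q r s0 s1 → MB p q r s0 s1

/-- chaining of intervals -/
def ST_MBC : Prop := ∀ (p q r : ℕ) (s0 s1 s1' s2 : ℝ), s0 ≤ s1' → s1' ≤ s1 → s1 ≤ s2 →
  MB p q r s0 s1 → MB p q r s1' s2 → MB p q r s0 s2

/-- uniform comparison of norms -/
def ST_NRM : Prop := ST_PATH → ST_PTH → ST_BLK true → ST_BLK false → ST_CHN → ST_SPN → ST_INV →
  ∀ (p q r : ℕ), 3 ≤ p → 3 ≤ q → 3 ≤ r → ∀ s1 : ℝ, s1 ≤ 1 → MB p q r 0 s1 →
  ∀ (τ τ' : ℝ) (G G' : Fin 3 → Fin 3 → ℂ), |τ| ≤ |τ'| → τ' ^ 2 ≤ s1 → IsG p q r τ G →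
  IsG p q r τ' G' → ∃ C : ℝ, ∀ w : List (Fin 3), nrm (gact G' w) ≤ C * nrm (gact G w)

/-! ### G. R-bar -/

def ST_RB (M : ℕ) : Prop :=
  Rb M 2 = 1 ∧ Rb M 3 = 1 - 2 * (1 * (1 / (Kp M * (Kp M + 1)))) ∧
  Rb M 4 = 1 - 2 * (1 * (1 / (Kp M * Kp M))) ∧
  (4 ≤ M → Rb M 5 = 1 - 2 * ((1 + Kp M) * (1 / (Kp M * (Kp M * Kp M + Kp M - 1))))) ∧
  (5 ≤ M → Rb M 6 = 1 - 2 * (1 * (1 / (Kp M * Kp M - 1))))
def ST_RBF : Prop := ∀ M : ℕ, 3 ≤ M → ST_RB M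

/-- `R-bar` decreases with the index and stays above its last values -/
def ST_RBT : Prop := ∀ M m0 m : ℕ, 3 ≤ M → 2 ≤ m0 → m0 ≤ m →
  (m ≤ M + 1 → Rb M m ≤ Rb M m0 ∧ 1 - 2 * (1 * (1 / Kp M)) ≤ Rb M m) ∧ (m ≤ M → 0 ≤ Rb M m)

/-! ### H. the checker -/

def InC (C : ClassD) (M : ℕ) : Prop := C.lo ≤ M ∧ (C.top = true ∨ M ≤ C.hi)

/-- the class is described correctly -/
structure ClsOK (C : ClassD) : Prop where
  mem : ∀ M, InC C M → mem (Kp M) C.k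
  c3 : C.ct = CT.c3 → ∀ M, InC C M → M = 3
  c4 : C.ct = CT.c4 → ∀ M, InC C M → M = 4
  c5 : C.ct = CT.c5 → ∀ M, InC C M → M = 5
  g : C.ct = CT.g → ∀ M, InC C M → 6 ≤ M

def InPr (c : Cell) (s k hd he : ℝ) (z : RSt) : Prop :=
  mem z.a c.a ∧ mem z.b c.b ∧ mem z.be c.be ∧ mem s c.s ∧ mem k c.k ∧ mem hd c.hd ∧ mem he c.he

/-- the real value of `R-bar` belonging to a tag -/
def rtOK (t : RT) (k R : ℝ) : Prop :=
  match t with
  | RT.r2 => R = 1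
  | RT.r3 => R = 1 - 2 * (1 * (1 / (k * (k + 1))))
  | RT.r4 => R = 1 - 2 * (1 * (1 / (k * k)))
  | RT.r5 => R = 1 - 2 * ((1 + k) * (1 / (k * (k * k + k - 1))))
  | RT.r6 => R = 1 - 2 * (1 * (1 / (k * k - 1)))
  | RT.tl => True

/-- soundness of a subdivision tree -/
def ST_TRS : Prop := ∀ (t : Tag) (src : Bx) (bt : BTr) (tr : Tr) (c : Cell) (sa sb : ℕ),
  c.s = I.pos sa sb → chkTr t src bt tr c = true →
  ∀ (s k hd he R : ℝ) (z : RSt), InPr c s k hd he z → (t.rt = RT.tl → mem R c.R) →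
  mem z.yr src.z.yr → mem z.ad src.z.ad → mem z.bd src.z.bd → mem z.bed src.z.bed →
  rtOK t.rt k R →
  (r_stp s t.eps t.even z k hd he R).ck ∧
  ∃ (p : Pth) (x : Bx), BTr.at p bt = some x ∧ (x.v = true → t.vout = true) ∧
    memSt (r_stp s t.eps t.even z k hd he R).st x.z ∧
    (r_stp s t.eps t.even z k hd he R).L + ((x.pot : ℝ) - src.pot) / 268435456 < 0

/-- for tails: `R` lies between its last value and the value at the first index -/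
def tailOK (t : Tag) (k R : ℝ) : Prop :=
  t.rt = RT.tl → ∃ Ru : ℝ, rtOK t.m0 k Ru ∧ R ≤ Ru ∧
    (if t.eps then 0 ≤ R else 1 - 2 * (1 * (1 / k)) ≤ R)

/-- soundness of one tag -/
def ST_TGS : Prop := ST_TRS → ∀ (sa sb : ℕ) (ck cd ce : ClassD) (bt : BTr) (src : Bx) (t : Tag)
  (RI : I) (tr : Tr), chkTag (I.pos sa sb) ck cd ce bt src t RI tr = true →
  (t.rt = RT.tl → t.m0 ≠ RT.tl ∧ t.m0 ≠ RT.r2) →
  ∀ (s k hd he R : ℝ) (z : RSt), mem s (I.pos sa sb) → mem k ck.k → mem hd cd.k → mem he ce.k →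
  memSt z src.z → rtOK t.rt k R → tailOK t k R →
  (r_stp s t.eps t.even z k hd he R).ck ∧
  ∃ (p : Pth) (x : Bx), BTr.at p bt = some x ∧ (x.v = true → t.vout = true) ∧
    memSt (r_stp s t.eps t.even z k hd he R).st x.z ∧
    (r_stp s t.eps t.even z k hd he R).L + ((x.pot : ℝ) - src.pot) / 268435456 < 0

/-- every admissible block is covered by a tag -/
def ST_TGC : Prop := ST_RBF → ST_RBT → ∀ (ct : CT) (v : Bool) (M : ℕ),
  (ct = CT.c3 → M = 3) → (ct = CT.c4 → M = 4) → (ct = CT.c5 → M = 5) → (ct = CT.g → 6 ≤ M) →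
  ∀ (ε : Bool) (m : ℕ), allowed M v ε m → ∃ t ∈ tags ct v, t.eps = ε ∧ t.even = ev2 m ∧
    (t.vout = true → vnext M v ε m = true) ∧ rtOK t.rt (Kp M) (Rb M m) ∧ tailOK t (Kp M) (Rb M m) ∧
    (t.rt = RT.tl → t.m0 ≠ RT.tl ∧ t.m0 ≠ RT.r2)

/-- soundness of the start check -/
def ST_STS : Prop := ∀ (sa sb : ℕ) (a0I kI hdI heI : I) (yl yh : ℕ) (x : Bx),
  stB (I.pos sa sb) a0I kI hdI heI yl yh x = true → ∀ (s a0 k hd he : ℝ), mem s (I.pos sa sb) →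
  mem a0 a0I → mem k kI → mem hd hdI → mem he heI → 0 ≤ s → 0 < k → k ≤ 2 → 0 < hd → hd ≤ 2 →
  0 < he →
  4 * Kst s k hd he * (a0 * a0 + SbP hd) < 1 ∧ x.v = false ∧
    memSt ⟨a0, 0, 0, y0 s k hd he a0, 0, 0, 0⟩ x.z

/-- the stars of the group are all orderings of the three classes -/
def GroupCov (G : List StarD) (A B C : ClassD) : Prop := ∀ X Y Z : ClassD,
  [X, Y, Z].Perm [A, B, C] → ∃ i, i < G.length ∧ (getS G i).ck = X ∧ (getS G i).cd = Y ∧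
    (getS G i).ce = Z

/-- a valid group gives a region -/
def ST_REG : Prop := ST_TRS → ST_TGS → ST_TGC → ST_STS → ST_RBF → ST_RBT →
  ∀ (sa sb : ℕ) (G : List StarD) (A B C : ClassD), GroupOK sa sb G → GroupCov G A B C →
  ClsOK A → ClsOK B → ClsOK C → ∀ (p q r : ℕ), 3 ≤ p → 3 ≤ q → 3 ≤ r → InC A p → InC B q →
  InC C r → RegOK p q r ((sa : ℝ) / 268435456) ((sb : ℝ) / 268435456)

end Pool.Agent.Helper6.MONO
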