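import Pool.Agent.Helper6.MONO.Cls

/-!
Assembly of the certificate: checks of all block types of a box at once, splitting of large
subdivision trees, validity of a group.
-/

set_option autoImplicit false
noncomputable section
namespace Pool.Agent.Helper6.MONO

/-- the trees of boxes of the next stars -/
def sel (even : Bool) (btE btO : BTr) : BTr := Bool.rec (motive := fun _ => BTr) btO btE even

inductive TrL where
  | n : TrL
  | c : I → Tr → TrL → TrL

def tsN (l : TrL) : Bool := TrL.rec (motive := fun _ => Bool) true (fun _ _ _ _ => false) l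
def tsC (s : I) (ck cd ce : ClassD) (btE btO : BTr) (src : Bx) (t : Tag) (ih : TrL → Bool)
    (l : TrL) : Bool :=
  TrL.rec (motive := fun _ => Bool) false
    (fun R tr l' _ => band (chkTag s ck cd ce (sel t.even btE btO) src t R tr) (ih l')) l
/-- all block types of the list -/
def chkTs (s : I) (ck cd ce : ClassD) (btE btO : BTr) (src : Bx) (ts : List Tag) : TrL → Bool :=
  List.rec (motive := fun _ => TrL → Bool) tsN (fun t _ ih => tsC s ck cd ce btE btO src t ih) ts

/-- property proved for a box -/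
def BoxOK (s : I) (ck cd ce : ClassD) (btE btO : BTr) (x : Bx) : Prop :=
  AllL (fun t => ∃ R tr, chkTag s ck cd ce (sel t.even btE btO) x t R tr = true) (tags ck.ct x.v)

theorem band_l {x y : Bool} (h : band x y = true) : x = true := by
  cases x
  · exact h
  · rfl

theorem band_r {x y : Bool} (h : band x y = true) : y = true := by
  cases x
  · cases h
  · exact h

theorem band_mk {x y : Bool} (h1 : x = true) (h2 : y = true) : band x y = true := by
  subst h1 h2; rfl

theorem chkTs_sound (s : I) (ck cd ce : ClassD) (btE btO : BTr) (src : Bx) :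
    ∀ (ts : List Tag) (l : TrL), chkTs s ck cd ce btE btO src ts l = true →
      AllL (fun t => ∃ R tr, chkTag s ck cd ce (sel t.even btE btO) src t R tr = true) ts
  | [], _, _ => trivial
  | t :: ts, TrL.n, h => by cases h
  | t :: ts, TrL.c R tr l', h =>
    ⟨⟨R, tr, band_l h⟩, chkTs_sound s ck cd ce btE btO src ts l' (band_r h)⟩

theorem box_mk {s : I} {ck cd ce : ClassD} {btE btO : BTr} {x : Bx} (l : TrL)
    (h : chkTs s ck cd ce btE btO x (tags ck.ct x.v) l = true) : BoxOK s ck cd ce btE btO x :=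
  chkTs_sound s ck cd ce btE btO x _ l h

theorem box_mk' {s : I} {ck cd ce : ClassD} {btE btO : BTr} {x : Bx} (L : List Tag)
    (hL : tags ck.ct x.v = L)
    (h : AllL (fun t => ∃ R tr, chkTag s ck cd ce (sel t.even btE btO) x t R tr = true) L) :
    BoxOK s ck cd ce btE btO x := by
  subst hL; exact h

theorem ex_mk {s : I} {ck cd ce : ClassD} {bt : BTr} {x : Bx} {t : Tag} {R : I} {tr : Tr}
    (h : chkTag s ck cd ce bt x t R tr = true) :
    ∃ R tr, chkTag s ck cd ce bt x t R tr = true := ⟨R, tr, h⟩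

/-- splitting of a tree -/
theorem tr_split {t : Tag} {src : Bx} {bt : BTr} {q : Co} {x y : Tr} {c : Cell}
    (h1 : chkTr t src bt x (upd lo q c) = true) (h2 : chkTr t src bt y (upd hi q c) = true) :
    chkTr t src bt (Tr.N q x y) c = true := band_mk h1 h2

/-- the cell of a box -/
def rc (s : I) (ck cd ce : ClassD) (src : Bx) (R : I) : Cell :=
  Cell.mk src.z.a src.z.b src.z.be R s ck.k cd.k ce.k

theorem tag_mk {s : I} {ck cd ce : ClassD} {bt : BTr} {src : Bx} {t : Tag} {R : I} {tr : Tr}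
    (h1 : tlOK t ck.k R = true) (h2 : chkTr t src bt tr (rc s ck cd ce src R) = true) :
    chkTag s ck cd ce bt src t R tr = true := band_mk h1 h2

theorem allL_c {P : Tag → Prop} {t : Tag} {ts : List Tag} (h : P t) (h' : AllL P ts) :
    AllL P (t :: ts) := ⟨h, h'⟩
theorem allL_n {P : Tag → Prop} : AllL P [] := trivial

/-- validity of a star -/
def StarV (s : I) (ck cd ce : ClassD) (btE btO bt : BTr) : Prop :=
  BTr.All (BoxOK s ck cd ce btE btO) bt

theorem bt_n {P : Bx → Prop} {l r : BTr} (h1 : BTr.All P l) (h2 : BTr.All P r) :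
    BTr.All P (BTr.n l r) := ⟨h1, h2⟩
theorem bt_b {P : Bx → Prop} {x : Bx} (h : P x) : BTr.All P (BTr.b x) := h

theorem all_mono {P Q : Bx → Prop} (h : ∀ x, P x → Q x) : ∀ bt : BTr, BTr.All P bt → BTr.All Q bt
  | BTr.e, _ => trivial
  | BTr.b x, hx => h x hx
  | BTr.n l r, hx => ⟨all_mono h l hx.1, all_mono h r hx.2⟩

theorem allL_mono {P Q : Tag → Prop} (h : ∀ x, P x → Q x) : ∀ l : List Tag, AllL P l → AllL Q l
  | [], _ => trivial
  | x :: l, hx => ⟨h x hx.1, allL_mono h l hx.2⟩

/-- start data: path and bounds -/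
theorem st_mk {s a0 : I} {S : StarD} (p : Pth) (yl yh : Nat) (h : chkSt s a0 S p yl yh = true) :
    ∃ p yl yh, chkSt s a0 S p yl yh = true := ⟨p, yl, yh, h⟩

theorem star_mk {s : I} {G : List StarD} {S : StarD} {btE btO : BTr}
    (lE : S.nE < G.length) (lO : S.nO < G.length)
    (e1 : (getS G S.nE).ck = S.cd) (e2 : (getS G S.nE).cd = S.ck) (e3 : (getS G S.nE).ce = S.ce)
    (o1 : (getS G S.nO).ck = S.ce) (o2 : (getS G S.nO).cd = S.ck) (o3 : (getS G S.nO).ce = S.cd)
    (bE : (getS G S.nE).bt = btE) (bO : (getS G S.nO).bt = btO)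
    (s6 : ∃ p yl yh, chkSt s a06 S p yl yh = true) (s7 : ∃ p yl yh, chkSt s a07 S p yl yh = true)
    (s8 : ∃ p yl yh, chkSt s a08 S p yl yh = true)
    (v : StarV s S.ck S.cd S.ce btE btO S.bt) : StarOK s G S where
  lE := lE
  lO := lO
  e1 := e1
  e2 := e2
  e3 := e3
  o1 := o1
  o2 := o2
  o3 := o3
  st6 := s6
  st7 := s7
  st8 := s8
  bx := by
    refine all_mono ?_ S.bt v
    intro x hx
    refine allL_mono ?_ _ hx
    intro t ht
    have : (nxt G S t.even).bt = sel t.even btE btO := by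
      cases t.even
      · exact bO
      · exact bE
    rw [this]
    exact ht

/-- all stars of the list -/
def AllS (P : StarD → Prop) : List StarD → Prop
  | [] => True
  | x :: l => P x ∧ AllS P l

theorem allS_get {P : StarD → Prop} : ∀ (l : List StarD), AllS P l →
    ∀ i, i < l.length → P (getS l i)
  | [], _, i, hi => by simp at hi
  | x :: l, h, 0, _ => h.1
  | x :: l, h, i + 1, hi => allS_get l h.2 i (by simpa using hi)

theorem grp_mk {sa sb : Nat} {G : List StarD} (h : AllS (StarOK (I.pos sa sb) G) G) :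
    GroupOK sa sb G := allS_get G h

theorem allS_c {P : StarD → Prop} {x : StarD} {l : List StarD} (h : P x) (h' : AllS P l) :
    AllS P (x :: l) := ⟨h, h'⟩
theorem allS_n {P : StarD → Prop} : AllS P [] := trivial

/-- the stars of the group are all orderings of the three classes -/
def GCov (G : List StarD) (A B C : ClassD) : Prop := ∀ X Y Z : ClassD,
  [X, Y, Z].Perm [A, B, C] → ∃ i, i < G.length ∧ (getS G i).ck = X ∧ (getS G i).cd = Y ∧
    (getS G i).ce = Z

def Has (G : List StarD) (A B C : ClassD) : Prop :=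
  ∃ i, i < G.length ∧ (getS G i).ck = A ∧ (getS G i).cd = B ∧ (getS G i).ce = C

theorem perm3 {α : Type} {X Y Z A B C : α} (h : [X, Y, Z].Perm [A, B, C]) :
    (X = A ∧ Y = B ∧ Z = C) ∨ (X = A ∧ Y = C ∧ Z = B) ∨ (X = B ∧ Y = A ∧ Z = C) ∨
    (X = B ∧ Y = C ∧ Z = A) ∨ (X = C ∧ Y = A ∧ Z = B) ∨ (X = C ∧ Y = B ∧ Z = A) := by
  have hX : X ∈ [A, B, C] := h.subset (by simp)
  have two : ∀ {U V : α}, [Y, Z].Perm [U, V] → (Y = U ∧ Z = V) ∨ (Y = V ∧ Z = U) := by
    intro U V h2
    have hY : Y ∈ [U, V] := h2.subset (by simp)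
    rcases List.mem_cons.1 hY with hY | hY
    · subst hY
      have := (List.perm_cons Y).1 h2
      exact Or.inl ⟨rfl, by simpa using this⟩
    · have hY : Y = V := by simpa using hY
      subst hY
      have h3 : [Y, Z].Perm [Y, U] := h2.trans (List.Perm.swap _ _ _)
      have := (List.perm_cons Y).1 h3
      exact Or.inr ⟨rfl, by simpa using this⟩
  rcases List.mem_cons.1 hX with hX | hX
  · subst hX
    rcases two ((List.perm_cons X).1 h) with h2 | h2
    · exact Or.inl ⟨rfl, h2⟩
    · exact Or.inr (Or.inl ⟨rfl, h2⟩)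
  rcases List.mem_cons.1 hX with hX | hX
  · subst hX
    have h3 : [X, Y, Z].Perm [X, A, C] := h.trans (List.Perm.swap _ _ _)
    rcases two ((List.perm_cons X).1 h3) with h2 | h2
    · exact Or.inr (Or.inr (Or.inl ⟨rfl, h2⟩))
    · exact Or.inr (Or.inr (Or.inr (Or.inl ⟨rfl, h2⟩)))
  · have hX : X = C := by simpa using hX
    subst hX
    have h3 : [X, Y, Z].Perm [X, A, B] :=
      h.trans (((List.Perm.swap _ _ _).cons A).trans (List.Perm.swap _ _ _))
    rcases two ((List.perm_cons X).1 h3) with h2 | h2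
    · exact Or.inr (Or.inr (Or.inr (Or.inr (Or.inl ⟨rfl, h2⟩))))
    · exact Or.inr (Or.inr (Or.inr (Or.inr (Or.inr ⟨rfl, h2⟩))))

theorem cov_mk {G : List StarD} {A B C : ClassD} (h1 : Has G A B C) (h2 : Has G A C B)
    (h3 : Has G B A C) (h4 : Has G B C A) (h5 : Has G C A B) (h6 : Has G C B A) : GCov G A B C := by
  intro X Y Z h
  rcases perm3 h with ⟨a, b, c⟩ | ⟨a, b, c⟩ | ⟨a, b, c⟩ | ⟨a, b, c⟩ | ⟨a, b, c⟩ | ⟨a, b, c⟩ <;>
    subst a b c <;> assumption

end Pool.Agent.Helper6.MONO
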