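import Pool.Agent.Helper41.MONO.ACT
import Pool.Agent.Helper27.MONO.ALT
import Pool.Agent.Helper33.MONO.BLKE
import Pool.Agent.Helper94.MONO.BLKO
import Pool.Agent.Helper81.MONO.BRD
import Pool.Agent.Helper26.MONO.CAR
import Pool.Agent.Helper48.MONO.CHN
import Pool.Agent.Helper9.MONO.CMO
import Pool.Agent.Helper58.MONO.CNJ
import Pool.Agent.Helper72.MONO.CUT
import Pool.Agent.Helper8.MONO.DER
import Pool.Agent.Helper46.MONO.EQE
import Pool.Agent.Helper55.MONO.EQO
import Pool.Agent.Helper27.MONO.EXI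
import Pool.Agent.Helper30.MONO.FLG
import Pool.Agent.Helper80.MONO.GRA
import Pool.Agent.Helper53.MONO.GRW
import Pool.Agent.Helper61.MONO.INV
import Pool.Agent.Helper92.MONO.KAP
import Pool.Agent.Helper52.MONO.MBC
import Pool.Agent.Helper9.MONO.NRI
import Pool.Agent.Helper2.MONO.NRM
import Pool.Agent.Helper48.MONO.PATH
import Pool.Agent.Helper28.MONO.PTH
import Pool.Agent.Helper24.MONO.RBF
import Pool.Agent.Helper95.MONO.RBT
import Pool.Agent.Helper55.MONO.REG
import Pool.Agent.Helper8.MONO.SPN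
import Pool.Agent.Helper20.MONO.STS
import Pool.Agent.Helper11.MONO.TGC
import Pool.Agent.Helper11.MONO.TGS
import Pool.Agent.Helper61.MONO.TL1
import Pool.Agent.Helper27.MONO.TL2
import Pool.Agent.Helper38.MONO.TL3
import Pool.Agent.Helper48.MONO.TLE
import Pool.Agent.Helper8.MONO.TRS
import Pool.Agent.Helper77.MONO.Y0
import Pool.Agent.Helper11.MONO.YD
import Pool.Agent.Helper6.MONO.Asm

/-!
Assembly, part 1: everything except the certificates.
-/

set_option autoImplicit false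
noncomputable section
namespace Pool.Agent.Helper6.MONO

theorem a_BRD : ST_BRD := st_BRD' st_ALT
theorem a_PATH : ST_PATH := st_PATH' a_BRD st_INV st_CUT st_FLG
theorem a_BLKE : ST_BLK true := st_BLKE st_ALT
theorem a_BLKO : ST_BLK false := st_BLKO st_ALT
theorem a_TLE : ST_TLE := st_TLE' st_TL1 (st_TL2 st_TL1) st_TL3

/-- region implies monotonicity up to constants -/
theorem a_MB (p q r : ℕ) (hp : 3 ≤ p) (hq : 3 ≤ q) (hr : 3 ≤ r) (s0 s1 : ℝ) (h0 : 0 ≤ s0)
    (h1 : s0 < s1) (h2 : s1 ≤ 2) (h : RegOK p q r s0 s1) : MB p q r s0 s1 :=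
  st_GRW st_NRI st_EQE st_EQO st_DER st_YD st_Y0 p q r hp hq hr s0 s1 h0 h1 h2 h

/-- monotonicity for all orders in the three classes, in any order -/
def MM (A B C : ClassD) (s0 s1 : ℝ) : Prop := ∀ X Y Z : ClassD, [X, Y, Z].Perm [A, B, C] →
  ∀ p q r : ℕ, 3 ≤ p → 3 ≤ q → 3 ≤ r → InC X p → InC Y q → InC Z r → MB p q r s0 s1

theorem perm_cls {X Y Z A B C : ClassD} (h : [X, Y, Z].Perm [A, B, C]) (hA : ClsOK A)
    (hB : ClsOK B) (hC : ClsOK C) : ClsOK X ∧ ClsOK Y ∧ ClsOK Z := by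
  rcases perm3 h with ⟨a, b, c⟩ | ⟨a, b, c⟩ | ⟨a, b, c⟩ | ⟨a, b, c⟩ | ⟨a, b, c⟩ | ⟨a, b, c⟩ <;>
    subst a b c <;> exact ⟨by assumption, by assumption, by assumption⟩

theorem grpMM {sa sb : ℕ} {G : List StarD} {A B C : ClassD} (hG : GroupOK sa sb G)
    (hc : GCov G A B C) (hA : ClsOK A) (hB : ClsOK B) (hC : ClsOK C) (h : sa < sb)
    (h2 : sb ≤ 536870912) : MM A B C ((sa : ℝ) / 268435456) ((sb : ℝ) / 268435456) := by
  intro X Y Z hp p q r h3 h4 h5 hX hY hZ
  obtain ⟨kX, kY, kZ⟩ := perm_cls hp hA hB hC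
  have cov : GroupCov G X Y Z := fun U V W hU => hc U V W (hU.trans hp)
  have reg := st_REG st_TRS st_TGS st_TGC st_STS st_RBF st_RBT sa sb G X Y Z hG cov kX kY kZ
    p q r h3 h4 h5 hX hY hZ
  have e1 : (sa : ℝ) < sb := by exact_mod_cast h
  have e2 : (sb : ℝ) ≤ 536870912 := by exact_mod_cast h2
  refine a_MB p q r h3 h4 h5 _ _ (by positivity) (by linarith) (by linarith) reg

theorem chMM {A B C : ClassD} {s0 s1 s1' s2 : ℝ} (h1 : MM A B C s0 s1) (h2 : MM A B C s1' s2)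
    (a : s0 ≤ s1') (b : s1' ≤ s1) (c : s1 ≤ s2) : MM A B C s0 s2 := by
  intro X Y Z hp p q r h3 h4 h5 hX hY hZ
  exact st_MBC p q r s0 s1 s1' s2 a b c (h1 X Y Z hp p q r h3 h4 h5 hX hY hZ)
    (h2 X Y Z hp p q r h3 h4 h5 hX hY hZ)

theorem nrm_nonneg' (f : V3 → V3) : 0 ≤ nrm f :=
  Finset.sum_nonneg fun _ _ => norm_nonneg _

theorem lin_le (f : E3) (x : V3) : ‖f x‖ ≤ ‖x‖ * nrm f := by
  have hx : x = ∑ i, x i • (Pi.single i 1 : V3) := by
    funext j
    simp [Finset.sum_apply, Pi.single_apply]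
  calc ‖f x‖ = ‖∑ i, x i • f (Pi.single i 1)‖ := by
        conv_lhs => rw [hx, map_sum]
        simp only [map_smul]
    _ ≤ ∑ i, ‖x i • f (Pi.single i 1)‖ := norm_sum_le _ _
    _ ≤ ∑ i, ‖x‖ * ‖f (Pi.single i 1)‖ := by
        refine Finset.sum_le_sum fun i _ => ?_
        rw [norm_smul]
        exact mul_le_mul_of_nonneg_right (norm_le_pi_norm x i) (norm_nonneg _)
    _ = ‖x‖ * nrm f := by rw [nrm, Finset.mul_sum]

/-- norms of conjugate maps are comparable -/
theorem nrm_conj (E : V3 ≃ₗ[ℂ] V3) : ∃ C : ℝ, 0 < C ∧ ∀ f F : E3, (∀ x, f (E x) = E (F x)) →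
    nrm f ≤ C * nrm F := by
  refine ⟨nrm E * nrm E.symm + 1, ?_, ?_⟩
  · have h1 := nrm_nonneg' E
    have h2 := nrm_nonneg' E.symm
    positivity
  · intro f F h
    have e1 : ∀ i : Fin 3, ‖f (Pi.single i 1)‖ ≤ nrm E * ‖E.symm (Pi.single i 1)‖ * nrm F := by
      intro i
      have a : f (Pi.single i 1) = E (F (E.symm (Pi.single i 1))) := by
        rw [← h, LinearEquiv.apply_symm_apply]
      rw [a]
      have b := lin_le (E : E3) (F (E.symm (Pi.single i 1)))
      have c := lin_le F (E.symm (Pi.single i 1))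
      have d := nrm_nonneg' E
      calc ‖E (F (E.symm (Pi.single i 1)))‖ ≤ ‖F (E.symm (Pi.single i 1))‖ * nrm E := b
        _ ≤ (‖E.symm (Pi.single i 1)‖ * nrm F) * nrm E := mul_le_mul_of_nonneg_right c d
        _ = _ := by ring
    calc nrm f ≤ ∑ i : Fin 3, nrm E * ‖E.symm (Pi.single i 1)‖ * nrm F :=
          Finset.sum_le_sum fun i _ => e1 i
      _ = nrm E * nrm E.symm * nrm F := by
          rw [← Finset.sum_mul, ← Finset.mul_sum]; rfl
      _ ≤ (nrm E * nrm E.symm + 1) * nrm F := by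
          have := nrm_nonneg' F
          nlinarith

/-- the coordinates as a linear isomorphism -/
theorem ecomb_equiv (e : Fin 3 → V3) (h : LinearIndependent ℂ e) :
    ∃ E : V3 ≃ₗ[ℂ] V3, ∀ x, E x = ecomb e x := by
  have hc : Fintype.card (Fin 3) = Module.finrank ℂ V3 := by simp
  let b := basisOfLinearIndependentOfCardEqFinrank h hc
  refine ⟨b.equivFun.symm, fun x => ?_⟩
  rw [Module.Basis.equivFun_symm_apply]
  simp [b, ecomb]

theorem act_app (e : Fin 3 → V3) (u v : List (Fin 3)) (x : V3) :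
    act e (u ++ v) x = act e u (act e v x) := by
  induction u with
  | nil => rfl
  | cons a u ih => simp only [List.cons_append, act, ih]

/-- powers of a word -/
def wpow (w : List (Fin 3)) : ℕ → List (Fin 3)
  | 0 => []
  | n + 1 => w ++ wpow w n

theorem act_pow (e : Fin 3 → V3) (w : List (Fin 3)) (g : E3) (hg : ∀ x, g x = act e w x) (n : ℕ)
    (x : V3) : (g ^ n : E3) x = act e (wpow w n) x := by
  induction n with
  | zero => simp [wpow, act]
  | succ n ih =>
    rw [pow_succ', wpow, act_app]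
    simp only [Module.End.mul_apply, ih, hg]

theorem tC_mono (p q r : ℕ) (hp : 4 ≤ p) (hq : 4 ≤ q) (hr : 4 ≤ r) :
    StrictMonoOn (tC (kk p q r 0 1) (kk p q r 1 2) (kk p q r 2 0)) (Set.Icc 0 1) := by
  have kb : ∀ M : ℕ, 4 ≤ M → Real.sqrt 2 ≤ Kp M ∧ Kp M < 2 := by
    intro M hM
    have hM' : (4 : ℝ) ≤ M := by exact_mod_cast hM
    have pp := Real.pi_pos
    constructor
    · have : Real.cos (Real.pi / 4) ≤ Real.cos (Real.pi / M) := by
        apply Real.cos_le_cos_of_nonneg_of_le_pi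
        · positivity
        · linarith
        · exact div_le_div_of_nonneg_left pp.le (by norm_num) hM'
      rw [Real.cos_pi_div_four] at this
      unfold Kp
      linarith
    · have : Real.cos (Real.pi / M) < 1 := by
        rw [← Real.cos_zero]
        apply Real.cos_lt_cos_of_nonneg_of_le_pi le_rfl
        · rw [div_le_iff₀ (by linarith)]
          nlinarith
        · positivity
      unfold Kp
      linarith
  have m1 : kk p q r 0 1 = Kp p := rfl
  have m2 : kk p q r 1 2 = Kp q := rfl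
  have m3 : kk p q r 2 0 = Kp r := rfl
  exact st_CMO (kk p q r 0 1) (kk p q r 1 2) (kk p q r 2 0)
    (by rw [m1]; exact (kb p hp).1) (by rw [m1]; exact (kb p hp).2)
    (by rw [m2]; exact (kb q hq).1) (by rw [m2]; exact (kb q hq).2)
    (by rw [m3]; exact (kb r hr).1) (by rw [m3]; exact (kb r hr).2)

theorem abs_tC (p q r : ℕ) (hp : 4 ≤ p) (hq : 4 ≤ q) (hr : 4 ≤ r) (x : ℝ) (hx : |x| ≤ 1) :
    |tC (kk p q r 0 1) (kk p q r 1 2) (kk p q r 2 0) x| =
      tC (kk p q r 0 1) (kk p q r 1 2) (kk p q r 2 0) |x| := by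
  have mono := tC_mono p q r hp hq hr
  set h' := kk p q r 0 1 with hh'
  set l' := kk p q r 1 2 with hl'
  set m' := kk p q r 2 0 with hm'
  have odd : ∀ x : ℝ, tC h' l' m' (-x) = -tC h' l' m' x := by
    intro x
    simp only [tC, mul_neg, Real.arctan_neg]
    ring
  have z : tC h' l' m' 0 = 0 := by simp [tC]
  have nn : 0 ≤ tC h' l' m' |x| := by
    rw [← z]
    exact mono.monotoneOn ⟨le_rfl, zero_le_one⟩ ⟨abs_nonneg x, hx⟩ (abs_nonneg x)
  rcases le_total 0 x with hx0 | hx0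
  · rw [abs_of_nonneg hx0] at nn ⊢
    exact abs_of_nonneg nn
  · rw [abs_of_nonpos hx0] at nn ⊢
    rw [odd] at nn ⊢
    exact abs_of_nonpos (by linarith)

/-- the comparison of translation lengths, given monotonicity up to constants -/
theorem a_main (p q r : ℕ) (hp : 4 ≤ p) (hq : 4 ≤ q) (hr : 4 ≤ r) (h : MB p q r 0 1)
    (e e' : Fin 3 → Fin 3 → ℂ) (he : IsTri p q r e) (he' : IsTri p q r e')
    (h0 : (trip e).re ≤ 0) (h0' : (trip e').re ≤ 0) (t t' : ℝ) (ht : IsCartan e t)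
    (ht' : IsCartan e' t') (htt : |t| ≤ |t'|) (w : List (Fin 3)) :
    tl (act e' w) ≤ tl (act e w) := by
  have p3 : 3 ≤ p := by omega
  have q3 : 3 ≤ q := by omega
  have r3 : 3 ≤ r := by omega
  obtain ⟨τ, hτ, G⟩ := st_GRA p q r p3 q3 r3 e he h0
  obtain ⟨τ', hτ', G'⟩ := st_GRA p q r p3 q3 r3 e' he' h0'
  have c := st_CAR p q r p3 q3 r3 e τ t he hτ G ht
  have c' := st_CAR p q r p3 q3 r3 e' τ' t' he' hτ' G' ht'
  have key : |τ| ≤ |τ'| := by
    rw [c, c', abs_tC p q r hp hq hr τ hτ, abs_tC p q r hp hq hr τ' hτ'] at htt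
    exact ((tC_mono p q r hp hq hr).le_iff_le ⟨abs_nonneg _, hτ⟩ ⟨abs_nonneg _, hτ'⟩).1 htt
  have sq : τ' ^ 2 ≤ 1 := by
    rw [← sq_abs]
    have := abs_nonneg τ'
    nlinarith
  obtain ⟨C, hC⟩ := st_NRM a_PATH st_PTH a_BLKE a_BLKO st_CHN st_SPN st_INV p q r p3 q3 r3 1
    le_rfl h τ τ' (gram e) (gram e') key sq G G'
  obtain ⟨g, hg, Pg⟩ := st_ACT e he.unit w
  obtain ⟨g', hg', Pg'⟩ := st_ACT e' he'.unit w
  have ht1 : tl (act e w) = tl g := by
    have : act e w = g := by funext x; exact (hg x).symm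
    rw [this]
  have ht2 : tl (act e' w) = tl g' := by
    have : act e' w = g' := by funext x; exact (hg' x).symm
    rw [this]
  rw [ht1, ht2]
  refine a_TLE g g' Pg Pg' ?_
  obtain ⟨E, hE⟩ := ecomb_equiv e he.indep
  obtain ⟨E', hE'⟩ := ecomb_equiv e' he'.indep
  obtain ⟨C1, hC1, k1⟩ := nrm_conj E.symm
  obtain ⟨C2, hC2, k2⟩ := nrm_conj E'
  refine ⟨C2 * |C| * C1, fun n => ?_⟩
  -- the maps in coordinates
  let F : E3 := (E.symm : E3) ∘ₗ (g ^ n : E3) ∘ₗ (E : E3)
  let F' : E3 := (E'.symm : E3) ∘ₗ (g' ^ n : E3) ∘ₗ (E' : E3)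
  have f1 : ∀ x, F x = gact (gram e) (wpow w n).reverse x := by
    intro x
    apply E.injective
    show E (E.symm ((g ^ n : E3) (E x))) = _
    rw [LinearEquiv.apply_symm_apply, act_pow e w g hg, hE, hE, st_CNJ e he.unit]
  have f2 : ∀ x, F' x = gact (gram e') (wpow w n).reverse x := by
    intro x
    apply E'.injective
    show E' (E'.symm ((g' ^ n : E3) (E' x))) = _
    rw [LinearEquiv.apply_symm_apply, act_pow e' w g' hg', hE', hE', st_CNJ e' he'.unit]
  have n1 : nrm (gact (gram e) (wpow w n).reverse) = nrm F := by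
    unfold nrm; simp only [f1]
  have n2 : nrm (gact (gram e') (wpow w n).reverse) = nrm F' := by
    unfold nrm; simp only [f2]
  have a1 : nrm F ≤ C1 * nrm (g ^ n : E3) := by
    apply k1
    intro x
    show E.symm ((g ^ n : E3) (E (E.symm x))) = _
    rw [LinearEquiv.apply_symm_apply]
  have a2 : nrm (g' ^ n : E3) ≤ C2 * nrm F' := by
    apply k2
    intro x
    show (g' ^ n : E3) (E' x) = E' (E'.symm ((g' ^ n : E3) (E' x)))
    rw [LinearEquiv.apply_symm_apply]
  have a3 := hC (wpow w n).reverse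
  rw [n1, n2] at a3
  have p1 := nrm_nonneg' F
  have p2 := nrm_nonneg' (g ^ n : E3)
  have p3' : C * nrm F ≤ |C| * nrm F := mul_le_mul_of_nonneg_right (le_abs_self C) p1
  calc nrm (g' ^ n : E3) ≤ C2 * nrm F' := a2
    _ ≤ C2 * (|C| * nrm F) := mul_le_mul_of_nonneg_left (a3.trans p3') hC2.le
    _ ≤ C2 * (|C| * (C1 * nrm (g ^ n : E3))) := by
        have := abs_nonneg C
        gcongr
    _ = C2 * |C| * C1 * nrm (g ^ n : E3) := by ring

end Pool.Agent.Helper6.MONO
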