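import Pool.Agent.Helper6.MONO.Chk

/-!
The classes of orders and abbreviations used by the certificate files.
-/

set_option autoImplicit false
noncomputable section
namespace Pool.Agent.Helper6.MONO

/-- the classes of the certificate: 4, 5, 6, 7..8, 9..12, at least 13 -/
def cl4 : ClassD := ClassD.mk 4 4 false CT.c4 (I.pos (nat_lit 379624106) (nat_lit 379626790))
def cl5 : ClassD := ClassD.mk 5 5 false CT.c5 (I.pos (nat_lit 434336620) (nat_lit 434339305))
def cl6 : ClassD := ClassD.mk 6 6 false CT.g (I.pos (nat_lit 464943631) (nat_lit 464946315))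
def cl7 : ClassD := ClassD.mk 7 8 false CT.g (I.pos (nat_lit 483693848) (nat_lit 496015035))
def cl9 : ClassD := ClassD.mk 9 12 false CT.g (I.pos (nat_lit 504470752) (nat_lit 518590457))
def cl13 : ClassD := ClassD.mk 13 13 true CT.g (I.pos (nat_lit 521167437) (nat_lit 536870912))

def xa (x y : Tr) : Tr := Tr.N Co.a x y
def xb (x y : Tr) : Tr := Tr.N Co.b x y
def xc (x y : Tr) : Tr := Tr.N Co.be x y
def xR (x y : Tr) : Tr := Tr.N Co.R x y
def xs (x y : Tr) : Tr := Tr.N Co.s x y
def xk (x y : Tr) : Tr := Tr.N Co.k x y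
def xd (x y : Tr) : Tr := Tr.N Co.hd x y
def xe (x y : Tr) : Tr := Tr.N Co.he x y

/-- the tag number `n` of the list -/
def tgn (l : List Tag) (n : Nat) : Tag := l.getD n (tg true true false RT.r2)
def tgs (ct : CT) (v : Bool) (n : Nat) : Tag := tgn (tags ct v) n

end Pool.Agent.Helper6.MONO
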