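import Pool.Agent.Helper32.MONO.Ivl

/-!
Working definitions: Coxeter data, the numbers game, words and blocks, the chart at a star,
the real recursion.
-/

set_option autoImplicit false
noncomputable section
namespace Pool.Agent.Helper6.MONO

/-! ### Coxeter data -/

/-- the Coxeter matrix -/
def mm (p q r : ℕ) (i j : Fin 3) : ℕ := !![1, p, r; p, 1, q; r, q, 1] i j

/-- `κ = 2 cos (π / M)` -/
def Kp (M : ℕ) : ℝ := 2 * Real.cos (Real.pi / M)

def kk (p q r : ℕ) (i j : Fin 3) : ℝ := Kp (mm p q r i j)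

/-- pairwise distinct -/
def Dist (c d e : Fin 3) : Prop := c ≠ d ∧ d ≠ e ∧ e ≠ c

/-! ### the numbers game -/

/-- the reflection number `i` in coordinates with respect to the polar vectors;
`G i j = -2 <e i, e j>` -/
def fire (G : Fin 3 → Fin 3 → ℂ) (i : Fin 3) (x : Fin 3 → ℂ) : Fin 3 → ℂ :=
  fun k => if k = i then -x i + ∑ j, (if j = i then 0 else G j i * x j) else x k

/-- the letters of the word act in the order of the list -/
def gact (G : Fin 3 → Fin 3 → ℂ) (w : List (Fin 3)) (x : Fin 3 → ℂ) : Fin 3 → ℂ :=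
  w.foldl (fun y i => fire G i y) x

/-- Gram data of a configuration with phase `(1 + iτ)/(1 - iτ)` -/
structure IsG (p q r : ℕ) (τ : ℝ) (G : Fin 3 → Fin 3 → ℂ) : Prop where
  herm : ∀ i j, G j i = star (G i j)
  nrm : ∀ i j, i ≠ j → ‖G i j‖ = kk p q r i j
  tri : G 0 1 * G 1 2 * G 2 0 = (kk p q r 0 1 * kk p q r 1 2 * kk p q r 2 0 : ℝ) *
    ((1 + τ * Complex.I) / (1 - τ * Complex.I))

/-- same action for all configurations -/
def Eqv (p q r : ℕ) (u v : List (Fin 3)) : Prop :=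
  ∀ (τ : ℝ) (G : Fin 3 → Fin 3 → ℂ), IsG p q r τ G → ∀ x, gact G u x = gact G v x

/-- the form in these coordinates -/
def QG (G : Fin 3 → Fin 3 → ℂ) (x : Fin 3 → ℂ) : ℂ :=
  (∑ i, x i * star (x i)) - (1 / 2) * ∑ i, ∑ j, (if i = j then 0 else G i j * x i * star (x j))

/-! ### words and blocks -/

/-- `i, j, i, ...` (`n` letters) -/
def alt (i j : Fin 3) : ℕ → List (Fin 3)
  | 0 => []
  | n + 1 => i :: alt j i n

/-- parity of the index -/
def ev2 (m : ℕ) : Bool := decide (m % 2 = 0)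

/-- block of sign `ε` and index `m` at the star `c; d, e`: `m` letters `d, e, ...` if `ε`,
`m - 1` letters `e, d, ...` otherwise -/
def blk (d e : Fin 3) (ε : Bool) (m : ℕ) : List (Fin 3) :=
  if ε then alt d e m else alt e d (m - 1)

/-- the next star: last letter, letter before it, pivot of the old star -/
def nx (ev : Bool) (c d e : Fin 3) : Fin 3 × Fin 3 × Fin 3 := if ev then (e, d, c) else (d, e, c)

/-- the word of a list of blocks -/
def bw : (Fin 3 × Fin 3 × Fin 3) → List (Bool × ℕ) → List (Fin 3)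
  | _, [] => []
  | (c, d, e), (ε, m) :: bs => blk d e ε m ++ bw (nx (ev2 m) c d e) bs

/-- which blocks may follow (`M` the order of the pair, `v` the flag) -/
def allowed (M : ℕ) (v ε : Bool) (m : ℕ) : Prop :=
  (ε = true ∧ v = false ∧ 2 ≤ m ∧ m ≤ M) ∨ (ε = false ∧ v = false ∧ 3 ≤ m ∧ m ≤ M + 1) ∨
    (ε = false ∧ v = true ∧ 3 ≤ m ∧ m ≤ M)

/-- the flag after the block -/
def vnext (M : ℕ) (v ε : Bool) (m : ℕ) : Bool :=
  decide ((ε = true ∧ m = M) ∨ (ε = false ∧ v = false ∧ m = M + 1) ∨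
    (ε = false ∧ v = true ∧ m = M))

/-- admissible list of blocks from the star `c; d, e` with flag `v` -/
def okPath (p q r : ℕ) : Bool → (Fin 3 × Fin 3 × Fin 3) → List (Bool × ℕ) → Prop
  | _, _, [] => True
  | v, (c, d, e), (ε, m) :: bs => allowed (mm p q r d e) v ε m ∧
      okPath p q r (vnext (mm p q r d e) v ε m) (nx (ev2 m) c d e) bs

/-! ### real parameters -/

/-- `g = 1/(2(1+λ))`, `λ = 2 he/(k hd)` -/
def gP (k hd he : ℝ) : ℝ := 1 / (2 * (1 + 2 * he * (1 / (k * hd))))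
def b0P (k hd he : ℝ) : ℝ := 4 * gP k hd he - 1
def SbP (k : ℝ) : ℝ := (2 - k) * (2 + k) * (1 / (k * k))
def etaP (k hd he : ℝ) : ℝ := 4 * gP k hd he * (1 / k) + 2 * gP k hd he - 1
def zetP (k hd he : ℝ) : ℝ := 4 * gP k hd he * (1 / k) - 2 * gP k hd he + 1
def qP (k R : ℝ) : ℝ := k * k * (R * R) * (1 / (4 * (2 + k)))
/-- `c'/c` -/
def crP (ev : Bool) (k hd he : ℝ) : ℝ := if ev then 1 else 1 + (1 / 2) * (2 - k) * etaP k hd he
def CrP (ev : Bool) (k hd he R : ℝ) : ℝ :=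
  if ev then 0 else etaP k hd he * ((1 / 4) * (2 - k) + qP k R)
def CiP (ev : Bool) (k hd he R : ℝ) : ℝ :=
  if ev then b0P k hd he
  else (1 / 4) * (2 + k) * etaP k hd he + qP k R * zetP k hd he

/-- `R-bar = tan φ cot (m φ / 2)`, `φ = π / M` -/
def Rb (M m : ℕ) : ℝ :=
  Real.tan (Real.pi / M) * (Real.cos (m * (Real.pi / M) / 2) / Real.sin (m * (Real.pi / M) / 2))

/-! ### the real recursion (values) -/

/-- value state: `u = a + ι b`, `y = yr + ι be` -/
structure RV where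
  a : ℝ
  b : ℝ
  be : ℝ
  yr : ℝ

/-- everything in the frame conjugated for `ε = false` -/
def vXr (s : ℝ) (ε : Bool) (z : RV) : ℝ := rsg ε (z.a - s * z.b)
def vXi (z : RV) : ℝ := z.a + z.b
def vYr (s : ℝ) (z : RV) : ℝ := (1 + s) * z.yr
def vYi (s : ℝ) (ε : Bool) (z : RV) : ℝ := (1 + s) * rsg ε z.be
def vDr (s : ℝ) (ε ev : Bool) (z : RV) (k hd he R : ℝ) : ℝ :=
  1 + 2 * (R * gP k hd he) * vXr s ε z
    + ((R * R) - SbP k) * (gP k hd he * gP k hd he) * vYr s z + CrP ev k hd he R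
def vDi (s : ℝ) (ε ev : Bool) (z : RV) (k hd he R : ℝ) : ℝ :=
  2 * (R * gP k hd he) * vXi z
    + ((R * R) - SbP k) * (gP k hd he * gP k hd he) * vYi s ε z + rsg ε (CiP ev k hd he R)
def vNr (s : ℝ) (ε : Bool) (z : RV) (k hd he R : ℝ) : ℝ :=
  R + ((R * R) - SbP k) * gP k hd he * vXr s ε z
    - 2 * (SbP k * R * (gP k hd he * gP k hd he)) * vYr s z
def vNi (s : ℝ) (ε : Bool) (z : RV) (k hd he R : ℝ) : ℝ :=
  R * rsg ε (b0P k hd he) + ((R * R) - SbP k) * gP k hd he * vXi z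
    - 2 * (SbP k * R * (gP k hd he * gP k hd he)) * vYi s ε z
/-- `|D|²` -/
def vn (s : ℝ) (ε ev : Bool) (z : RV) (k hd he R : ℝ) : ℝ :=
  vDr s ε ev z k hd he R * vDr s ε ev z k hd he R
    + s * (vDi s ε ev z k hd he R * vDi s ε ev z k hd he R)
/-- true if the imaginary parts are to be negated at the end -/
def cjP (ε ev : Bool) : Bool := ev == ε
/-- real and imaginary part of `N / D` -/
def vwr (s : ℝ) (ε ev : Bool) (z : RV) (k hd he R : ℝ) : ℝ :=
  (vNr s ε z k hd he R * vDr s ε ev z k hd he R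
    + s * (vNi s ε z k hd he R * vDi s ε ev z k hd he R)) / vn s ε ev z k hd he R
def vwi (s : ℝ) (ε ev : Bool) (z : RV) (k hd he R : ℝ) : ℝ :=
  (vNi s ε z k hd he R * vDr s ε ev z k hd he R
    - vNr s ε z k hd he R * vDi s ε ev z k hd he R) / vn s ε ev z k hd he R
def yfP (ev : Bool) (k hd he R : ℝ) : ℝ := crP ev k hd he * (R * R + SbP k)

/-- the block step on values -/
def vstep (s : ℝ) (ε ev : Bool) (z : RV) (k hd he R : ℝ) : RV where
  a := vwr s ε ev z k hd he R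
  b := rsg (!(cjP ε ev)) (vwi s ε ev z k hd he R)
  be := rsg (!(cjP ε ev)) (-(yfP ev k hd he R * vDi s ε ev z k hd he R / vn s ε ev z k hd he R))
  yr := yfP ev k hd he R * vDr s ε ev z k hd he R / vn s ε ev z k hd he R

/-- the null relation -/
def NR (s k hd he : ℝ) (z : RV) : Prop :=
  z.yr = z.a * z.a + s * (z.b * z.b) + SbP hd
    + SbP k * (gP k hd he * gP k hd he) * (1 + s) * (z.yr * z.yr + s * (z.be * z.be))
    - s * (b0P k hd he * z.be)

/-- `|ξ'/ξ|²` -/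
def fac (s : ℝ) (ε ev : Bool) (z : RV) (k hd he R : ℝ) : ℝ :=
  hd * hd * vn s ε ev z k hd he R /
    (k * k * (gP k hd he * gP k hd he) * (1 + s) * ((R * R + SbP k) * (R * R + SbP k)))

/-! ### the path recursion -/

def stepV (p q r : ℕ) (s : ℝ) (c d e : Fin 3) (ε : Bool) (m : ℕ) (z : RV) : RV :=
  vstep s ε (ev2 m) z (kk p q r d e) (kk p q r c d) (kk p q r c e) (Rb (mm p q r d e) m)
def stepF (p q r : ℕ) (s : ℝ) (c d e : Fin 3) (ε : Bool) (m : ℕ) (z : RV) : ℝ :=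
  fac s ε (ev2 m) z (kk p q r d e) (kk p q r c d) (kk p q r c e) (Rb (mm p q r d e) m)
def stepN (p q r : ℕ) (s : ℝ) (c d e : Fin 3) (ε : Bool) (m : ℕ) (z : RV) : ℝ :=
  vn s ε (ev2 m) z (kk p q r d e) (kk p q r c d) (kk p q r c e) (Rb (mm p q r d e) m)

/-- final value state along a list of blocks -/
def zP (p q r : ℕ) (s : ℝ) : (Fin 3 × Fin 3 × Fin 3) → RV → List (Bool × ℕ) → RV
  | _, z, [] => z
  | (c, d, e), z, (ε, m) :: bs =>
      zP p q r s (nx (ev2 m) c d e) (stepV p q r s c d e ε m z) bs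
/-- product of the factors -/
def fP (p q r : ℕ) (s : ℝ) : (Fin 3 × Fin 3 × Fin 3) → RV → List (Bool × ℕ) → ℝ
  | _, _, [] => 1
  | (c, d, e), z, (ε, m) :: bs => stepF p q r s c d e ε m z *
      fP p q r s (nx (ev2 m) c d e) (stepV p q r s c d e ε m z) bs
/-- no denominator vanishes along the path -/
def nP (p q r : ℕ) (s : ℝ) : (Fin 3 × Fin 3 × Fin 3) → RV → List (Bool × ℕ) → Prop
  | _, _, [] => True
  | (c, d, e), z, (ε, m) :: bs => stepN p q r s c d e ε m z ≠ 0 ∧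
      nP p q r s (nx (ev2 m) c d e) (stepV p q r s c d e ε m z) bs
/-- final star -/
def sP : (Fin 3 × Fin 3 × Fin 3) → List (Bool × ℕ) → (Fin 3 × Fin 3 × Fin 3)
  | t, [] => t
  | (c, d, e), (_, m) :: bs => sP (nx (ev2 m) c d e) bs

/-! ### the start -/

def Kst (s k hd he : ℝ) : ℝ := SbP k * (gP k hd he * gP k hd he) * (1 + s)
/-- small root of `A + K y² - y` -/
def y0 (s k hd he a0 : ℝ) : ℝ :=
  2 * (a0 * a0 + SbP hd) / (1 + Real.sqrt (1 - 4 * Kst s k hd he * (a0 * a0 + SbP hd)))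
def z0 (s k hd he a0 : ℝ) : RV := ⟨a0, 0, 0, y0 s k hd he a0⟩
def zst (p q r : ℕ) (s : ℝ) (t : Fin 3 × Fin 3 × Fin 3) (a0 : ℝ) : RV :=
  z0 s (kk p q r t.2.1 t.2.2) (kk p q r t.1 t.2.1) (kk p q r t.1 t.2.2) a0
/-- the three start values -/
def isA0 (a0 : ℝ) : Prop := a0 = 3 / 5 ∨ a0 = 7 / 10 ∨ a0 = 4 / 5

/-! ### the chart -/

/-- orientation sign of the star -/
def sgs (c d : Fin 3) : ℝ := if d = c + 1 then 1 else -1
/-- `ι` of the star -/
def iot (τ : ℝ) (c d : Fin 3) : ℂ := ((sgs c d * τ : ℝ) : ℂ) * Complex.I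
/-- `c = k hd / 2 + he` -/
def cP (k hd he : ℝ) : ℝ := k * hd / 2 + he

/-- the vector `x` has pivot value `ξ` and chart coordinates `z` at the star `c; d, e` -/
structure Ch (p q r : ℕ) (τ : ℝ) (G : Fin 3 → Fin 3 → ℂ) (t : Fin 3 × Fin 3 × Fin 3)
    (x : Fin 3 → ℂ) (ξ : ℂ) (z : RV) : Prop where
  piv : x t.1 = ξ
  hu : -(2 * x t.2.1 - G t.2.2 t.2.1 * x t.2.2 - G t.1 t.2.1 * ξ) * G t.2.1 t.1 =
    ((kk p q r t.1 t.2.1) ^ 2 : ℝ) * ξ * (z.a + iot τ t.1 t.2.1 * z.b)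
  hy : ((4 * cP (kk p q r t.2.1 t.2.2) (kk p q r t.1 t.2.1) (kk p q r t.1 t.2.2) : ℝ) : ℂ) *
    G t.2.2 t.1 * x t.2.2 =
    ((kk p q r t.1 t.2.2 * (kk p q r t.1 t.2.1) ^ 2 : ℝ) : ℂ) * ξ * (1 + iot τ t.1 t.2.1) *
      (z.yr + iot τ t.1 t.2.1 * z.be)

/-- a norm for maps -/
def nrm (f : (Fin 3 → ℂ) → (Fin 3 → ℂ)) : ℝ := ∑ i, ‖f (Pi.single i 1)‖

/-- the equation `alt.eq_def`, made here once -/
theorem eqn_alt_eq_def : True := by
  have h := @alt.eq_def
  trivial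

/-- the equation `bw.eq_def`, made here once -/
theorem eqn_bw_eq_def : True := by
  have h := @bw.eq_def
  trivial

/-- the equation `fP.eq_def`, made here once -/
theorem eqn_fP_eq_def : True := by
  have h := @fP.eq_def
  trivial

end Pool.Agent.Helper6.MONO
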