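import Pool.Agent.Helper6.MONO.Real
import Pool.Agent.Helper6.MONO.Core

/-!
Explicit derivative formulas along a path; `'` means `(1+s) d/ds` of the real components.
-/

set_option autoImplicit false
noncomputable section
namespace Pool.Agent.Helper6.MONO

/-- value part of a state -/
def RSt.val (z : RSt) : RV := ⟨z.a, z.b, z.be, z.yr⟩

/-- derivative of `yr` from the null relation -/
def ydP (s k hd he : ℝ) (z : RSt) : ℝ :=
  (2 * (z.a * z.ad + s * (z.b * z.bd)) + (1 + s) * (z.b * z.b)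
    + SbP k * (gP k hd he * gP k hd he) * (1 + s) *
      (z.yr * z.yr + s * (z.be * z.be) + 2 * s * (z.be * z.bed) + (1 + s) * (z.be * z.be))
    - b0P k hd he * ((1 + s) * z.be + s * z.bed)) /
  (1 - 2 * (SbP k * (gP k hd he * gP k hd he)) * (1 + s) * z.yr)

def dXr (s : ℝ) (ε : Bool) (z : RSt) : ℝ := rsg ε (z.ad - s * z.bd - (1 + s) * z.b)
def dXi (z : RSt) : ℝ := z.ad + z.bd
def dYr (s : ℝ) (z : RSt) (yd : ℝ) : ℝ := (1 + s) * (z.yr + yd)
def dYi (s : ℝ) (ε : Bool) (z : RSt) : ℝ := (1 + s) * rsg ε (z.be + z.bed)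

def dDr (s : ℝ) (ε : Bool) (z : RSt) (k hd he R yd : ℝ) : ℝ :=
  2 * (R * gP k hd he) * dXr s ε z
    + ((R * R) - SbP k) * (gP k hd he * gP k hd he) * dYr s z yd
def dDi (s : ℝ) (ε : Bool) (z : RSt) (k hd he R : ℝ) : ℝ :=
  2 * (R * gP k hd he) * dXi z
    + ((R * R) - SbP k) * (gP k hd he * gP k hd he) * dYi s ε z
def dNr (s : ℝ) (ε : Bool) (z : RSt) (k hd he R yd : ℝ) : ℝ :=
  ((R * R) - SbP k) * gP k hd he * dXr s ε z
    - 2 * (SbP k * R * (gP k hd he * gP k hd he)) * dYr s z yd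
def dNi (s : ℝ) (ε : Bool) (z : RSt) (k hd he R : ℝ) : ℝ :=
  ((R * R) - SbP k) * gP k hd he * dXi z
    - 2 * (SbP k * R * (gP k hd he * gP k hd he)) * dYi s ε z
/-- `|D|²'` -/
def dn (s : ℝ) (ε ev : Bool) (z : RSt) (k hd he R yd : ℝ) : ℝ :=
  2 * (vDr s ε ev z.val k hd he R * dDr s ε z k hd he R yd
    + s * (vDi s ε ev z.val k hd he R * dDi s ε z k hd he R))
    + (1 + s) * (vDi s ε ev z.val k hd he R * vDi s ε ev z.val k hd he R)
/-- `w_r'` -/
def dwr (s : ℝ) (ε ev : Bool) (z : RSt) (k hd he R yd : ℝ) : ℝ :=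
  ((dNr s ε z k hd he R yd * vDr s ε ev z.val k hd he R
      + vNr s ε z.val k hd he R * dDr s ε z k hd he R yd
      + s * (dNi s ε z k hd he R * vDi s ε ev z.val k hd he R
        + vNi s ε z.val k hd he R * dDi s ε z k hd he R)
      + (1 + s) * (vNi s ε z.val k hd he R * vDi s ε ev z.val k hd he R))
    - vwr s ε ev z.val k hd he R * dn s ε ev z k hd he R yd) / vn s ε ev z.val k hd he R
/-- `w_i'` -/
def dwi (s : ℝ) (ε ev : Bool) (z : RSt) (k hd he R yd : ℝ) : ℝ :=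
  ((dNi s ε z k hd he R * vDr s ε ev z.val k hd he R
      + vNi s ε z.val k hd he R * dDr s ε z k hd he R yd
      - dNr s ε z k hd he R yd * vDi s ε ev z.val k hd he R
      - vNr s ε z.val k hd he R * dDi s ε z k hd he R)
    - vwi s ε ev z.val k hd he R * dn s ε ev z k hd he R yd) / vn s ε ev z.val k hd he R
/-- `(yf Im (1/D))'` -/
def dyi (s : ℝ) (ε ev : Bool) (z : RSt) (k hd he R yd : ℝ) : ℝ :=
  -(yfP ev k hd he R * (dDi s ε z k hd he R
    - vDi s ε ev z.val k hd he R * dn s ε ev z k hd he R yd / vn s ε ev z.val k hd he R)) /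
    vn s ε ev z.val k hd he R
/-- `(yf Re (1/D))'` -/
def dyr (s : ℝ) (ε ev : Bool) (z : RSt) (k hd he R yd : ℝ) : ℝ :=
  (yfP ev k hd he R * (dDr s ε z k hd he R yd
    - vDr s ε ev z.val k hd he R * dn s ε ev z k hd he R yd / vn s ε ev z.val k hd he R)) /
    vn s ε ev z.val k hd he R
/-- `(log |ξ'/ξ|²)'` -/
def dL (s : ℝ) (ε ev : Bool) (z : RSt) (k hd he R yd : ℝ) : ℝ :=
  dn s ε ev z k hd he R yd / vn s ε ev z.val k hd he R - 1

end Pool.Agent.Helper6.MONO
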