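import Pool.Agent.Helper8.MONO.TRS2
import Pool.Agent.Helper76.MONO.TGS2
import Pool.Agent.Helper48.MONO.REG2
import Pool.Agent.Helper78.MONO.GRW2
import Pool.Agent.Helper25.MONO.MBC2
import Pool.Agent.Helper48.MONO.NRM2
import Pool.Agent.Helper48.MONO.TLE2
import Pool.Agent.Helper35.MONO.DSP2
import Pool.Agent.Helper6.MONO.Fin1

/-!
Assembly of the quantitative version, part 1: everything except the certificates.
-/

set_option autoImplicit false
noncomputable section
namespace Pool.Agent.Helper6.MONO.S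

/-- region implies monotonicity up to constants -/
theorem a_MB (p q r : ℕ) (hp : 3 ≤ p) (hq : 3 ≤ q) (hr : 3 ≤ r) (s0 s1 dl : ℝ) (h0 : 0 ≤ s0)
    (h1 : s0 < s1) (h2 : s1 ≤ 2) (hd : 0 < dl) (h : RegOK p q r s0 s1 dl) : MB p q r s0 s1 :=
  st_GRW st_NRI st_EQE st_EQO st_DER st_YD st_Y0 p q r hp hq hr s0 s1 dl h0 h1 h2 hd h

/-- monotonicity for all orders in the three classes, in any order -/
def MM (A B C : ClassD) (s0 s1 : ℝ) : Prop := ∀ X Y Z : ClassD, [X, Y, Z].Perm [A, B, C] →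
  ∀ p q r : ℕ, 3 ≤ p → 3 ≤ q → 3 ≤ r → InC X p → InC Y q → InC Z r → MB p q r s0 s1

theorem grpMM {sa sb : ℕ} {G : List StarD} {A B C : ClassD} (hG : GroupOK sa sb G)
    (hc : GCov G A B C) (hA : ClsOK A) (hB : ClsOK B) (hC : ClsOK C) (h : sa < sb)
    (h2 : sb ≤ 536870912) : MM A B C ((sa : ℝ) / 268435456) ((sb : ℝ) / 268435456) := by
  intro X Y Z hp p q r h3 h4 h5 hX hY hZ
  obtain ⟨kX, kY, kZ⟩ := perm_cls hp hA hB hC
  have cov : GroupCov G X Y Z := fun U V W hU => hc U V W (hU.trans hp)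
  have reg := st_REG st_TRS st_TGS st_TGC st_STS st_RBF st_RBT sa sb G X Y Z hG cov kX kY kZ
    p q r h3 h4 h5 hX hY hZ
  have e1 : (sa : ℝ) < sb := by exact_mod_cast h
  have e2 : (sb : ℝ) ≤ 536870912 := by exact_mod_cast h2
  exact a_MB p q r h3 h4 h5 _ _ _ (by positivity) (by linarith) (by linarith) (by norm_num) reg

theorem chMM {A B C : ClassD} {s0 s1 s1' s2 : ℝ} (h1 : MM A B C s0 s1) (h2 : MM A B C s1' s2)
    (a : s0 ≤ s1') (b : s1' ≤ s1) (c : s1 ≤ s2) : MM A B C s0 s2 := by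
  intro X Y Z hp p q r h3 h4 h5 hX hY hZ
  exact st_MBC p q r s0 s1 s1' s2 a b c (h1 X Y Z hp p q r h3 h4 h5 hX hY hZ)
    (h2 X Y Z hp p q r h3 h4 h5 hX hY hZ)

/-- the quantitative bound implies the first one -/
theorem MB_weak {p q r : ℕ} {s0 s1 : ℝ} (h : MB p q r s0 s1) :
    Pool.Agent.Helper6.MONO.MB p q r s0 s1 := by
  obtain ⟨C, dl, hC, hdl, h⟩ := h
  refine ⟨C, hC, fun c d e hD a0 ha bs hb s h1 h2 => ?_⟩
  obtain ⟨a1, a2, a3, a4, a5, a6, a7, a8, a9⟩ := h c d e hD a0 ha bs hb s h1 h2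
  refine ⟨a1, a2, a3, a4, a5, a6, a7, a8, fun s' h3 h4 => (a9 s' h3 h4).trans ?_⟩
  have : Real.exp (-(dl * (s' - s) * bs.length)) ≤ 1 := by
    apply Real.exp_le_one_iff.2
    have : 0 ≤ dl * (s' - s) * bs.length := by
      have := sub_nonneg.2 h3
      positivity
    linarith
  nlinarith [mul_nonneg hC.le a3, mul_le_mul_of_nonneg_left this hC.le]

theorem act_nil_inv (e : Fin 3 → V3) (he : LinearIndependent ℂ e)
    (hu : ∀ i, hf (e i) (e i) = 1) (u v : List (Fin 3))
    (h : ∀ x, gact (gram e) u x = gact (gram e) v x) (x : V3) :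
    act e u.reverse x = act e v.reverse x := by
  obtain ⟨E, hE⟩ := ecomb_equiv e he
  have hx : x = ecomb e (E.symm x) := by rw [← hE, LinearEquiv.apply_symm_apply]
  rw [hx, st_CNJ e hu, st_CNJ e hu, List.reverse_reverse, List.reverse_reverse, h]

/-- uniform contraction of the length spectrum -/
theorem a_strict (p q r : ℕ) (hp : 4 ≤ p) (hq : 4 ≤ q) (hr : 4 ≤ r) (h : MB p q r 0 1)
    (e e' : Fin 3 → Fin 3 → ℂ) (he : IsTri p q r e) (he' : IsTri p q r e')
    (h0 : (trip e).re ≤ 0) (h0' : (trip e').re ≤ 0) (t t' : ℝ) (ht : IsCartan e t)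
    (ht' : IsCartan e' t') (htt : |t| < |t'|) :
    ∃ c : ℝ, 0 < c ∧ c < 1 ∧ ∀ w : List (Fin 3), tl (act e' w) ≤ c * tl (act e w) := by
  have p3 : 3 ≤ p := by omega
  have q3 : 3 ≤ q := by omega
  have r3 : 3 ≤ r := by omega
  obtain ⟨τ, hτ, G⟩ := st_GRA p q r p3 q3 r3 e he h0
  obtain ⟨τ', hτ', G'⟩ := st_GRA p q r p3 q3 r3 e' he' h0'
  have c := st_CAR p q r p3 q3 r3 e τ t he hτ G ht
  have c' := st_CAR p q r p3 q3 r3 e' τ' t' he' hτ' G' ht'
  have key : |τ| < |τ'| := by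
    rw [c, c', abs_tC p q r hp hq hr τ hτ, abs_tC p q r hp hq hr τ' hτ'] at htt
    exact ((tC_mono p q r hp hq hr).lt_iff_lt ⟨abs_nonneg _, hτ⟩ ⟨abs_nonneg _, hτ'⟩).1 htt
  have sq : τ' ^ 2 ≤ 1 := by
    rw [← sq_abs]
    have := abs_nonneg τ'
    nlinarith
  obtain ⟨C, dl, hdl, hC⟩ := st_NRM a_PATH st_PTH a_BLKE a_BLKO st_CHN st_SPN st_INV p q r
    p3 q3 r3 1 le_rfl h τ τ' (gram e) (gram e') key sq G G'
  obtain ⟨D, hD, dsp⟩ := st_DSP st_TL1 (st_TL2 st_TL1) e he.unit
  obtain ⟨E, hE⟩ := ecomb_equiv e he.indep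
  obtain ⟨E', hE'⟩ := ecomb_equiv e' he'.indep
  obtain ⟨C1, hC1, k1⟩ := nrm_conj E.symm
  obtain ⟨C2, hC2, k2⟩ := nrm_conj E'
  refine ⟨max (1 - 2 * (dl / D)) (1 / 2), ?_, ?_, fun w => ?_⟩
  · exact lt_max_of_lt_right (by norm_num)
  · refine max_lt ?_ (by norm_num)
    have : 0 < dl / D := by positivity
    linarith
  obtain ⟨g, hg, Pg⟩ := st_ACT e he.unit w
  obtain ⟨g', hg', Pg'⟩ := st_ACT e' he'.unit w
  have ht1 : tl (act e w) = tl g := by
    have : act e w = g := by funext x; exact (hg x).symm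
    rw [this]
  have ht2 : tl (act e' w) = tl g' := by
    have : act e' w = g' := by funext x; exact (hg' x).symm
    rw [this]
  rw [ht1, ht2]
  have T0 : 0 ≤ tl g := by
    apply Real.sInf_nonneg
    rintro t ⟨x, hx, rfl⟩
    exact tle_nonneg st_TL1 hx (tle_neg Pg hx)
  have main : tl g' ≤ tl g - 2 * (dl / D * tl g) := by
    refine st_TLE st_TL1 (st_TL2 st_TL1) st_TL3 g g' Pg Pg' _ (by positivity) ?_
    refine ⟨C2 * |C| * C1, fun k => ?_⟩
    -- the maps in coordinates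
    let n : ℕ := 2 ^ k
    let F : E3 := (E.symm : E3) ∘ₗ (g ^ n : E3) ∘ₗ (E : E3)
    let F' : E3 := (E'.symm : E3) ∘ₗ (g' ^ n : E3) ∘ₗ (E' : E3)
    have f1 : ∀ x, F x = gact (gram e) (wpow w n).reverse x := by
      intro x
      apply E.injective
      show E (E.symm ((g ^ n : E3) (E x))) = _
      rw [LinearEquiv.apply_symm_apply, act_pow e w g hg, hE, hE, st_CNJ e he.unit]
    have f2 : ∀ x, F' x = gact (gram e') (wpow w n).reverse x := by
      intro x
      apply E'.injective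
      show E' (E'.symm ((g' ^ n : E3) (E' x))) = _
      rw [LinearEquiv.apply_symm_apply, act_pow e' w g' hg', hE', hE', st_CNJ e' he'.unit]
    have n1 : nrm (gact (gram e) (wpow w n).reverse) = nrm F := by
      unfold nrm; simp only [f1]
    have n2 : nrm (gact (gram e') (wpow w n).reverse) = nrm F' := by
      unfold nrm; simp only [f2]
    have a1 : nrm F ≤ C1 * nrm (g ^ n : E3) := by
      apply k1
      intro x
      show E.symm ((g ^ n : E3) (E (E.symm x))) = _
      rw [LinearEquiv.apply_symm_apply]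
    have a2 : nrm (g' ^ n : E3) ≤ C2 * nrm F' := by
      apply k2
      intro x
      show (g' ^ n : E3) (E' x) = E' (E'.symm ((g' ^ n : E3) (E' x)))
      rw [LinearEquiv.apply_symm_apply]
    have a3 := hC (wpow w n).reverse
    rw [n1, n2] at a3
    -- word length
    set μ := mlen p q r (wpow w n).reverse with hμ
    have hne : {m | ∃ v, Eqv p q r (wpow w n).reverse v ∧ v.length = m}.Nonempty :=
      ⟨_, (wpow w n).reverse, fun _ _ _ _ => rfl, rfl⟩
    obtain ⟨v, hv, hvl⟩ : ∃ v, Eqv p q r (wpow w n).reverse v ∧ v.length = μ := Nat.sInf_mem hne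
    have d1 : 2 ^ k * tl g ≤ D * v.reverse.length := by
      refine dsp g Pg k v.reverse fun x => ?_
      have := act_nil_inv e he.indep he.unit _ _ (hv τ (gram e) G) x
      rw [List.reverse_reverse] at this
      rw [← this]
      exact act_pow e w g hg n x
    rw [List.length_reverse, hvl] at d1
    have ex : Real.exp (-(dl * μ)) ≤ Real.exp (-(dl / D * tl g * 2 ^ k)) := by
      apply Real.exp_le_exp.2
      have : dl / D * tl g * 2 ^ k ≤ dl * μ := by
        have h1 : dl / D * tl g * 2 ^ k = dl / D * (2 ^ k * tl g) := by ring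
        rw [h1]
        calc dl / D * (2 ^ k * tl g) ≤ dl / D * (D * μ) := by
              apply mul_le_mul_of_nonneg_left d1
              positivity
          _ = dl * μ := by field_simp
      linarith
    have p1 := nrm_nonneg' F
    have p2 := nrm_nonneg' (g ^ n : E3)
    have p3'' : nrm F' ≤ |C| * Real.exp (-(dl / D * tl g * 2 ^ k)) * nrm F := by
      refine a3.trans ?_
      apply mul_le_mul_of_nonneg_right _ p1
      calc C * Real.exp (-(dl * μ)) ≤ |C| * Real.exp (-(dl * μ)) :=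
            mul_le_mul_of_nonneg_right (le_abs_self C) (Real.exp_pos _).le
        _ ≤ _ := mul_le_mul_of_nonneg_left ex (abs_nonneg C)
    calc nrm (g' ^ n : E3) ≤ C2 * nrm F' := a2
      _ ≤ C2 * (|C| * Real.exp (-(dl / D * tl g * 2 ^ k)) * nrm F) :=
          mul_le_mul_of_nonneg_left p3'' hC2.le
      _ ≤ C2 * (|C| * Real.exp (-(dl / D * tl g * 2 ^ k)) * (C1 * nrm (g ^ n : E3))) := by
          have := abs_nonneg C
          have := (Real.exp_pos (-(dl / D * tl g * 2 ^ k))).le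
          gcongr
      _ = C2 * |C| * C1 * Real.exp (-(dl / D * tl g * 2 ^ k)) * nrm (g ^ n : E3) := by ring
  calc tl g' ≤ (1 - 2 * (dl / D)) * tl g := by linarith
    _ ≤ max (1 - 2 * (dl / D)) (1 / 2) * tl g :=
        mul_le_mul_of_nonneg_right (le_max_left _ _) T0

end Pool.Agent.Helper6.MONO.S
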