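import Pool.Agent.Helper6.MONO.Fin1S
import Pool.Agent.Helper6.MONO.Fin2

/-!
Assembly of the quantitative version, part 2 (generated).
-/

set_option autoImplicit false
noncomputable section
namespace Pool.Agent.Helper6.MONO.S

theorem m_111_0 : MM cl4 cl4 cl4 (((0 : ℕ) : ℝ) / 268435456) (((91291648 : ℕ) : ℝ) / 268435456) :=
  grpMM Q111_0.ok Q111_0.cov ok4 ok4 ok4 (by norm_num) (by norm_num)
theorem m_111_1 : MM cl4 cl4 cl4 (((91226112 : ℕ) : ℝ) / 268435456) (((150339584 : ℕ) : ℝ) / 268435456) :=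
  grpMM Q111_1.ok Q111_1.cov ok4 ok4 ok4 (by norm_num) (by norm_num)
theorem m_111_c1 : MM cl4 cl4 cl4 (((0 : ℕ) : ℝ) / 268435456) (((150339584 : ℕ) : ℝ) / 268435456) :=
  chMM m_111_0 m_111_1 (by norm_num) (by norm_num) (by norm_num)
theorem m_111_2 : MM cl4 cl4 cl4 (((150274048 : ℕ) : ℝ) / 268435456) (((179896320 : ℕ) : ℝ) / 268435456) :=
  grpMM Q111_2.ok Q111_2.cov ok4 ok4 ok4 (by norm_num) (by norm_num)
theorem m_111_c2 : MM cl4 cl4 cl4 (((0 : ℕ) : ℝ) / 268435456) (((179896320 : ℕ) : ℝ) / 268435456) :=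
  chMM m_111_c1 m_111_2 (by norm_num) (by norm_num) (by norm_num)
theorem m_111_3 : MM cl4 cl4 cl4 (((179830784 : ℕ) : ℝ) / 268435456) (((209387520 : ℕ) : ℝ) / 268435456) :=
  grpMM Q111_3.ok Q111_3.cov ok4 ok4 ok4 (by norm_num) (by norm_num)
theorem m_111_c3 : MM cl4 cl4 cl4 (((0 : ℕ) : ℝ) / 268435456) (((209387520 : ℕ) : ℝ) / 268435456) :=
  chMM m_111_c2 m_111_3 (by norm_num) (by norm_num) (by norm_num)
theorem m_111_4 : MM cl4 cl4 cl4 (((209321984 : ℕ) : ℝ) / 268435456) (((225509376 : ℕ) : ℝ) / 268435456) :=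
  grpMM Q111_4.ok Q111_4.cov ok4 ok4 ok4 (by norm_num) (by norm_num)
theorem m_111_c4 : MM cl4 cl4 cl4 (((0 : ℕ) : ℝ) / 268435456) (((225509376 : ℕ) : ℝ) / 268435456) :=
  chMM m_111_c3 m_111_4 (by norm_num) (by norm_num) (by norm_num)
theorem m_111_5 : MM cl4 cl4 cl4 (((225443840 : ℕ) : ℝ) / 268435456) (((241631232 : ℕ) : ℝ) / 268435456) :=
  grpMM Q111_5.ok Q111_5.cov ok4 ok4 ok4 (by norm_num) (by norm_num)
theorem m_111_c5 : MM cl4 cl4 cl4 (((0 : ℕ) : ℝ) / 268435456) (((241631232 : ℕ) : ℝ) / 268435456) :=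
  chMM m_111_c4 m_111_5 (by norm_num) (by norm_num) (by norm_num)
theorem m_111_6 : MM cl4 cl4 cl4 (((241565696 : ℕ) : ℝ) / 268435456) (((255066112 : ℕ) : ℝ) / 268435456) :=
  grpMM Q111_6.ok Q111_6.cov ok4 ok4 ok4 (by norm_num) (by norm_num)
theorem m_111_c6 : MM cl4 cl4 cl4 (((0 : ℕ) : ℝ) / 268435456) (((255066112 : ℕ) : ℝ) / 268435456) :=
  chMM m_111_c5 m_111_6 (by norm_num) (by norm_num) (by norm_num)
theorem m_111_7 : MM cl4 cl4 cl4 (((255000576 : ℕ) : ℝ) / 268435456) (((261750784 : ℕ) : ℝ) / 268435456) :=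
  grpMM Q111_7.ok Q111_7.cov ok4 ok4 ok4 (by norm_num) (by norm_num)
theorem m_111_c7 : MM cl4 cl4 cl4 (((0 : ℕ) : ℝ) / 268435456) (((261750784 : ℕ) : ℝ) / 268435456) :=
  chMM m_111_c6 m_111_7 (by norm_num) (by norm_num) (by norm_num)
theorem m_111_8 : MM cl4 cl4 cl4 (((261685248 : ℕ) : ℝ) / 268435456) (((265224192 : ℕ) : ℝ) / 268435456) :=
  grpMM Q111_8.ok Q111_8.cov ok4 ok4 ok4 (by norm_num) (by norm_num)
theorem m_111_c8 : MM cl4 cl4 cl4 (((0 : ℕ) : ℝ) / 268435456) (((265224192 : ℕ) : ℝ) / 268435456) :=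
  chMM m_111_c7 m_111_8 (by norm_num) (by norm_num) (by norm_num)
theorem m_111_9 : MM cl4 cl4 cl4 (((265027584 : ℕ) : ℝ) / 268435456) (((268435456 : ℕ) : ℝ) / 268435456) :=
  grpMM Q111_9.ok Q111_9.cov ok4 ok4 ok4 (by norm_num) (by norm_num)
theorem m_111_c9 : MM cl4 cl4 cl4 (((0 : ℕ) : ℝ) / 268435456) (((268435456 : ℕ) : ℝ) / 268435456) :=
  chMM m_111_c8 m_111_9 (by norm_num) (by norm_num) (by norm_num)
theorem m_111 : MM cl4 cl4 cl4 0 1 := by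
  have h := m_111_c9
  norm_num at h
  exact h
theorem m_112_0 : MM cl4 cl4 cl5 (((0 : ℕ) : ℝ) / 268435456) (((91291648 : ℕ) : ℝ) / 268435456) :=
  grpMM Q112_0.ok Q112_0.cov ok4 ok4 ok5 (by norm_num) (by norm_num)
theorem m_112_1 : MM cl4 cl4 cl5 (((91226112 : ℕ) : ℝ) / 268435456) (((150339584 : ℕ) : ℝ) / 268435456) :=
  grpMM Q112_1.ok Q112_1.cov ok4 ok4 ok5 (by norm_num) (by norm_num)
theorem m_112_c1 : MM cl4 cl4 cl5 (((0 : ℕ) : ℝ) / 268435456) (((150339584 : ℕ) : ℝ) / 268435456) :=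
  chMM m_112_0 m_112_1 (by norm_num) (by norm_num) (by norm_num)
theorem m_112_2 : MM cl4 cl4 cl5 (((150274048 : ℕ) : ℝ) / 268435456) (((209387520 : ℕ) : ℝ) / 268435456) :=
  grpMM Q112_2.ok Q112_2.cov ok4 ok4 ok5 (by norm_num) (by norm_num)
theorem m_112_c2 : MM cl4 cl4 cl5 (((0 : ℕ) : ℝ) / 268435456) (((209387520 : ℕ) : ℝ) / 268435456) :=
  chMM m_112_c1 m_112_2 (by norm_num) (by norm_num) (by norm_num)
theorem m_112_3 : MM cl4 cl4 cl5 (((209321984 : ℕ) : ℝ) / 268435456) (((238944256 : ℕ) : ℝ) / 268435456) :=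
  grpMM Q112_3.ok Q112_3.cov ok4 ok4 ok5 (by norm_num) (by norm_num)
theorem m_112_c3 : MM cl4 cl4 cl5 (((0 : ℕ) : ℝ) / 268435456) (((238944256 : ℕ) : ℝ) / 268435456) :=
  chMM m_112_c2 m_112_3 (by norm_num) (by norm_num) (by norm_num)
theorem m_112_4 : MM cl4 cl4 cl5 (((238878720 : ℕ) : ℝ) / 268435456) (((268435456 : ℕ) : ℝ) / 268435456) :=
  grpMM Q112_4.ok Q112_4.cov ok4 ok4 ok5 (by norm_num) (by norm_num)
theorem m_112_c4 : MM cl4 cl4 cl5 (((0 : ℕ) : ℝ) / 268435456) (((268435456 : ℕ) : ℝ) / 268435456) :=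
  chMM m_112_c3 m_112_4 (by norm_num) (by norm_num) (by norm_num)
theorem m_112 : MM cl4 cl4 cl5 0 1 := by
  have h := m_112_c4
  norm_num at h
  exact h
theorem m_113_0 : MM cl4 cl4 cl6 (((0 : ℕ) : ℝ) / 268435456) (((91291648 : ℕ) : ℝ) / 268435456) :=
  grpMM Q113_0.ok Q113_0.cov ok4 ok4 ok6 (by norm_num) (by norm_num)
theorem m_113_1 : MM cl4 cl4 cl6 (((91226112 : ℕ) : ℝ) / 268435456) (((150339584 : ℕ) : ℝ) / 268435456) :=
  grpMM Q113_1.ok Q113_1.cov ok4 ok4 ok6 (by norm_num) (by norm_num)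
theorem m_113_c1 : MM cl4 cl4 cl6 (((0 : ℕ) : ℝ) / 268435456) (((150339584 : ℕ) : ℝ) / 268435456) :=
  chMM m_113_0 m_113_1 (by norm_num) (by norm_num) (by norm_num)
theorem m_113_2 : MM cl4 cl4 cl6 (((150274048 : ℕ) : ℝ) / 268435456) (((209387520 : ℕ) : ℝ) / 268435456) :=
  grpMM Q113_2.ok Q113_2.cov ok4 ok4 ok6 (by norm_num) (by norm_num)
theorem m_113_c2 : MM cl4 cl4 cl6 (((0 : ℕ) : ℝ) / 268435456) (((209387520 : ℕ) : ℝ) / 268435456) :=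
  chMM m_113_c1 m_113_2 (by norm_num) (by norm_num) (by norm_num)
theorem m_113_3 : MM cl4 cl4 cl6 (((209321984 : ℕ) : ℝ) / 268435456) (((238944256 : ℕ) : ℝ) / 268435456) :=
  grpMM Q113_3.ok Q113_3.cov ok4 ok4 ok6 (by norm_num) (by norm_num)
theorem m_113_c3 : MM cl4 cl4 cl6 (((0 : ℕ) : ℝ) / 268435456) (((238944256 : ℕ) : ℝ) / 268435456) :=
  chMM m_113_c2 m_113_3 (by norm_num) (by norm_num) (by norm_num)
theorem m_113_4 : MM cl4 cl4 cl6 (((238878720 : ℕ) : ℝ) / 268435456) (((268435456 : ℕ) : ℝ) / 268435456) :=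
  grpMM Q113_4.ok Q113_4.cov ok4 ok4 ok6 (by norm_num) (by norm_num)
theorem m_113_c4 : MM cl4 cl4 cl6 (((0 : ℕ) : ℝ) / 268435456) (((268435456 : ℕ) : ℝ) / 268435456) :=
  chMM m_113_c3 m_113_4 (by norm_num) (by norm_num) (by norm_num)
theorem m_113 : MM cl4 cl4 cl6 0 1 := by
  have h := m_113_c4
  norm_num at h
  exact h
theorem m_114_0 : MM cl4 cl4 cl7 (((0 : ℕ) : ℝ) / 268435456) (((91291648 : ℕ) : ℝ) / 268435456) :=
  grpMM Q114_0.ok Q114_0.cov ok4 ok4 ok7 (by norm_num) (by norm_num)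
theorem m_114_1 : MM cl4 cl4 cl7 (((91226112 : ℕ) : ℝ) / 268435456) (((150339584 : ℕ) : ℝ) / 268435456) :=
  grpMM Q114_1.ok Q114_1.cov ok4 ok4 ok7 (by norm_num) (by norm_num)
theorem m_114_c1 : MM cl4 cl4 cl7 (((0 : ℕ) : ℝ) / 268435456) (((150339584 : ℕ) : ℝ) / 268435456) :=
  chMM m_114_0 m_114_1 (by norm_num) (by norm_num) (by norm_num)
theorem m_114_2 : MM cl4 cl4 cl7 (((150274048 : ℕ) : ℝ) / 268435456) (((209387520 : ℕ) : ℝ) / 268435456) :=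
  grpMM Q114_2.ok Q114_2.cov ok4 ok4 ok7 (by norm_num) (by norm_num)
theorem m_114_c2 : MM cl4 cl4 cl7 (((0 : ℕ) : ℝ) / 268435456) (((209387520 : ℕ) : ℝ) / 268435456) :=
  chMM m_114_c1 m_114_2 (by norm_num) (by norm_num) (by norm_num)
theorem m_114_3 : MM cl4 cl4 cl7 (((209321984 : ℕ) : ℝ) / 268435456) (((238944256 : ℕ) : ℝ) / 268435456) :=
  grpMM Q114_3.ok Q114_3.cov ok4 ok4 ok7 (by norm_num) (by norm_num)
theorem m_114_c3 : MM cl4 cl4 cl7 (((0 : ℕ) : ℝ) / 268435456) (((238944256 : ℕ) : ℝ) / 268435456) :=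
  chMM m_114_c2 m_114_3 (by norm_num) (by norm_num) (by norm_num)
theorem m_114_4 : MM cl4 cl4 cl7 (((238878720 : ℕ) : ℝ) / 268435456) (((268435456 : ℕ) : ℝ) / 268435456) :=
  grpMM Q114_4.ok Q114_4.cov ok4 ok4 ok7 (by norm_num) (by norm_num)
theorem m_114_c4 : MM cl4 cl4 cl7 (((0 : ℕ) : ℝ) / 268435456) (((268435456 : ℕ) : ℝ) / 268435456) :=
  chMM m_114_c3 m_114_4 (by norm_num) (by norm_num) (by norm_num)
theorem m_114 : MM cl4 cl4 cl7 0 1 := by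
  have h := m_114_c4
  norm_num at h
  exact h
theorem m_115_0 : MM cl4 cl4 cl9 (((0 : ℕ) : ℝ) / 268435456) (((91291648 : ℕ) : ℝ) / 268435456) :=
  grpMM Q115_0.ok Q115_0.cov ok4 ok4 ok9 (by norm_num) (by norm_num)
theorem m_115_1 : MM cl4 cl4 cl9 (((91226112 : ℕ) : ℝ) / 268435456) (((150339584 : ℕ) : ℝ) / 268435456) :=
  grpMM Q115_1.ok Q115_1.cov ok4 ok4 ok9 (by norm_num) (by norm_num)
theorem m_115_c1 : MM cl4 cl4 cl9 (((0 : ℕ) : ℝ) / 268435456) (((150339584 : ℕ) : ℝ) / 268435456) :=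
  chMM m_115_0 m_115_1 (by norm_num) (by norm_num) (by norm_num)
theorem m_115_2 : MM cl4 cl4 cl9 (((150274048 : ℕ) : ℝ) / 268435456) (((209387520 : ℕ) : ℝ) / 268435456) :=
  grpMM Q115_2.ok Q115_2.cov ok4 ok4 ok9 (by norm_num) (by norm_num)
theorem m_115_c2 : MM cl4 cl4 cl9 (((0 : ℕ) : ℝ) / 268435456) (((209387520 : ℕ) : ℝ) / 268435456) :=
  chMM m_115_c1 m_115_2 (by norm_num) (by norm_num) (by norm_num)
theorem m_115_3 : MM cl4 cl4 cl9 (((209321984 : ℕ) : ℝ) / 268435456) (((238944256 : ℕ) : ℝ) / 268435456) :=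
  grpMM Q115_3.ok Q115_3.cov ok4 ok4 ok9 (by norm_num) (by norm_num)
theorem m_115_c3 : MM cl4 cl4 cl9 (((0 : ℕ) : ℝ) / 268435456) (((238944256 : ℕ) : ℝ) / 268435456) :=
  chMM m_115_c2 m_115_3 (by norm_num) (by norm_num) (by norm_num)
theorem m_115_4 : MM cl4 cl4 cl9 (((238878720 : ℕ) : ℝ) / 268435456) (((268435456 : ℕ) : ℝ) / 268435456) :=
  grpMM Q115_4.ok Q115_4.cov ok4 ok4 ok9 (by norm_num) (by norm_num)
theorem m_115_c4 : MM cl4 cl4 cl9 (((0 : ℕ) : ℝ) / 268435456) (((268435456 : ℕ) : ℝ) / 268435456) :=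
  chMM m_115_c3 m_115_4 (by norm_num) (by norm_num) (by norm_num)
theorem m_115 : MM cl4 cl4 cl9 0 1 := by
  have h := m_115_c4
  norm_num at h
  exact h
theorem m_116_0 : MM cl4 cl4 cl13 (((0 : ℕ) : ℝ) / 268435456) (((91291648 : ℕ) : ℝ) / 268435456) :=
  grpMM Q116_0.ok Q116_0.cov ok4 ok4 ok13 (by norm_num) (by norm_num)
theorem m_116_1 : MM cl4 cl4 cl13 (((91226112 : ℕ) : ℝ) / 268435456) (((150339584 : ℕ) : ℝ) / 268435456) :=
  grpMM Q116_1.ok Q116_1.cov ok4 ok4 ok13 (by norm_num) (by norm_num)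
theorem m_116_c1 : MM cl4 cl4 cl13 (((0 : ℕ) : ℝ) / 268435456) (((150339584 : ℕ) : ℝ) / 268435456) :=
  chMM m_116_0 m_116_1 (by norm_num) (by norm_num) (by norm_num)
theorem m_116_2 : MM cl4 cl4 cl13 (((150274048 : ℕ) : ℝ) / 268435456) (((209387520 : ℕ) : ℝ) / 268435456) :=
  grpMM Q116_2.ok Q116_2.cov ok4 ok4 ok13 (by norm_num) (by norm_num)
theorem m_116_c2 : MM cl4 cl4 cl13 (((0 : ℕ) : ℝ) / 268435456) (((209387520 : ℕ) : ℝ) / 268435456) :=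
  chMM m_116_c1 m_116_2 (by norm_num) (by norm_num) (by norm_num)
theorem m_116_3 : MM cl4 cl4 cl13 (((209321984 : ℕ) : ℝ) / 268435456) (((238944256 : ℕ) : ℝ) / 268435456) :=
  grpMM Q116_3.ok Q116_3.cov ok4 ok4 ok13 (by norm_num) (by norm_num)
theorem m_116_c3 : MM cl4 cl4 cl13 (((0 : ℕ) : ℝ) / 268435456) (((238944256 : ℕ) : ℝ) / 268435456) :=
  chMM m_116_c2 m_116_3 (by norm_num) (by norm_num) (by norm_num)
theorem m_116_4 : MM cl4 cl4 cl13 (((238878720 : ℕ) : ℝ) / 268435456) (((268435456 : ℕ) : ℝ) / 268435456) :=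
  grpMM Q116_4.ok Q116_4.cov ok4 ok4 ok13 (by norm_num) (by norm_num)
theorem m_116_c4 : MM cl4 cl4 cl13 (((0 : ℕ) : ℝ) / 268435456) (((268435456 : ℕ) : ℝ) / 268435456) :=
  chMM m_116_c3 m_116_4 (by norm_num) (by norm_num) (by norm_num)
theorem m_116 : MM cl4 cl4 cl13 0 1 := by
  have h := m_116_c4
  norm_num at h
  exact h
theorem m_122_0 : MM cl4 cl5 cl5 (((0 : ℕ) : ℝ) / 268435456) (((91291648 : ℕ) : ℝ) / 268435456) :=
  grpMM Q122_0.ok Q122_0.cov ok4 ok5 ok5 (by norm_num) (by norm_num)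
theorem m_122_1 : MM cl4 cl5 cl5 (((91226112 : ℕ) : ℝ) / 268435456) (((150339584 : ℕ) : ℝ) / 268435456) :=
  grpMM Q122_1.ok Q122_1.cov ok4 ok5 ok5 (by norm_num) (by norm_num)
theorem m_122_c1 : MM cl4 cl5 cl5 (((0 : ℕ) : ℝ) / 268435456) (((150339584 : ℕ) : ℝ) / 268435456) :=
  chMM m_122_0 m_122_1 (by norm_num) (by norm_num) (by norm_num)
theorem m_122_2 : MM cl4 cl5 cl5 (((150274048 : ℕ) : ℝ) / 268435456) (((209387520 : ℕ) : ℝ) / 268435456) :=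
  grpMM Q122_2.ok Q122_2.cov ok4 ok5 ok5 (by norm_num) (by norm_num)
theorem m_122_c2 : MM cl4 cl5 cl5 (((0 : ℕ) : ℝ) / 268435456) (((209387520 : ℕ) : ℝ) / 268435456) :=
  chMM m_122_c1 m_122_2 (by norm_num) (by norm_num) (by norm_num)
theorem m_122_3 : MM cl4 cl5 cl5 (((209321984 : ℕ) : ℝ) / 268435456) (((268435456 : ℕ) : ℝ) / 268435456) :=
  grpMM Q122_3.ok Q122_3.cov ok4 ok5 ok5 (by norm_num) (by norm_num)
theorem m_122_c3 : MM cl4 cl5 cl5 (((0 : ℕ) : ℝ) / 268435456) (((268435456 : ℕ) : ℝ) / 268435456) :=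
  chMM m_122_c2 m_122_3 (by norm_num) (by norm_num) (by norm_num)
theorem m_122 : MM cl4 cl5 cl5 0 1 := by
  have h := m_122_c3
  norm_num at h
  exact h
theorem m_123_0 : MM cl4 cl5 cl6 (((0 : ℕ) : ℝ) / 268435456) (((91291648 : ℕ) : ℝ) / 268435456) :=
  grpMM Q123_0.ok Q123_0.cov ok4 ok5 ok6 (by norm_num) (by norm_num)
theorem m_123_1 : MM cl4 cl5 cl6 (((91226112 : ℕ) : ℝ) / 268435456) (((150339584 : ℕ) : ℝ) / 268435456) :=
  grpMM Q123_1.ok Q123_1.cov ok4 ok5 ok6 (by norm_num) (by norm_num)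
theorem m_123_c1 : MM cl4 cl5 cl6 (((0 : ℕ) : ℝ) / 268435456) (((150339584 : ℕ) : ℝ) / 268435456) :=
  chMM m_123_0 m_123_1 (by norm_num) (by norm_num) (by norm_num)
theorem m_123_2 : MM cl4 cl5 cl6 (((150274048 : ℕ) : ℝ) / 268435456) (((209387520 : ℕ) : ℝ) / 268435456) :=
  grpMM Q123_2.ok Q123_2.cov ok4 ok5 ok6 (by norm_num) (by norm_num)
theorem m_123_c2 : MM cl4 cl5 cl6 (((0 : ℕ) : ℝ) / 268435456) (((209387520 : ℕ) : ℝ) / 268435456) :=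
  chMM m_123_c1 m_123_2 (by norm_num) (by norm_num) (by norm_num)
theorem m_123_3 : MM cl4 cl5 cl6 (((209321984 : ℕ) : ℝ) / 268435456) (((268435456 : ℕ) : ℝ) / 268435456) :=
  grpMM Q123_3.ok Q123_3.cov ok4 ok5 ok6 (by norm_num) (by norm_num)
theorem m_123_c3 : MM cl4 cl5 cl6 (((0 : ℕ) : ℝ) / 268435456) (((268435456 : ℕ) : ℝ) / 268435456) :=
  chMM m_123_c2 m_123_3 (by norm_num) (by norm_num) (by norm_num)
theorem m_123 : MM cl4 cl5 cl6 0 1 := by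
  have h := m_123_c3
  norm_num at h
  exact h
theorem m_124_0 : MM cl4 cl5 cl7 (((0 : ℕ) : ℝ) / 268435456) (((91291648 : ℕ) : ℝ) / 268435456) :=
  grpMM Q124_0.ok Q124_0.cov ok4 ok5 ok7 (by norm_num) (by norm_num)
theorem m_124_1 : MM cl4 cl5 cl7 (((91226112 : ℕ) : ℝ) / 268435456) (((150339584 : ℕ) : ℝ) / 268435456) :=
  grpMM Q124_1.ok Q124_1.cov ok4 ok5 ok7 (by norm_num) (by norm_num)
theorem m_124_c1 : MM cl4 cl5 cl7 (((0 : ℕ) : ℝ) / 268435456) (((150339584 : ℕ) : ℝ) / 268435456) :=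
  chMM m_124_0 m_124_1 (by norm_num) (by norm_num) (by norm_num)
theorem m_124_2 : MM cl4 cl5 cl7 (((150274048 : ℕ) : ℝ) / 268435456) (((209387520 : ℕ) : ℝ) / 268435456) :=
  grpMM Q124_2.ok Q124_2.cov ok4 ok5 ok7 (by norm_num) (by norm_num)
theorem m_124_c2 : MM cl4 cl5 cl7 (((0 : ℕ) : ℝ) / 268435456) (((209387520 : ℕ) : ℝ) / 268435456) :=
  chMM m_124_c1 m_124_2 (by norm_num) (by norm_num) (by norm_num)
theorem m_124_3 : MM cl4 cl5 cl7 (((209321984 : ℕ) : ℝ) / 268435456) (((238944256 : ℕ) : ℝ) / 268435456) :=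
  grpMM Q124_3.ok Q124_3.cov ok4 ok5 ok7 (by norm_num) (by norm_num)
theorem m_124_c3 : MM cl4 cl5 cl7 (((0 : ℕ) : ℝ) / 268435456) (((238944256 : ℕ) : ℝ) / 268435456) :=
  chMM m_124_c2 m_124_3 (by norm_num) (by norm_num) (by norm_num)
theorem m_124_4 : MM cl4 cl5 cl7 (((238878720 : ℕ) : ℝ) / 268435456) (((268435456 : ℕ) : ℝ) / 268435456) :=
  grpMM Q124_4.ok Q124_4.cov ok4 ok5 ok7 (by norm_num) (by norm_num)
theorem m_124_c4 : MM cl4 cl5 cl7 (((0 : ℕ) : ℝ) / 268435456) (((268435456 : ℕ) : ℝ) / 268435456) :=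
  chMM m_124_c3 m_124_4 (by norm_num) (by norm_num) (by norm_num)
theorem m_124 : MM cl4 cl5 cl7 0 1 := by
  have h := m_124_c4
  norm_num at h
  exact h
theorem m_125_0 : MM cl4 cl5 cl9 (((0 : ℕ) : ℝ) / 268435456) (((91291648 : ℕ) : ℝ) / 268435456) :=
  grpMM Q125_0.ok Q125_0.cov ok4 ok5 ok9 (by norm_num) (by norm_num)
theorem m_125_1 : MM cl4 cl5 cl9 (((91226112 : ℕ) : ℝ) / 268435456) (((150339584 : ℕ) : ℝ) / 268435456) :=
  grpMM Q125_1.ok Q125_1.cov ok4 ok5 ok9 (by norm_num) (by norm_num)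
theorem m_125_c1 : MM cl4 cl5 cl9 (((0 : ℕ) : ℝ) / 268435456) (((150339584 : ℕ) : ℝ) / 268435456) :=
  chMM m_125_0 m_125_1 (by norm_num) (by norm_num) (by norm_num)
theorem m_125_2 : MM cl4 cl5 cl9 (((150274048 : ℕ) : ℝ) / 268435456) (((209387520 : ℕ) : ℝ) / 268435456) :=
  grpMM Q125_2.ok Q125_2.cov ok4 ok5 ok9 (by norm_num) (by norm_num)
theorem m_125_c2 : MM cl4 cl5 cl9 (((0 : ℕ) : ℝ) / 268435456) (((209387520 : ℕ) : ℝ) / 268435456) :=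
  chMM m_125_c1 m_125_2 (by norm_num) (by norm_num) (by norm_num)
theorem m_125_3 : MM cl4 cl5 cl9 (((209321984 : ℕ) : ℝ) / 268435456) (((268435456 : ℕ) : ℝ) / 268435456) :=
  grpMM Q125_3.ok Q125_3.cov ok4 ok5 ok9 (by norm_num) (by norm_num)
theorem m_125_c3 : MM cl4 cl5 cl9 (((0 : ℕ) : ℝ) / 268435456) (((268435456 : ℕ) : ℝ) / 268435456) :=
  chMM m_125_c2 m_125_3 (by norm_num) (by norm_num) (by norm_num)
theorem m_125 : MM cl4 cl5 cl9 0 1 := by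
  have h := m_125_c3
  norm_num at h
  exact h
theorem m_126_0 : MM cl4 cl5 cl13 (((0 : ℕ) : ℝ) / 268435456) (((91291648 : ℕ) : ℝ) / 268435456) :=
  grpMM Q126_0.ok Q126_0.cov ok4 ok5 ok13 (by norm_num) (by norm_num)
theorem m_126_1 : MM cl4 cl5 cl13 (((91226112 : ℕ) : ℝ) / 268435456) (((150339584 : ℕ) : ℝ) / 268435456) :=
  grpMM Q126_1.ok Q126_1.cov ok4 ok5 ok13 (by norm_num) (by norm_num)
theorem m_126_c1 : MM cl4 cl5 cl13 (((0 : ℕ) : ℝ) / 268435456) (((150339584 : ℕ) : ℝ) / 268435456) :=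
  chMM m_126_0 m_126_1 (by norm_num) (by norm_num) (by norm_num)
theorem m_126_2 : MM cl4 cl5 cl13 (((150274048 : ℕ) : ℝ) / 268435456) (((209387520 : ℕ) : ℝ) / 268435456) :=
  grpMM Q126_2.ok Q126_2.cov ok4 ok5 ok13 (by norm_num) (by norm_num)
theorem m_126_c2 : MM cl4 cl5 cl13 (((0 : ℕ) : ℝ) / 268435456) (((209387520 : ℕ) : ℝ) / 268435456) :=
  chMM m_126_c1 m_126_2 (by norm_num) (by norm_num) (by norm_num)
theorem m_126_3 : MM cl4 cl5 cl13 (((209321984 : ℕ) : ℝ) / 268435456) (((268435456 : ℕ) : ℝ) / 268435456) :=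
  grpMM Q126_3.ok Q126_3.cov ok4 ok5 ok13 (by norm_num) (by norm_num)
theorem m_126_c3 : MM cl4 cl5 cl13 (((0 : ℕ) : ℝ) / 268435456) (((268435456 : ℕ) : ℝ) / 268435456) :=
  chMM m_126_c2 m_126_3 (by norm_num) (by norm_num) (by norm_num)
theorem m_126 : MM cl4 cl5 cl13 0 1 := by
  have h := m_126_c3
  norm_num at h
  exact h
theorem m_133_0 : MM cl4 cl6 cl6 (((0 : ℕ) : ℝ) / 268435456) (((91291648 : ℕ) : ℝ) / 268435456) :=
  grpMM Q133_0.ok Q133_0.cov ok4 ok6 ok6 (by norm_num) (by norm_num)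
theorem m_133_1 : MM cl4 cl6 cl6 (((91226112 : ℕ) : ℝ) / 268435456) (((150339584 : ℕ) : ℝ) / 268435456) :=
  grpMM Q133_1.ok Q133_1.cov ok4 ok6 ok6 (by norm_num) (by norm_num)
theorem m_133_c1 : MM cl4 cl6 cl6 (((0 : ℕ) : ℝ) / 268435456) (((150339584 : ℕ) : ℝ) / 268435456) :=
  chMM m_133_0 m_133_1 (by norm_num) (by norm_num) (by norm_num)
theorem m_133_2 : MM cl4 cl6 cl6 (((150274048 : ℕ) : ℝ) / 268435456) (((209387520 : ℕ) : ℝ) / 268435456) :=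
  grpMM Q133_2.ok Q133_2.cov ok4 ok6 ok6 (by norm_num) (by norm_num)
theorem m_133_c2 : MM cl4 cl6 cl6 (((0 : ℕ) : ℝ) / 268435456) (((209387520 : ℕ) : ℝ) / 268435456) :=
  chMM m_133_c1 m_133_2 (by norm_num) (by norm_num) (by norm_num)
theorem m_133_3 : MM cl4 cl6 cl6 (((209321984 : ℕ) : ℝ) / 268435456) (((268435456 : ℕ) : ℝ) / 268435456) :=
  grpMM Q133_3.ok Q133_3.cov ok4 ok6 ok6 (by norm_num) (by norm_num)
theorem m_133_c3 : MM cl4 cl6 cl6 (((0 : ℕ) : ℝ) / 268435456) (((268435456 : ℕ) : ℝ) / 268435456) :=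
  chMM m_133_c2 m_133_3 (by norm_num) (by norm_num) (by norm_num)
theorem m_133 : MM cl4 cl6 cl6 0 1 := by
  have h := m_133_c3
  norm_num at h
  exact h
theorem m_134_0 : MM cl4 cl6 cl7 (((0 : ℕ) : ℝ) / 268435456) (((91291648 : ℕ) : ℝ) / 268435456) :=
  grpMM Q134_0.ok Q134_0.cov ok4 ok6 ok7 (by norm_num) (by norm_num)
theorem m_134_1 : MM cl4 cl6 cl7 (((91226112 : ℕ) : ℝ) / 268435456) (((150339584 : ℕ) : ℝ) / 268435456) :=
  grpMM Q134_1.ok Q134_1.cov ok4 ok6 ok7 (by norm_num) (by norm_num)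
theorem m_134_c1 : MM cl4 cl6 cl7 (((0 : ℕ) : ℝ) / 268435456) (((150339584 : ℕ) : ℝ) / 268435456) :=
  chMM m_134_0 m_134_1 (by norm_num) (by norm_num) (by norm_num)
theorem m_134_2 : MM cl4 cl6 cl7 (((150274048 : ℕ) : ℝ) / 268435456) (((209387520 : ℕ) : ℝ) / 268435456) :=
  grpMM Q134_2.ok Q134_2.cov ok4 ok6 ok7 (by norm_num) (by norm_num)
theorem m_134_c2 : MM cl4 cl6 cl7 (((0 : ℕ) : ℝ) / 268435456) (((209387520 : ℕ) : ℝ) / 268435456) :=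
  chMM m_134_c1 m_134_2 (by norm_num) (by norm_num) (by norm_num)
theorem m_134_3 : MM cl4 cl6 cl7 (((209321984 : ℕ) : ℝ) / 268435456) (((268435456 : ℕ) : ℝ) / 268435456) :=
  grpMM Q134_3.ok Q134_3.cov ok4 ok6 ok7 (by norm_num) (by norm_num)
theorem m_134_c3 : MM cl4 cl6 cl7 (((0 : ℕ) : ℝ) / 268435456) (((268435456 : ℕ) : ℝ) / 268435456) :=
  chMM m_134_c2 m_134_3 (by norm_num) (by norm_num) (by norm_num)
theorem m_134 : MM cl4 cl6 cl7 0 1 := by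
  have h := m_134_c3
  norm_num at h
  exact h
theorem m_135_0 : MM cl4 cl6 cl9 (((0 : ℕ) : ℝ) / 268435456) (((91291648 : ℕ) : ℝ) / 268435456) :=
  grpMM Q135_0.ok Q135_0.cov ok4 ok6 ok9 (by norm_num) (by norm_num)
theorem m_135_1 : MM cl4 cl6 cl9 (((91226112 : ℕ) : ℝ) / 268435456) (((150339584 : ℕ) : ℝ) / 268435456) :=
  grpMM Q135_1.ok Q135_1.cov ok4 ok6 ok9 (by norm_num) (by norm_num)
theorem m_135_c1 : MM cl4 cl6 cl9 (((0 : ℕ) : ℝ) / 268435456) (((150339584 : ℕ) : ℝ) / 268435456) :=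
  chMM m_135_0 m_135_1 (by norm_num) (by norm_num) (by norm_num)
theorem m_135_2 : MM cl4 cl6 cl9 (((150274048 : ℕ) : ℝ) / 268435456) (((209387520 : ℕ) : ℝ) / 268435456) :=
  grpMM Q135_2.ok Q135_2.cov ok4 ok6 ok9 (by norm_num) (by norm_num)
theorem m_135_c2 : MM cl4 cl6 cl9 (((0 : ℕ) : ℝ) / 268435456) (((209387520 : ℕ) : ℝ) / 268435456) :=
  chMM m_135_c1 m_135_2 (by norm_num) (by norm_num) (by norm_num)
theorem m_135_3 : MM cl4 cl6 cl9 (((209321984 : ℕ) : ℝ) / 268435456) (((268435456 : ℕ) : ℝ) / 268435456) :=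
  grpMM Q135_3.ok Q135_3.cov ok4 ok6 ok9 (by norm_num) (by norm_num)
theorem m_135_c3 : MM cl4 cl6 cl9 (((0 : ℕ) : ℝ) / 268435456) (((268435456 : ℕ) : ℝ) / 268435456) :=
  chMM m_135_c2 m_135_3 (by norm_num) (by norm_num) (by norm_num)
theorem m_135 : MM cl4 cl6 cl9 0 1 := by
  have h := m_135_c3
  norm_num at h
  exact h
theorem m_136_0 : MM cl4 cl6 cl13 (((0 : ℕ) : ℝ) / 268435456) (((91291648 : ℕ) : ℝ) / 268435456) :=
  grpMM Q136_0.ok Q136_0.cov ok4 ok6 ok13 (by norm_num) (by norm_num)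
theorem m_136_1 : MM cl4 cl6 cl13 (((91226112 : ℕ) : ℝ) / 268435456) (((150339584 : ℕ) : ℝ) / 268435456) :=
  grpMM Q136_1.ok Q136_1.cov ok4 ok6 ok13 (by norm_num) (by norm_num)
theorem m_136_c1 : MM cl4 cl6 cl13 (((0 : ℕ) : ℝ) / 268435456) (((150339584 : ℕ) : ℝ) / 268435456) :=
  chMM m_136_0 m_136_1 (by norm_num) (by norm_num) (by norm_num)
theorem m_136_2 : MM cl4 cl6 cl13 (((150274048 : ℕ) : ℝ) / 268435456) (((209387520 : ℕ) : ℝ) / 268435456) :=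
  grpMM Q136_2.ok Q136_2.cov ok4 ok6 ok13 (by norm_num) (by norm_num)
theorem m_136_c2 : MM cl4 cl6 cl13 (((0 : ℕ) : ℝ) / 268435456) (((209387520 : ℕ) : ℝ) / 268435456) :=
  chMM m_136_c1 m_136_2 (by norm_num) (by norm_num) (by norm_num)
theorem m_136_3 : MM cl4 cl6 cl13 (((209321984 : ℕ) : ℝ) / 268435456) (((268435456 : ℕ) : ℝ) / 268435456) :=
  grpMM Q136_3.ok Q136_3.cov ok4 ok6 ok13 (by norm_num) (by norm_num)
theorem m_136_c3 : MM cl4 cl6 cl13 (((0 : ℕ) : ℝ) / 268435456) (((268435456 : ℕ) : ℝ) / 268435456) :=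
  chMM m_136_c2 m_136_3 (by norm_num) (by norm_num) (by norm_num)
theorem m_136 : MM cl4 cl6 cl13 0 1 := by
  have h := m_136_c3
  norm_num at h
  exact h
theorem m_144_0 : MM cl4 cl7 cl7 (((0 : ℕ) : ℝ) / 268435456) (((91291648 : ℕ) : ℝ) / 268435456) :=
  grpMM Q144_0.ok Q144_0.cov ok4 ok7 ok7 (by norm_num) (by norm_num)
theorem m_144_1 : MM cl4 cl7 cl7 (((91226112 : ℕ) : ℝ) / 268435456) (((150339584 : ℕ) : ℝ) / 268435456) :=
  grpMM Q144_1.ok Q144_1.cov ok4 ok7 ok7 (by norm_num) (by norm_num)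
theorem m_144_c1 : MM cl4 cl7 cl7 (((0 : ℕ) : ℝ) / 268435456) (((150339584 : ℕ) : ℝ) / 268435456) :=
  chMM m_144_0 m_144_1 (by norm_num) (by norm_num) (by norm_num)
theorem m_144_2 : MM cl4 cl7 cl7 (((150274048 : ℕ) : ℝ) / 268435456) (((209387520 : ℕ) : ℝ) / 268435456) :=
  grpMM Q144_2.ok Q144_2.cov ok4 ok7 ok7 (by norm_num) (by norm_num)
theorem m_144_c2 : MM cl4 cl7 cl7 (((0 : ℕ) : ℝ) / 268435456) (((209387520 : ℕ) : ℝ) / 268435456) :=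
  chMM m_144_c1 m_144_2 (by norm_num) (by norm_num) (by norm_num)
theorem m_144_3 : MM cl4 cl7 cl7 (((209321984 : ℕ) : ℝ) / 268435456) (((238944256 : ℕ) : ℝ) / 268435456) :=
  grpMM Q144_3.ok Q144_3.cov ok4 ok7 ok7 (by norm_num) (by norm_num)
theorem m_144_c3 : MM cl4 cl7 cl7 (((0 : ℕ) : ℝ) / 268435456) (((238944256 : ℕ) : ℝ) / 268435456) :=
  chMM m_144_c2 m_144_3 (by norm_num) (by norm_num) (by norm_num)
theorem m_144_4 : MM cl4 cl7 cl7 (((238878720 : ℕ) : ℝ) / 268435456) (((268435456 : ℕ) : ℝ) / 268435456) :=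
  grpMM Q144_4.ok Q144_4.cov ok4 ok7 ok7 (by norm_num) (by norm_num)
theorem m_144_c4 : MM cl4 cl7 cl7 (((0 : ℕ) : ℝ) / 268435456) (((268435456 : ℕ) : ℝ) / 268435456) :=
  chMM m_144_c3 m_144_4 (by norm_num) (by norm_num) (by norm_num)
theorem m_144 : MM cl4 cl7 cl7 0 1 := by
  have h := m_144_c4
  norm_num at h
  exact h
theorem m_145_0 : MM cl4 cl7 cl9 (((0 : ℕ) : ℝ) / 268435456) (((91291648 : ℕ) : ℝ) / 268435456) :=
  grpMM Q145_0.ok Q145_0.cov ok4 ok7 ok9 (by norm_num) (by norm_num)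
theorem m_145_1 : MM cl4 cl7 cl9 (((91226112 : ℕ) : ℝ) / 268435456) (((150339584 : ℕ) : ℝ) / 268435456) :=
  grpMM Q145_1.ok Q145_1.cov ok4 ok7 ok9 (by norm_num) (by norm_num)
theorem m_145_c1 : MM cl4 cl7 cl9 (((0 : ℕ) : ℝ) / 268435456) (((150339584 : ℕ) : ℝ) / 268435456) :=
  chMM m_145_0 m_145_1 (by norm_num) (by norm_num) (by norm_num)
theorem m_145_2 : MM cl4 cl7 cl9 (((150274048 : ℕ) : ℝ) / 268435456) (((209387520 : ℕ) : ℝ) / 268435456) :=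
  grpMM Q145_2.ok Q145_2.cov ok4 ok7 ok9 (by norm_num) (by norm_num)
theorem m_145_c2 : MM cl4 cl7 cl9 (((0 : ℕ) : ℝ) / 268435456) (((209387520 : ℕ) : ℝ) / 268435456) :=
  chMM m_145_c1 m_145_2 (by norm_num) (by norm_num) (by norm_num)
theorem m_145_3 : MM cl4 cl7 cl9 (((209321984 : ℕ) : ℝ) / 268435456) (((238944256 : ℕ) : ℝ) / 268435456) :=
  grpMM Q145_3.ok Q145_3.cov ok4 ok7 ok9 (by norm_num) (by norm_num)
theorem m_145_c3 : MM cl4 cl7 cl9 (((0 : ℕ) : ℝ) / 268435456) (((238944256 : ℕ) : ℝ) / 268435456) :=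
  chMM m_145_c2 m_145_3 (by norm_num) (by norm_num) (by norm_num)
theorem m_145_4 : MM cl4 cl7 cl9 (((238878720 : ℕ) : ℝ) / 268435456) (((268435456 : ℕ) : ℝ) / 268435456) :=
  grpMM Q145_4.ok Q145_4.cov ok4 ok7 ok9 (by norm_num) (by norm_num)
theorem m_145_c4 : MM cl4 cl7 cl9 (((0 : ℕ) : ℝ) / 268435456) (((268435456 : ℕ) : ℝ) / 268435456) :=
  chMM m_145_c3 m_145_4 (by norm_num) (by norm_num) (by norm_num)
theorem m_145 : MM cl4 cl7 cl9 0 1 := by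
  have h := m_145_c4
  norm_num at h
  exact h
theorem m_146_0 : MM cl4 cl7 cl13 (((0 : ℕ) : ℝ) / 268435456) (((91291648 : ℕ) : ℝ) / 268435456) :=
  grpMM Q146_0.ok Q146_0.cov ok4 ok7 ok13 (by norm_num) (by norm_num)
theorem m_146_1 : MM cl4 cl7 cl13 (((91226112 : ℕ) : ℝ) / 268435456) (((150339584 : ℕ) : ℝ) / 268435456) :=
  grpMM Q146_1.ok Q146_1.cov ok4 ok7 ok13 (by norm_num) (by norm_num)
theorem m_146_c1 : MM cl4 cl7 cl13 (((0 : ℕ) : ℝ) / 268435456) (((150339584 : ℕ) : ℝ) / 268435456) :=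
  chMM m_146_0 m_146_1 (by norm_num) (by norm_num) (by norm_num)
theorem m_146_2 : MM cl4 cl7 cl13 (((150274048 : ℕ) : ℝ) / 268435456) (((209387520 : ℕ) : ℝ) / 268435456) :=
  grpMM Q146_2.ok Q146_2.cov ok4 ok7 ok13 (by norm_num) (by norm_num)
theorem m_146_c2 : MM cl4 cl7 cl13 (((0 : ℕ) : ℝ) / 268435456) (((209387520 : ℕ) : ℝ) / 268435456) :=
  chMM m_146_c1 m_146_2 (by norm_num) (by norm_num) (by norm_num)
theorem m_146_3 : MM cl4 cl7 cl13 (((209321984 : ℕ) : ℝ) / 268435456) (((238944256 : ℕ) : ℝ) / 268435456) :=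
  grpMM Q146_3.ok Q146_3.cov ok4 ok7 ok13 (by norm_num) (by norm_num)
theorem m_146_c3 : MM cl4 cl7 cl13 (((0 : ℕ) : ℝ) / 268435456) (((238944256 : ℕ) : ℝ) / 268435456) :=
  chMM m_146_c2 m_146_3 (by norm_num) (by norm_num) (by norm_num)
theorem m_146_4 : MM cl4 cl7 cl13 (((238878720 : ℕ) : ℝ) / 268435456) (((268435456 : ℕ) : ℝ) / 268435456) :=
  grpMM Q146_4.ok Q146_4.cov ok4 ok7 ok13 (by norm_num) (by norm_num)
theorem m_146_c4 : MM cl4 cl7 cl13 (((0 : ℕ) : ℝ) / 268435456) (((268435456 : ℕ) : ℝ) / 268435456) :=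
  chMM m_146_c3 m_146_4 (by norm_num) (by norm_num) (by norm_num)
theorem m_146 : MM cl4 cl7 cl13 0 1 := by
  have h := m_146_c4
  norm_num at h
  exact h
theorem m_155_0 : MM cl4 cl9 cl9 (((0 : ℕ) : ℝ) / 268435456) (((91291648 : ℕ) : ℝ) / 268435456) :=
  grpMM Q155_0.ok Q155_0.cov ok4 ok9 ok9 (by norm_num) (by norm_num)
theorem m_155_1 : MM cl4 cl9 cl9 (((91226112 : ℕ) : ℝ) / 268435456) (((150339584 : ℕ) : ℝ) / 268435456) :=
  grpMM Q155_1.ok Q155_1.cov ok4 ok9 ok9 (by norm_num) (by norm_num)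
theorem m_155_c1 : MM cl4 cl9 cl9 (((0 : ℕ) : ℝ) / 268435456) (((150339584 : ℕ) : ℝ) / 268435456) :=
  chMM m_155_0 m_155_1 (by norm_num) (by norm_num) (by norm_num)
theorem m_155_2 : MM cl4 cl9 cl9 (((150274048 : ℕ) : ℝ) / 268435456) (((209387520 : ℕ) : ℝ) / 268435456) :=
  grpMM Q155_2.ok Q155_2.cov ok4 ok9 ok9 (by norm_num) (by norm_num)
theorem m_155_c2 : MM cl4 cl9 cl9 (((0 : ℕ) : ℝ) / 268435456) (((209387520 : ℕ) : ℝ) / 268435456) :=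
  chMM m_155_c1 m_155_2 (by norm_num) (by norm_num) (by norm_num)
theorem m_155_3 : MM cl4 cl9 cl9 (((209321984 : ℕ) : ℝ) / 268435456) (((268435456 : ℕ) : ℝ) / 268435456) :=
  grpMM Q155_3.ok Q155_3.cov ok4 ok9 ok9 (by norm_num) (by norm_num)
theorem m_155_c3 : MM cl4 cl9 cl9 (((0 : ℕ) : ℝ) / 268435456) (((268435456 : ℕ) : ℝ) / 268435456) :=
  chMM m_155_c2 m_155_3 (by norm_num) (by norm_num) (by norm_num)
theorem m_155 : MM cl4 cl9 cl9 0 1 := by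
  have h := m_155_c3
  norm_num at h
  exact h
theorem m_156_0 : MM cl4 cl9 cl13 (((0 : ℕ) : ℝ) / 268435456) (((91291648 : ℕ) : ℝ) / 268435456) :=
  grpMM Q156_0.ok Q156_0.cov ok4 ok9 ok13 (by norm_num) (by norm_num)
theorem m_156_1 : MM cl4 cl9 cl13 (((91226112 : ℕ) : ℝ) / 268435456) (((150339584 : ℕ) : ℝ) / 268435456) :=
  grpMM Q156_1.ok Q156_1.cov ok4 ok9 ok13 (by norm_num) (by norm_num)
theorem m_156_c1 : MM cl4 cl9 cl13 (((0 : ℕ) : ℝ) / 268435456) (((150339584 : ℕ) : ℝ) / 268435456) :=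
  chMM m_156_0 m_156_1 (by norm_num) (by norm_num) (by norm_num)
theorem m_156_2 : MM cl4 cl9 cl13 (((150274048 : ℕ) : ℝ) / 268435456) (((209387520 : ℕ) : ℝ) / 268435456) :=
  grpMM Q156_2.ok Q156_2.cov ok4 ok9 ok13 (by norm_num) (by norm_num)
theorem m_156_c2 : MM cl4 cl9 cl13 (((0 : ℕ) : ℝ) / 268435456) (((209387520 : ℕ) : ℝ) / 268435456) :=
  chMM m_156_c1 m_156_2 (by norm_num) (by norm_num) (by norm_num)
theorem m_156_3 : MM cl4 cl9 cl13 (((209321984 : ℕ) : ℝ) / 268435456) (((268435456 : ℕ) : ℝ) / 268435456) :=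
  grpMM Q156_3.ok Q156_3.cov ok4 ok9 ok13 (by norm_num) (by norm_num)
theorem m_156_c3 : MM cl4 cl9 cl13 (((0 : ℕ) : ℝ) / 268435456) (((268435456 : ℕ) : ℝ) / 268435456) :=
  chMM m_156_c2 m_156_3 (by norm_num) (by norm_num) (by norm_num)
theorem m_156 : MM cl4 cl9 cl13 0 1 := by
  have h := m_156_c3
  norm_num at h
  exact h
theorem m_166_0 : MM cl4 cl13 cl13 (((0 : ℕ) : ℝ) / 268435456) (((91291648 : ℕ) : ℝ) / 268435456) :=
  grpMM Q166_0.ok Q166_0.cov ok4 ok13 ok13 (by norm_num) (by norm_num)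
theorem m_166_1 : MM cl4 cl13 cl13 (((91226112 : ℕ) : ℝ) / 268435456) (((150339584 : ℕ) : ℝ) / 268435456) :=
  grpMM Q166_1.ok Q166_1.cov ok4 ok13 ok13 (by norm_num) (by norm_num)
theorem m_166_c1 : MM cl4 cl13 cl13 (((0 : ℕ) : ℝ) / 268435456) (((150339584 : ℕ) : ℝ) / 268435456) :=
  chMM m_166_0 m_166_1 (by norm_num) (by norm_num) (by norm_num)
theorem m_166_2 : MM cl4 cl13 cl13 (((150274048 : ℕ) : ℝ) / 268435456) (((209387520 : ℕ) : ℝ) / 268435456) :=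
  grpMM Q166_2.ok Q166_2.cov ok4 ok13 ok13 (by norm_num) (by norm_num)
theorem m_166_c2 : MM cl4 cl13 cl13 (((0 : ℕ) : ℝ) / 268435456) (((209387520 : ℕ) : ℝ) / 268435456) :=
  chMM m_166_c1 m_166_2 (by norm_num) (by norm_num) (by norm_num)
theorem m_166_3 : MM cl4 cl13 cl13 (((209321984 : ℕ) : ℝ) / 268435456) (((268435456 : ℕ) : ℝ) / 268435456) :=
  grpMM Q166_3.ok Q166_3.cov ok4 ok13 ok13 (by norm_num) (by norm_num)
theorem m_166_c3 : MM cl4 cl13 cl13 (((0 : ℕ) : ℝ) / 268435456) (((268435456 : ℕ) : ℝ) / 268435456) :=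
  chMM m_166_c2 m_166_3 (by norm_num) (by norm_num) (by norm_num)
theorem m_166 : MM cl4 cl13 cl13 0 1 := by
  have h := m_166_c3
  norm_num at h
  exact h
theorem m_222_0 : MM cl5 cl5 cl5 (((0 : ℕ) : ℝ) / 268435456) (((91291648 : ℕ) : ℝ) / 268435456) :=
  grpMM Q222_0.ok Q222_0.cov ok5 ok5 ok5 (by norm_num) (by norm_num)
theorem m_222_1 : MM cl5 cl5 cl5 (((91226112 : ℕ) : ℝ) / 268435456) (((150339584 : ℕ) : ℝ) / 268435456) :=
  grpMM Q222_1.ok Q222_1.cov ok5 ok5 ok5 (by norm_num) (by norm_num)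
theorem m_222_c1 : MM cl5 cl5 cl5 (((0 : ℕ) : ℝ) / 268435456) (((150339584 : ℕ) : ℝ) / 268435456) :=
  chMM m_222_0 m_222_1 (by norm_num) (by norm_num) (by norm_num)
theorem m_222_2 : MM cl5 cl5 cl5 (((150274048 : ℕ) : ℝ) / 268435456) (((209387520 : ℕ) : ℝ) / 268435456) :=
  grpMM Q222_2.ok Q222_2.cov ok5 ok5 ok5 (by norm_num) (by norm_num)
theorem m_222_c2 : MM cl5 cl5 cl5 (((0 : ℕ) : ℝ) / 268435456) (((209387520 : ℕ) : ℝ) / 268435456) :=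
  chMM m_222_c1 m_222_2 (by norm_num) (by norm_num) (by norm_num)
theorem m_222_3 : MM cl5 cl5 cl5 (((209321984 : ℕ) : ℝ) / 268435456) (((268435456 : ℕ) : ℝ) / 268435456) :=
  grpMM Q222_3.ok Q222_3.cov ok5 ok5 ok5 (by norm_num) (by norm_num)
theorem m_222_c3 : MM cl5 cl5 cl5 (((0 : ℕ) : ℝ) / 268435456) (((268435456 : ℕ) : ℝ) / 268435456) :=
  chMM m_222_c2 m_222_3 (by norm_num) (by norm_num) (by norm_num)
theorem m_222 : MM cl5 cl5 cl5 0 1 := by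
  have h := m_222_c3
  norm_num at h
  exact h
theorem m_223_0 : MM cl5 cl5 cl6 (((0 : ℕ) : ℝ) / 268435456) (((91291648 : ℕ) : ℝ) / 268435456) :=
  grpMM Q223_0.ok Q223_0.cov ok5 ok5 ok6 (by norm_num) (by norm_num)
theorem m_223_1 : MM cl5 cl5 cl6 (((91226112 : ℕ) : ℝ) / 268435456) (((150339584 : ℕ) : ℝ) / 268435456) :=
  grpMM Q223_1.ok Q223_1.cov ok5 ok5 ok6 (by norm_num) (by norm_num)
theorem m_223_c1 : MM cl5 cl5 cl6 (((0 : ℕ) : ℝ) / 268435456) (((150339584 : ℕ) : ℝ) / 268435456) :=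
  chMM m_223_0 m_223_1 (by norm_num) (by norm_num) (by norm_num)
theorem m_223_2 : MM cl5 cl5 cl6 (((150274048 : ℕ) : ℝ) / 268435456) (((209387520 : ℕ) : ℝ) / 268435456) :=
  grpMM Q223_2.ok Q223_2.cov ok5 ok5 ok6 (by norm_num) (by norm_num)
theorem m_223_c2 : MM cl5 cl5 cl6 (((0 : ℕ) : ℝ) / 268435456) (((209387520 : ℕ) : ℝ) / 268435456) :=
  chMM m_223_c1 m_223_2 (by norm_num) (by norm_num) (by norm_num)
theorem m_223_3 : MM cl5 cl5 cl6 (((209321984 : ℕ) : ℝ) / 268435456) (((268435456 : ℕ) : ℝ) / 268435456) :=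
  grpMM Q223_3.ok Q223_3.cov ok5 ok5 ok6 (by norm_num) (by norm_num)
theorem m_223_c3 : MM cl5 cl5 cl6 (((0 : ℕ) : ℝ) / 268435456) (((268435456 : ℕ) : ℝ) / 268435456) :=
  chMM m_223_c2 m_223_3 (by norm_num) (by norm_num) (by norm_num)
theorem m_223 : MM cl5 cl5 cl6 0 1 := by
  have h := m_223_c3
  norm_num at h
  exact h
theorem m_224_0 : MM cl5 cl5 cl7 (((0 : ℕ) : ℝ) / 268435456) (((91291648 : ℕ) : ℝ) / 268435456) :=
  grpMM Q224_0.ok Q224_0.cov ok5 ok5 ok7 (by norm_num) (by norm_num)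
theorem m_224_1 : MM cl5 cl5 cl7 (((91226112 : ℕ) : ℝ) / 268435456) (((150339584 : ℕ) : ℝ) / 268435456) :=
  grpMM Q224_1.ok Q224_1.cov ok5 ok5 ok7 (by norm_num) (by norm_num)
theorem m_224_c1 : MM cl5 cl5 cl7 (((0 : ℕ) : ℝ) / 268435456) (((150339584 : ℕ) : ℝ) / 268435456) :=
  chMM m_224_0 m_224_1 (by norm_num) (by norm_num) (by norm_num)
theorem m_224_2 : MM cl5 cl5 cl7 (((150274048 : ℕ) : ℝ) / 268435456) (((209387520 : ℕ) : ℝ) / 268435456) :=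
  grpMM Q224_2.ok Q224_2.cov ok5 ok5 ok7 (by norm_num) (by norm_num)
theorem m_224_c2 : MM cl5 cl5 cl7 (((0 : ℕ) : ℝ) / 268435456) (((209387520 : ℕ) : ℝ) / 268435456) :=
  chMM m_224_c1 m_224_2 (by norm_num) (by norm_num) (by norm_num)
theorem m_224_3 : MM cl5 cl5 cl7 (((209321984 : ℕ) : ℝ) / 268435456) (((268435456 : ℕ) : ℝ) / 268435456) :=
  grpMM Q224_3.ok Q224_3.cov ok5 ok5 ok7 (by norm_num) (by norm_num)
theorem m_224_c3 : MM cl5 cl5 cl7 (((0 : ℕ) : ℝ) / 268435456) (((268435456 : ℕ) : ℝ) / 268435456) :=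
  chMM m_224_c2 m_224_3 (by norm_num) (by norm_num) (by norm_num)
theorem m_224 : MM cl5 cl5 cl7 0 1 := by
  have h := m_224_c3
  norm_num at h
  exact h
theorem m_225_0 : MM cl5 cl5 cl9 (((0 : ℕ) : ℝ) / 268435456) (((91291648 : ℕ) : ℝ) / 268435456) :=
  grpMM Q225_0.ok Q225_0.cov ok5 ok5 ok9 (by norm_num) (by norm_num)
theorem m_225_1 : MM cl5 cl5 cl9 (((91226112 : ℕ) : ℝ) / 268435456) (((150339584 : ℕ) : ℝ) / 268435456) :=
  grpMM Q225_1.ok Q225_1.cov ok5 ok5 ok9 (by norm_num) (by norm_num)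
theorem m_225_c1 : MM cl5 cl5 cl9 (((0 : ℕ) : ℝ) / 268435456) (((150339584 : ℕ) : ℝ) / 268435456) :=
  chMM m_225_0 m_225_1 (by norm_num) (by norm_num) (by norm_num)
theorem m_225_2 : MM cl5 cl5 cl9 (((150274048 : ℕ) : ℝ) / 268435456) (((209387520 : ℕ) : ℝ) / 268435456) :=
  grpMM Q225_2.ok Q225_2.cov ok5 ok5 ok9 (by norm_num) (by norm_num)
theorem m_225_c2 : MM cl5 cl5 cl9 (((0 : ℕ) : ℝ) / 268435456) (((209387520 : ℕ) : ℝ) / 268435456) :=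
  chMM m_225_c1 m_225_2 (by norm_num) (by norm_num) (by norm_num)
theorem m_225_3 : MM cl5 cl5 cl9 (((209321984 : ℕ) : ℝ) / 268435456) (((268435456 : ℕ) : ℝ) / 268435456) :=
  grpMM Q225_3.ok Q225_3.cov ok5 ok5 ok9 (by norm_num) (by norm_num)
theorem m_225_c3 : MM cl5 cl5 cl9 (((0 : ℕ) : ℝ) / 268435456) (((268435456 : ℕ) : ℝ) / 268435456) :=
  chMM m_225_c2 m_225_3 (by norm_num) (by norm_num) (by norm_num)
theorem m_225 : MM cl5 cl5 cl9 0 1 := by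
  have h := m_225_c3
  norm_num at h
  exact h
theorem m_226_0 : MM cl5 cl5 cl13 (((0 : ℕ) : ℝ) / 268435456) (((91291648 : ℕ) : ℝ) / 268435456) :=
  grpMM Q226_0.ok Q226_0.cov ok5 ok5 ok13 (by norm_num) (by norm_num)
theorem m_226_1 : MM cl5 cl5 cl13 (((91226112 : ℕ) : ℝ) / 268435456) (((150339584 : ℕ) : ℝ) / 268435456) :=
  grpMM Q226_1.ok Q226_1.cov ok5 ok5 ok13 (by norm_num) (by norm_num)
theorem m_226_c1 : MM cl5 cl5 cl13 (((0 : ℕ) : ℝ) / 268435456) (((150339584 : ℕ) : ℝ) / 268435456) :=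
  chMM m_226_0 m_226_1 (by norm_num) (by norm_num) (by norm_num)
theorem m_226_2 : MM cl5 cl5 cl13 (((150274048 : ℕ) : ℝ) / 268435456) (((209387520 : ℕ) : ℝ) / 268435456) :=
  grpMM Q226_2.ok Q226_2.cov ok5 ok5 ok13 (by norm_num) (by norm_num)
theorem m_226_c2 : MM cl5 cl5 cl13 (((0 : ℕ) : ℝ) / 268435456) (((209387520 : ℕ) : ℝ) / 268435456) :=
  chMM m_226_c1 m_226_2 (by norm_num) (by norm_num) (by norm_num)
theorem m_226_3 : MM cl5 cl5 cl13 (((209321984 : ℕ) : ℝ) / 268435456) (((268435456 : ℕ) : ℝ) / 268435456) :=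
  grpMM Q226_3.ok Q226_3.cov ok5 ok5 ok13 (by norm_num) (by norm_num)
theorem m_226_c3 : MM cl5 cl5 cl13 (((0 : ℕ) : ℝ) / 268435456) (((268435456 : ℕ) : ℝ) / 268435456) :=
  chMM m_226_c2 m_226_3 (by norm_num) (by norm_num) (by norm_num)
theorem m_226 : MM cl5 cl5 cl13 0 1 := by
  have h := m_226_c3
  norm_num at h
  exact h
theorem m_233_0 : MM cl5 cl6 cl6 (((0 : ℕ) : ℝ) / 268435456) (((91291648 : ℕ) : ℝ) / 268435456) :=
  grpMM Q233_0.ok Q233_0.cov ok5 ok6 ok6 (by norm_num) (by norm_num)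
theorem m_233_1 : MM cl5 cl6 cl6 (((91226112 : ℕ) : ℝ) / 268435456) (((150339584 : ℕ) : ℝ) / 268435456) :=
  grpMM Q233_1.ok Q233_1.cov ok5 ok6 ok6 (by norm_num) (by norm_num)
theorem m_233_c1 : MM cl5 cl6 cl6 (((0 : ℕ) : ℝ) / 268435456) (((150339584 : ℕ) : ℝ) / 268435456) :=
  chMM m_233_0 m_233_1 (by norm_num) (by norm_num) (by norm_num)
theorem m_233_2 : MM cl5 cl6 cl6 (((150274048 : ℕ) : ℝ) / 268435456) (((209387520 : ℕ) : ℝ) / 268435456) :=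
  grpMM Q233_2.ok Q233_2.cov ok5 ok6 ok6 (by norm_num) (by norm_num)
theorem m_233_c2 : MM cl5 cl6 cl6 (((0 : ℕ) : ℝ) / 268435456) (((209387520 : ℕ) : ℝ) / 268435456) :=
  chMM m_233_c1 m_233_2 (by norm_num) (by norm_num) (by norm_num)
theorem m_233_3 : MM cl5 cl6 cl6 (((209321984 : ℕ) : ℝ) / 268435456) (((268435456 : ℕ) : ℝ) / 268435456) :=
  grpMM Q233_3.ok Q233_3.cov ok5 ok6 ok6 (by norm_num) (by norm_num)
theorem m_233_c3 : MM cl5 cl6 cl6 (((0 : ℕ) : ℝ) / 268435456) (((268435456 : ℕ) : ℝ) / 268435456) :=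
  chMM m_233_c2 m_233_3 (by norm_num) (by norm_num) (by norm_num)
theorem m_233 : MM cl5 cl6 cl6 0 1 := by
  have h := m_233_c3
  norm_num at h
  exact h
theorem m_234_0 : MM cl5 cl6 cl7 (((0 : ℕ) : ℝ) / 268435456) (((91291648 : ℕ) : ℝ) / 268435456) :=
  grpMM Q234_0.ok Q234_0.cov ok5 ok6 ok7 (by norm_num) (by norm_num)
theorem m_234_1 : MM cl5 cl6 cl7 (((91226112 : ℕ) : ℝ) / 268435456) (((150339584 : ℕ) : ℝ) / 268435456) :=
  grpMM Q234_1.ok Q234_1.cov ok5 ok6 ok7 (by norm_num) (by norm_num)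
theorem m_234_c1 : MM cl5 cl6 cl7 (((0 : ℕ) : ℝ) / 268435456) (((150339584 : ℕ) : ℝ) / 268435456) :=
  chMM m_234_0 m_234_1 (by norm_num) (by norm_num) (by norm_num)
theorem m_234_2 : MM cl5 cl6 cl7 (((150274048 : ℕ) : ℝ) / 268435456) (((209387520 : ℕ) : ℝ) / 268435456) :=
  grpMM Q234_2.ok Q234_2.cov ok5 ok6 ok7 (by norm_num) (by norm_num)
theorem m_234_c2 : MM cl5 cl6 cl7 (((0 : ℕ) : ℝ) / 268435456) (((209387520 : ℕ) : ℝ) / 268435456) :=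
  chMM m_234_c1 m_234_2 (by norm_num) (by norm_num) (by norm_num)
theorem m_234_3 : MM cl5 cl6 cl7 (((209321984 : ℕ) : ℝ) / 268435456) (((268435456 : ℕ) : ℝ) / 268435456) :=
  grpMM Q234_3.ok Q234_3.cov ok5 ok6 ok7 (by norm_num) (by norm_num)
theorem m_234_c3 : MM cl5 cl6 cl7 (((0 : ℕ) : ℝ) / 268435456) (((268435456 : ℕ) : ℝ) / 268435456) :=
  chMM m_234_c2 m_234_3 (by norm_num) (by norm_num) (by norm_num)
theorem m_234 : MM cl5 cl6 cl7 0 1 := by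
  have h := m_234_c3
  norm_num at h
  exact h
theorem m_235_0 : MM cl5 cl6 cl9 (((0 : ℕ) : ℝ) / 268435456) (((91291648 : ℕ) : ℝ) / 268435456) :=
  grpMM Q235_0.ok Q235_0.cov ok5 ok6 ok9 (by norm_num) (by norm_num)
theorem m_235_1 : MM cl5 cl6 cl9 (((91226112 : ℕ) : ℝ) / 268435456) (((150339584 : ℕ) : ℝ) / 268435456) :=
  grpMM Q235_1.ok Q235_1.cov ok5 ok6 ok9 (by norm_num) (by norm_num)
theorem m_235_c1 : MM cl5 cl6 cl9 (((0 : ℕ) : ℝ) / 268435456) (((150339584 : ℕ) : ℝ) / 268435456) :=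
  chMM m_235_0 m_235_1 (by norm_num) (by norm_num) (by norm_num)
theorem m_235_2 : MM cl5 cl6 cl9 (((150274048 : ℕ) : ℝ) / 268435456) (((209387520 : ℕ) : ℝ) / 268435456) :=
  grpMM Q235_2.ok Q235_2.cov ok5 ok6 ok9 (by norm_num) (by norm_num)
theorem m_235_c2 : MM cl5 cl6 cl9 (((0 : ℕ) : ℝ) / 268435456) (((209387520 : ℕ) : ℝ) / 268435456) :=
  chMM m_235_c1 m_235_2 (by norm_num) (by norm_num) (by norm_num)
theorem m_235_3 : MM cl5 cl6 cl9 (((209321984 : ℕ) : ℝ) / 268435456) (((268435456 : ℕ) : ℝ) / 268435456) :=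
  grpMM Q235_3.ok Q235_3.cov ok5 ok6 ok9 (by norm_num) (by norm_num)
theorem m_235_c3 : MM cl5 cl6 cl9 (((0 : ℕ) : ℝ) / 268435456) (((268435456 : ℕ) : ℝ) / 268435456) :=
  chMM m_235_c2 m_235_3 (by norm_num) (by norm_num) (by norm_num)
theorem m_235 : MM cl5 cl6 cl9 0 1 := by
  have h := m_235_c3
  norm_num at h
  exact h
theorem m_236_0 : MM cl5 cl6 cl13 (((0 : ℕ) : ℝ) / 268435456) (((91291648 : ℕ) : ℝ) / 268435456) :=
  grpMM Q236_0.ok Q236_0.cov ok5 ok6 ok13 (by norm_num) (by norm_num)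
theorem m_236_1 : MM cl5 cl6 cl13 (((91226112 : ℕ) : ℝ) / 268435456) (((150339584 : ℕ) : ℝ) / 268435456) :=
  grpMM Q236_1.ok Q236_1.cov ok5 ok6 ok13 (by norm_num) (by norm_num)
theorem m_236_c1 : MM cl5 cl6 cl13 (((0 : ℕ) : ℝ) / 268435456) (((150339584 : ℕ) : ℝ) / 268435456) :=
  chMM m_236_0 m_236_1 (by norm_num) (by norm_num) (by norm_num)
theorem m_236_2 : MM cl5 cl6 cl13 (((150274048 : ℕ) : ℝ) / 268435456) (((209387520 : ℕ) : ℝ) / 268435456) :=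
  grpMM Q236_2.ok Q236_2.cov ok5 ok6 ok13 (by norm_num) (by norm_num)
theorem m_236_c2 : MM cl5 cl6 cl13 (((0 : ℕ) : ℝ) / 268435456) (((209387520 : ℕ) : ℝ) / 268435456) :=
  chMM m_236_c1 m_236_2 (by norm_num) (by norm_num) (by norm_num)
theorem m_236_3 : MM cl5 cl6 cl13 (((209321984 : ℕ) : ℝ) / 268435456) (((268435456 : ℕ) : ℝ) / 268435456) :=
  grpMM Q236_3.ok Q236_3.cov ok5 ok6 ok13 (by norm_num) (by norm_num)
theorem m_236_c3 : MM cl5 cl6 cl13 (((0 : ℕ) : ℝ) / 268435456) (((268435456 : ℕ) : ℝ) / 268435456) :=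
  chMM m_236_c2 m_236_3 (by norm_num) (by norm_num) (by norm_num)
theorem m_236 : MM cl5 cl6 cl13 0 1 := by
  have h := m_236_c3
  norm_num at h
  exact h
theorem m_244_0 : MM cl5 cl7 cl7 (((0 : ℕ) : ℝ) / 268435456) (((91291648 : ℕ) : ℝ) / 268435456) :=
  grpMM Q244_0.ok Q244_0.cov ok5 ok7 ok7 (by norm_num) (by norm_num)
theorem m_244_1 : MM cl5 cl7 cl7 (((91226112 : ℕ) : ℝ) / 268435456) (((150339584 : ℕ) : ℝ) / 268435456) :=
  grpMM Q244_1.ok Q244_1.cov ok5 ok7 ok7 (by norm_num) (by norm_num)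
theorem m_244_c1 : MM cl5 cl7 cl7 (((0 : ℕ) : ℝ) / 268435456) (((150339584 : ℕ) : ℝ) / 268435456) :=
  chMM m_244_0 m_244_1 (by norm_num) (by norm_num) (by norm_num)
theorem m_244_2 : MM cl5 cl7 cl7 (((150274048 : ℕ) : ℝ) / 268435456) (((209387520 : ℕ) : ℝ) / 268435456) :=
  grpMM Q244_2.ok Q244_2.cov ok5 ok7 ok7 (by norm_num) (by norm_num)
theorem m_244_c2 : MM cl5 cl7 cl7 (((0 : ℕ) : ℝ) / 268435456) (((209387520 : ℕ) : ℝ) / 268435456) :=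
  chMM m_244_c1 m_244_2 (by norm_num) (by norm_num) (by norm_num)
theorem m_244_3 : MM cl5 cl7 cl7 (((209321984 : ℕ) : ℝ) / 268435456) (((268435456 : ℕ) : ℝ) / 268435456) :=
  grpMM Q244_3.ok Q244_3.cov ok5 ok7 ok7 (by norm_num) (by norm_num)
theorem m_244_c3 : MM cl5 cl7 cl7 (((0 : ℕ) : ℝ) / 268435456) (((268435456 : ℕ) : ℝ) / 268435456) :=
  chMM m_244_c2 m_244_3 (by norm_num) (by norm_num) (by norm_num)
theorem m_244 : MM cl5 cl7 cl7 0 1 := by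
  have h := m_244_c3
  norm_num at h
  exact h
theorem m_245_0 : MM cl5 cl7 cl9 (((0 : ℕ) : ℝ) / 268435456) (((91291648 : ℕ) : ℝ) / 268435456) :=
  grpMM Q245_0.ok Q245_0.cov ok5 ok7 ok9 (by norm_num) (by norm_num)
theorem m_245_1 : MM cl5 cl7 cl9 (((91226112 : ℕ) : ℝ) / 268435456) (((150339584 : ℕ) : ℝ) / 268435456) :=
  grpMM Q245_1.ok Q245_1.cov ok5 ok7 ok9 (by norm_num) (by norm_num)
theorem m_245_c1 : MM cl5 cl7 cl9 (((0 : ℕ) : ℝ) / 268435456) (((150339584 : ℕ) : ℝ) / 268435456) :=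
  chMM m_245_0 m_245_1 (by norm_num) (by norm_num) (by norm_num)
theorem m_245_2 : MM cl5 cl7 cl9 (((150274048 : ℕ) : ℝ) / 268435456) (((209387520 : ℕ) : ℝ) / 268435456) :=
  grpMM Q245_2.ok Q245_2.cov ok5 ok7 ok9 (by norm_num) (by norm_num)
theorem m_245_c2 : MM cl5 cl7 cl9 (((0 : ℕ) : ℝ) / 268435456) (((209387520 : ℕ) : ℝ) / 268435456) :=
  chMM m_245_c1 m_245_2 (by norm_num) (by norm_num) (by norm_num)
theorem m_245_3 : MM cl5 cl7 cl9 (((209321984 : ℕ) : ℝ) / 268435456) (((268435456 : ℕ) : ℝ) / 268435456) :=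
  grpMM Q245_3.ok Q245_3.cov ok5 ok7 ok9 (by norm_num) (by norm_num)
theorem m_245_c3 : MM cl5 cl7 cl9 (((0 : ℕ) : ℝ) / 268435456) (((268435456 : ℕ) : ℝ) / 268435456) :=
  chMM m_245_c2 m_245_3 (by norm_num) (by norm_num) (by norm_num)
theorem m_245 : MM cl5 cl7 cl9 0 1 := by
  have h := m_245_c3
  norm_num at h
  exact h
theorem m_246_0 : MM cl5 cl7 cl13 (((0 : ℕ) : ℝ) / 268435456) (((91291648 : ℕ) : ℝ) / 268435456) :=
  grpMM Q246_0.ok Q246_0.cov ok5 ok7 ok13 (by norm_num) (by norm_num)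
theorem m_246_1 : MM cl5 cl7 cl13 (((91226112 : ℕ) : ℝ) / 268435456) (((150339584 : ℕ) : ℝ) / 268435456) :=
  grpMM Q246_1.ok Q246_1.cov ok5 ok7 ok13 (by norm_num) (by norm_num)
theorem m_246_c1 : MM cl5 cl7 cl13 (((0 : ℕ) : ℝ) / 268435456) (((150339584 : ℕ) : ℝ) / 268435456) :=
  chMM m_246_0 m_246_1 (by norm_num) (by norm_num) (by norm_num)
theorem m_246_2 : MM cl5 cl7 cl13 (((150274048 : ℕ) : ℝ) / 268435456) (((209387520 : ℕ) : ℝ) / 268435456) :=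
  grpMM Q246_2.ok Q246_2.cov ok5 ok7 ok13 (by norm_num) (by norm_num)
theorem m_246_c2 : MM cl5 cl7 cl13 (((0 : ℕ) : ℝ) / 268435456) (((209387520 : ℕ) : ℝ) / 268435456) :=
  chMM m_246_c1 m_246_2 (by norm_num) (by norm_num) (by norm_num)
theorem m_246_3 : MM cl5 cl7 cl13 (((209321984 : ℕ) : ℝ) / 268435456) (((268435456 : ℕ) : ℝ) / 268435456) :=
  grpMM Q246_3.ok Q246_3.cov ok5 ok7 ok13 (by norm_num) (by norm_num)
theorem m_246_c3 : MM cl5 cl7 cl13 (((0 : ℕ) : ℝ) / 268435456) (((268435456 : ℕ) : ℝ) / 268435456) :=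
  chMM m_246_c2 m_246_3 (by norm_num) (by norm_num) (by norm_num)
theorem m_246 : MM cl5 cl7 cl13 0 1 := by
  have h := m_246_c3
  norm_num at h
  exact h
theorem m_255_0 : MM cl5 cl9 cl9 (((0 : ℕ) : ℝ) / 268435456) (((91291648 : ℕ) : ℝ) / 268435456) :=
  grpMM Q255_0.ok Q255_0.cov ok5 ok9 ok9 (by norm_num) (by norm_num)
theorem m_255_1 : MM cl5 cl9 cl9 (((91226112 : ℕ) : ℝ) / 268435456) (((150339584 : ℕ) : ℝ) / 268435456) :=
  grpMM Q255_1.ok Q255_1.cov ok5 ok9 ok9 (by norm_num) (by norm_num)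
theorem m_255_c1 : MM cl5 cl9 cl9 (((0 : ℕ) : ℝ) / 268435456) (((150339584 : ℕ) : ℝ) / 268435456) :=
  chMM m_255_0 m_255_1 (by norm_num) (by norm_num) (by norm_num)
theorem m_255_2 : MM cl5 cl9 cl9 (((150274048 : ℕ) : ℝ) / 268435456) (((209387520 : ℕ) : ℝ) / 268435456) :=
  grpMM Q255_2.ok Q255_2.cov ok5 ok9 ok9 (by norm_num) (by norm_num)
theorem m_255_c2 : MM cl5 cl9 cl9 (((0 : ℕ) : ℝ) / 268435456) (((209387520 : ℕ) : ℝ) / 268435456) :=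
  chMM m_255_c1 m_255_2 (by norm_num) (by norm_num) (by norm_num)
theorem m_255_3 : MM cl5 cl9 cl9 (((209321984 : ℕ) : ℝ) / 268435456) (((268435456 : ℕ) : ℝ) / 268435456) :=
  grpMM Q255_3.ok Q255_3.cov ok5 ok9 ok9 (by norm_num) (by norm_num)
theorem m_255_c3 : MM cl5 cl9 cl9 (((0 : ℕ) : ℝ) / 268435456) (((268435456 : ℕ) : ℝ) / 268435456) :=
  chMM m_255_c2 m_255_3 (by norm_num) (by norm_num) (by norm_num)
theorem m_255 : MM cl5 cl9 cl9 0 1 := by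
  have h := m_255_c3
  norm_num at h
  exact h
theorem m_256_0 : MM cl5 cl9 cl13 (((0 : ℕ) : ℝ) / 268435456) (((91291648 : ℕ) : ℝ) / 268435456) :=
  grpMM Q256_0.ok Q256_0.cov ok5 ok9 ok13 (by norm_num) (by norm_num)
theorem m_256_1 : MM cl5 cl9 cl13 (((91226112 : ℕ) : ℝ) / 268435456) (((150339584 : ℕ) : ℝ) / 268435456) :=
  grpMM Q256_1.ok Q256_1.cov ok5 ok9 ok13 (by norm_num) (by norm_num)
theorem m_256_c1 : MM cl5 cl9 cl13 (((0 : ℕ) : ℝ) / 268435456) (((150339584 : ℕ) : ℝ) / 268435456) :=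
  chMM m_256_0 m_256_1 (by norm_num) (by norm_num) (by norm_num)
theorem m_256_2 : MM cl5 cl9 cl13 (((150274048 : ℕ) : ℝ) / 268435456) (((209387520 : ℕ) : ℝ) / 268435456) :=
  grpMM Q256_2.ok Q256_2.cov ok5 ok9 ok13 (by norm_num) (by norm_num)
theorem m_256_c2 : MM cl5 cl9 cl13 (((0 : ℕ) : ℝ) / 268435456) (((209387520 : ℕ) : ℝ) / 268435456) :=
  chMM m_256_c1 m_256_2 (by norm_num) (by norm_num) (by norm_num)
theorem m_256_3 : MM cl5 cl9 cl13 (((209321984 : ℕ) : ℝ) / 268435456) (((268435456 : ℕ) : ℝ) / 268435456) :=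
  grpMM Q256_3.ok Q256_3.cov ok5 ok9 ok13 (by norm_num) (by norm_num)
theorem m_256_c3 : MM cl5 cl9 cl13 (((0 : ℕ) : ℝ) / 268435456) (((268435456 : ℕ) : ℝ) / 268435456) :=
  chMM m_256_c2 m_256_3 (by norm_num) (by norm_num) (by norm_num)
theorem m_256 : MM cl5 cl9 cl13 0 1 := by
  have h := m_256_c3
  norm_num at h
  exact h
theorem m_266_0 : MM cl5 cl13 cl13 (((0 : ℕ) : ℝ) / 268435456) (((91291648 : ℕ) : ℝ) / 268435456) :=
  grpMM Q266_0.ok Q266_0.cov ok5 ok13 ok13 (by norm_num) (by norm_num)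
theorem m_266_1 : MM cl5 cl13 cl13 (((91226112 : ℕ) : ℝ) / 268435456) (((150339584 : ℕ) : ℝ) / 268435456) :=
  grpMM Q266_1.ok Q266_1.cov ok5 ok13 ok13 (by norm_num) (by norm_num)
theorem m_266_c1 : MM cl5 cl13 cl13 (((0 : ℕ) : ℝ) / 268435456) (((150339584 : ℕ) : ℝ) / 268435456) :=
  chMM m_266_0 m_266_1 (by norm_num) (by norm_num) (by norm_num)
theorem m_266_2 : MM cl5 cl13 cl13 (((150274048 : ℕ) : ℝ) / 268435456) (((209387520 : ℕ) : ℝ) / 268435456) :=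
  grpMM Q266_2.ok Q266_2.cov ok5 ok13 ok13 (by norm_num) (by norm_num)
theorem m_266_c2 : MM cl5 cl13 cl13 (((0 : ℕ) : ℝ) / 268435456) (((209387520 : ℕ) : ℝ) / 268435456) :=
  chMM m_266_c1 m_266_2 (by norm_num) (by norm_num) (by norm_num)
theorem m_266_3 : MM cl5 cl13 cl13 (((209321984 : ℕ) : ℝ) / 268435456) (((268435456 : ℕ) : ℝ) / 268435456) :=
  grpMM Q266_3.ok Q266_3.cov ok5 ok13 ok13 (by norm_num) (by norm_num)
theorem m_266_c3 : MM cl5 cl13 cl13 (((0 : ℕ) : ℝ) / 268435456) (((268435456 : ℕ) : ℝ) / 268435456) :=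
  chMM m_266_c2 m_266_3 (by norm_num) (by norm_num) (by norm_num)
theorem m_266 : MM cl5 cl13 cl13 0 1 := by
  have h := m_266_c3
  norm_num at h
  exact h
theorem m_333_0 : MM cl6 cl6 cl6 (((0 : ℕ) : ℝ) / 268435456) (((91291648 : ℕ) : ℝ) / 268435456) :=
  grpMM Q333_0.ok Q333_0.cov ok6 ok6 ok6 (by norm_num) (by norm_num)
theorem m_333_1 : MM cl6 cl6 cl6 (((91226112 : ℕ) : ℝ) / 268435456) (((150339584 : ℕ) : ℝ) / 268435456) :=
  grpMM Q333_1.ok Q333_1.cov ok6 ok6 ok6 (by norm_num) (by norm_num)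
theorem m_333_c1 : MM cl6 cl6 cl6 (((0 : ℕ) : ℝ) / 268435456) (((150339584 : ℕ) : ℝ) / 268435456) :=
  chMM m_333_0 m_333_1 (by norm_num) (by norm_num) (by norm_num)
theorem m_333_2 : MM cl6 cl6 cl6 (((150274048 : ℕ) : ℝ) / 268435456) (((209387520 : ℕ) : ℝ) / 268435456) :=
  grpMM Q333_2.ok Q333_2.cov ok6 ok6 ok6 (by norm_num) (by norm_num)
theorem m_333_c2 : MM cl6 cl6 cl6 (((0 : ℕ) : ℝ) / 268435456) (((209387520 : ℕ) : ℝ) / 268435456) :=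
  chMM m_333_c1 m_333_2 (by norm_num) (by norm_num) (by norm_num)
theorem m_333_3 : MM cl6 cl6 cl6 (((209321984 : ℕ) : ℝ) / 268435456) (((268435456 : ℕ) : ℝ) / 268435456) :=
  grpMM Q333_3.ok Q333_3.cov ok6 ok6 ok6 (by norm_num) (by norm_num)
theorem m_333_c3 : MM cl6 cl6 cl6 (((0 : ℕ) : ℝ) / 268435456) (((268435456 : ℕ) : ℝ) / 268435456) :=
  chMM m_333_c2 m_333_3 (by norm_num) (by norm_num) (by norm_num)
theorem m_333 : MM cl6 cl6 cl6 0 1 := by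
  have h := m_333_c3
  norm_num at h
  exact h
theorem m_334_0 : MM cl6 cl6 cl7 (((0 : ℕ) : ℝ) / 268435456) (((91291648 : ℕ) : ℝ) / 268435456) :=
  grpMM Q334_0.ok Q334_0.cov ok6 ok6 ok7 (by norm_num) (by norm_num)
theorem m_334_1 : MM cl6 cl6 cl7 (((91226112 : ℕ) : ℝ) / 268435456) (((150339584 : ℕ) : ℝ) / 268435456) :=
  grpMM Q334_1.ok Q334_1.cov ok6 ok6 ok7 (by norm_num) (by norm_num)
theorem m_334_c1 : MM cl6 cl6 cl7 (((0 : ℕ) : ℝ) / 268435456) (((150339584 : ℕ) : ℝ) / 268435456) :=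
  chMM m_334_0 m_334_1 (by norm_num) (by norm_num) (by norm_num)
theorem m_334_2 : MM cl6 cl6 cl7 (((150274048 : ℕ) : ℝ) / 268435456) (((209387520 : ℕ) : ℝ) / 268435456) :=
  grpMM Q334_2.ok Q334_2.cov ok6 ok6 ok7 (by norm_num) (by norm_num)
theorem m_334_c2 : MM cl6 cl6 cl7 (((0 : ℕ) : ℝ) / 268435456) (((209387520 : ℕ) : ℝ) / 268435456) :=
  chMM m_334_c1 m_334_2 (by norm_num) (by norm_num) (by norm_num)
theorem m_334_3 : MM cl6 cl6 cl7 (((209321984 : ℕ) : ℝ) / 268435456) (((268435456 : ℕ) : ℝ) / 268435456) :=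
  grpMM Q334_3.ok Q334_3.cov ok6 ok6 ok7 (by norm_num) (by norm_num)
theorem m_334_c3 : MM cl6 cl6 cl7 (((0 : ℕ) : ℝ) / 268435456) (((268435456 : ℕ) : ℝ) / 268435456) :=
  chMM m_334_c2 m_334_3 (by norm_num) (by norm_num) (by norm_num)
theorem m_334 : MM cl6 cl6 cl7 0 1 := by
  have h := m_334_c3
  norm_num at h
  exact h
theorem m_335_0 : MM cl6 cl6 cl9 (((0 : ℕ) : ℝ) / 268435456) (((91291648 : ℕ) : ℝ) / 268435456) :=
  grpMM Q335_0.ok Q335_0.cov ok6 ok6 ok9 (by norm_num) (by norm_num)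
theorem m_335_1 : MM cl6 cl6 cl9 (((91226112 : ℕ) : ℝ) / 268435456) (((150339584 : ℕ) : ℝ) / 268435456) :=
  grpMM Q335_1.ok Q335_1.cov ok6 ok6 ok9 (by norm_num) (by norm_num)
theorem m_335_c1 : MM cl6 cl6 cl9 (((0 : ℕ) : ℝ) / 268435456) (((150339584 : ℕ) : ℝ) / 268435456) :=
  chMM m_335_0 m_335_1 (by norm_num) (by norm_num) (by norm_num)
theorem m_335_2 : MM cl6 cl6 cl9 (((150274048 : ℕ) : ℝ) / 268435456) (((209387520 : ℕ) : ℝ) / 268435456) :=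
  grpMM Q335_2.ok Q335_2.cov ok6 ok6 ok9 (by norm_num) (by norm_num)
theorem m_335_c2 : MM cl6 cl6 cl9 (((0 : ℕ) : ℝ) / 268435456) (((209387520 : ℕ) : ℝ) / 268435456) :=
  chMM m_335_c1 m_335_2 (by norm_num) (by norm_num) (by norm_num)
theorem m_335_3 : MM cl6 cl6 cl9 (((209321984 : ℕ) : ℝ) / 268435456) (((268435456 : ℕ) : ℝ) / 268435456) :=
  grpMM Q335_3.ok Q335_3.cov ok6 ok6 ok9 (by norm_num) (by norm_num)
theorem m_335_c3 : MM cl6 cl6 cl9 (((0 : ℕ) : ℝ) / 268435456) (((268435456 : ℕ) : ℝ) / 268435456) :=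
  chMM m_335_c2 m_335_3 (by norm_num) (by norm_num) (by norm_num)
theorem m_335 : MM cl6 cl6 cl9 0 1 := by
  have h := m_335_c3
  norm_num at h
  exact h
theorem m_336_0 : MM cl6 cl6 cl13 (((0 : ℕ) : ℝ) / 268435456) (((91291648 : ℕ) : ℝ) / 268435456) :=
  grpMM Q336_0.ok Q336_0.cov ok6 ok6 ok13 (by norm_num) (by norm_num)
theorem m_336_1 : MM cl6 cl6 cl13 (((91226112 : ℕ) : ℝ) / 268435456) (((150339584 : ℕ) : ℝ) / 268435456) :=
  grpMM Q336_1.ok Q336_1.cov ok6 ok6 ok13 (by norm_num) (by norm_num)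
theorem m_336_c1 : MM cl6 cl6 cl13 (((0 : ℕ) : ℝ) / 268435456) (((150339584 : ℕ) : ℝ) / 268435456) :=
  chMM m_336_0 m_336_1 (by norm_num) (by norm_num) (by norm_num)
theorem m_336_2 : MM cl6 cl6 cl13 (((150274048 : ℕ) : ℝ) / 268435456) (((209387520 : ℕ) : ℝ) / 268435456) :=
  grpMM Q336_2.ok Q336_2.cov ok6 ok6 ok13 (by norm_num) (by norm_num)
theorem m_336_c2 : MM cl6 cl6 cl13 (((0 : ℕ) : ℝ) / 268435456) (((209387520 : ℕ) : ℝ) / 268435456) :=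
  chMM m_336_c1 m_336_2 (by norm_num) (by norm_num) (by norm_num)
theorem m_336_3 : MM cl6 cl6 cl13 (((209321984 : ℕ) : ℝ) / 268435456) (((268435456 : ℕ) : ℝ) / 268435456) :=
  grpMM Q336_3.ok Q336_3.cov ok6 ok6 ok13 (by norm_num) (by norm_num)
theorem m_336_c3 : MM cl6 cl6 cl13 (((0 : ℕ) : ℝ) / 268435456) (((268435456 : ℕ) : ℝ) / 268435456) :=
  chMM m_336_c2 m_336_3 (by norm_num) (by norm_num) (by norm_num)
theorem m_336 : MM cl6 cl6 cl13 0 1 := by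
  have h := m_336_c3
  norm_num at h
  exact h
theorem m_344_0 : MM cl6 cl7 cl7 (((0 : ℕ) : ℝ) / 268435456) (((91291648 : ℕ) : ℝ) / 268435456) :=
  grpMM Q344_0.ok Q344_0.cov ok6 ok7 ok7 (by norm_num) (by norm_num)
theorem m_344_1 : MM cl6 cl7 cl7 (((91226112 : ℕ) : ℝ) / 268435456) (((150339584 : ℕ) : ℝ) / 268435456) :=
  grpMM Q344_1.ok Q344_1.cov ok6 ok7 ok7 (by norm_num) (by norm_num)
theorem m_344_c1 : MM cl6 cl7 cl7 (((0 : ℕ) : ℝ) / 268435456) (((150339584 : ℕ) : ℝ) / 268435456) :=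
  chMM m_344_0 m_344_1 (by norm_num) (by norm_num) (by norm_num)
theorem m_344_2 : MM cl6 cl7 cl7 (((150274048 : ℕ) : ℝ) / 268435456) (((209387520 : ℕ) : ℝ) / 268435456) :=
  grpMM Q344_2.ok Q344_2.cov ok6 ok7 ok7 (by norm_num) (by norm_num)
theorem m_344_c2 : MM cl6 cl7 cl7 (((0 : ℕ) : ℝ) / 268435456) (((209387520 : ℕ) : ℝ) / 268435456) :=
  chMM m_344_c1 m_344_2 (by norm_num) (by norm_num) (by norm_num)
theorem m_344_3 : MM cl6 cl7 cl7 (((209321984 : ℕ) : ℝ) / 268435456) (((268435456 : ℕ) : ℝ) / 268435456) :=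
  grpMM Q344_3.ok Q344_3.cov ok6 ok7 ok7 (by norm_num) (by norm_num)
theorem m_344_c3 : MM cl6 cl7 cl7 (((0 : ℕ) : ℝ) / 268435456) (((268435456 : ℕ) : ℝ) / 268435456) :=
  chMM m_344_c2 m_344_3 (by norm_num) (by norm_num) (by norm_num)
theorem m_344 : MM cl6 cl7 cl7 0 1 := by
  have h := m_344_c3
  norm_num at h
  exact h
theorem m_345_0 : MM cl6 cl7 cl9 (((0 : ℕ) : ℝ) / 268435456) (((91291648 : ℕ) : ℝ) / 268435456) :=
  grpMM Q345_0.ok Q345_0.cov ok6 ok7 ok9 (by norm_num) (by norm_num)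
theorem m_345_1 : MM cl6 cl7 cl9 (((91226112 : ℕ) : ℝ) / 268435456) (((150339584 : ℕ) : ℝ) / 268435456) :=
  grpMM Q345_1.ok Q345_1.cov ok6 ok7 ok9 (by norm_num) (by norm_num)
theorem m_345_c1 : MM cl6 cl7 cl9 (((0 : ℕ) : ℝ) / 268435456) (((150339584 : ℕ) : ℝ) / 268435456) :=
  chMM m_345_0 m_345_1 (by norm_num) (by norm_num) (by norm_num)
theorem m_345_2 : MM cl6 cl7 cl9 (((150274048 : ℕ) : ℝ) / 268435456) (((209387520 : ℕ) : ℝ) / 268435456) :=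
  grpMM Q345_2.ok Q345_2.cov ok6 ok7 ok9 (by norm_num) (by norm_num)
theorem m_345_c2 : MM cl6 cl7 cl9 (((0 : ℕ) : ℝ) / 268435456) (((209387520 : ℕ) : ℝ) / 268435456) :=
  chMM m_345_c1 m_345_2 (by norm_num) (by norm_num) (by norm_num)
theorem m_345_3 : MM cl6 cl7 cl9 (((209321984 : ℕ) : ℝ) / 268435456) (((268435456 : ℕ) : ℝ) / 268435456) :=
  grpMM Q345_3.ok Q345_3.cov ok6 ok7 ok9 (by norm_num) (by norm_num)
theorem m_345_c3 : MM cl6 cl7 cl9 (((0 : ℕ) : ℝ) / 268435456) (((268435456 : ℕ) : ℝ) / 268435456) :=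
  chMM m_345_c2 m_345_3 (by norm_num) (by norm_num) (by norm_num)
theorem m_345 : MM cl6 cl7 cl9 0 1 := by
  have h := m_345_c3
  norm_num at h
  exact h
theorem m_346_0 : MM cl6 cl7 cl13 (((0 : ℕ) : ℝ) / 268435456) (((91291648 : ℕ) : ℝ) / 268435456) :=
  grpMM Q346_0.ok Q346_0.cov ok6 ok7 ok13 (by norm_num) (by norm_num)
theorem m_346_1 : MM cl6 cl7 cl13 (((91226112 : ℕ) : ℝ) / 268435456) (((150339584 : ℕ) : ℝ) / 268435456) :=
  grpMM Q346_1.ok Q346_1.cov ok6 ok7 ok13 (by norm_num) (by norm_num)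
theorem m_346_c1 : MM cl6 cl7 cl13 (((0 : ℕ) : ℝ) / 268435456) (((150339584 : ℕ) : ℝ) / 268435456) :=
  chMM m_346_0 m_346_1 (by norm_num) (by norm_num) (by norm_num)
theorem m_346_2 : MM cl6 cl7 cl13 (((150274048 : ℕ) : ℝ) / 268435456) (((209387520 : ℕ) : ℝ) / 268435456) :=
  grpMM Q346_2.ok Q346_2.cov ok6 ok7 ok13 (by norm_num) (by norm_num)
theorem m_346_c2 : MM cl6 cl7 cl13 (((0 : ℕ) : ℝ) / 268435456) (((209387520 : ℕ) : ℝ) / 268435456) :=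
  chMM m_346_c1 m_346_2 (by norm_num) (by norm_num) (by norm_num)
theorem m_346_3 : MM cl6 cl7 cl13 (((209321984 : ℕ) : ℝ) / 268435456) (((268435456 : ℕ) : ℝ) / 268435456) :=
  grpMM Q346_3.ok Q346_3.cov ok6 ok7 ok13 (by norm_num) (by norm_num)
theorem m_346_c3 : MM cl6 cl7 cl13 (((0 : ℕ) : ℝ) / 268435456) (((268435456 : ℕ) : ℝ) / 268435456) :=
  chMM m_346_c2 m_346_3 (by norm_num) (by norm_num) (by norm_num)
theorem m_346 : MM cl6 cl7 cl13 0 1 := by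
  have h := m_346_c3
  norm_num at h
  exact h
theorem m_355_0 : MM cl6 cl9 cl9 (((0 : ℕ) : ℝ) / 268435456) (((91291648 : ℕ) : ℝ) / 268435456) :=
  grpMM Q355_0.ok Q355_0.cov ok6 ok9 ok9 (by norm_num) (by norm_num)
theorem m_355_1 : MM cl6 cl9 cl9 (((91226112 : ℕ) : ℝ) / 268435456) (((150339584 : ℕ) : ℝ) / 268435456) :=
  grpMM Q355_1.ok Q355_1.cov ok6 ok9 ok9 (by norm_num) (by norm_num)
theorem m_355_c1 : MM cl6 cl9 cl9 (((0 : ℕ) : ℝ) / 268435456) (((150339584 : ℕ) : ℝ) / 268435456) :=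
  chMM m_355_0 m_355_1 (by norm_num) (by norm_num) (by norm_num)
theorem m_355_2 : MM cl6 cl9 cl9 (((150274048 : ℕ) : ℝ) / 268435456) (((209387520 : ℕ) : ℝ) / 268435456) :=
  grpMM Q355_2.ok Q355_2.cov ok6 ok9 ok9 (by norm_num) (by norm_num)
theorem m_355_c2 : MM cl6 cl9 cl9 (((0 : ℕ) : ℝ) / 268435456) (((209387520 : ℕ) : ℝ) / 268435456) :=
  chMM m_355_c1 m_355_2 (by norm_num) (by norm_num) (by norm_num)
theorem m_355_3 : MM cl6 cl9 cl9 (((209321984 : ℕ) : ℝ) / 268435456) (((268435456 : ℕ) : ℝ) / 268435456) :=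
  grpMM Q355_3.ok Q355_3.cov ok6 ok9 ok9 (by norm_num) (by norm_num)
theorem m_355_c3 : MM cl6 cl9 cl9 (((0 : ℕ) : ℝ) / 268435456) (((268435456 : ℕ) : ℝ) / 268435456) :=
  chMM m_355_c2 m_355_3 (by norm_num) (by norm_num) (by norm_num)
theorem m_355 : MM cl6 cl9 cl9 0 1 := by
  have h := m_355_c3
  norm_num at h
  exact h
theorem m_356_0 : MM cl6 cl9 cl13 (((0 : ℕ) : ℝ) / 268435456) (((91291648 : ℕ) : ℝ) / 268435456) :=
  grpMM Q356_0.ok Q356_0.cov ok6 ok9 ok13 (by norm_num) (by norm_num)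
theorem m_356_1 : MM cl6 cl9 cl13 (((91226112 : ℕ) : ℝ) / 268435456) (((150339584 : ℕ) : ℝ) / 268435456) :=
  grpMM Q356_1.ok Q356_1.cov ok6 ok9 ok13 (by norm_num) (by norm_num)
theorem m_356_c1 : MM cl6 cl9 cl13 (((0 : ℕ) : ℝ) / 268435456) (((150339584 : ℕ) : ℝ) / 268435456) :=
  chMM m_356_0 m_356_1 (by norm_num) (by norm_num) (by norm_num)
theorem m_356_2 : MM cl6 cl9 cl13 (((150274048 : ℕ) : ℝ) / 268435456) (((209387520 : ℕ) : ℝ) / 268435456) :=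
  grpMM Q356_2.ok Q356_2.cov ok6 ok9 ok13 (by norm_num) (by norm_num)
theorem m_356_c2 : MM cl6 cl9 cl13 (((0 : ℕ) : ℝ) / 268435456) (((209387520 : ℕ) : ℝ) / 268435456) :=
  chMM m_356_c1 m_356_2 (by norm_num) (by norm_num) (by norm_num)
theorem m_356_3 : MM cl6 cl9 cl13 (((209321984 : ℕ) : ℝ) / 268435456) (((268435456 : ℕ) : ℝ) / 268435456) :=
  grpMM Q356_3.ok Q356_3.cov ok6 ok9 ok13 (by norm_num) (by norm_num)
theorem m_356_c3 : MM cl6 cl9 cl13 (((0 : ℕ) : ℝ) / 268435456) (((268435456 : ℕ) : ℝ) / 268435456) :=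
  chMM m_356_c2 m_356_3 (by norm_num) (by norm_num) (by norm_num)
theorem m_356 : MM cl6 cl9 cl13 0 1 := by
  have h := m_356_c3
  norm_num at h
  exact h
theorem m_366_0 : MM cl6 cl13 cl13 (((0 : ℕ) : ℝ) / 268435456) (((91291648 : ℕ) : ℝ) / 268435456) :=
  grpMM Q366_0.ok Q366_0.cov ok6 ok13 ok13 (by norm_num) (by norm_num)
theorem m_366_1 : MM cl6 cl13 cl13 (((91226112 : ℕ) : ℝ) / 268435456) (((150339584 : ℕ) : ℝ) / 268435456) :=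
  grpMM Q366_1.ok Q366_1.cov ok6 ok13 ok13 (by norm_num) (by norm_num)
theorem m_366_c1 : MM cl6 cl13 cl13 (((0 : ℕ) : ℝ) / 268435456) (((150339584 : ℕ) : ℝ) / 268435456) :=
  chMM m_366_0 m_366_1 (by norm_num) (by norm_num) (by norm_num)
theorem m_366_2 : MM cl6 cl13 cl13 (((150274048 : ℕ) : ℝ) / 268435456) (((209387520 : ℕ) : ℝ) / 268435456) :=
  grpMM Q366_2.ok Q366_2.cov ok6 ok13 ok13 (by norm_num) (by norm_num)
theorem m_366_c2 : MM cl6 cl13 cl13 (((0 : ℕ) : ℝ) / 268435456) (((209387520 : ℕ) : ℝ) / 268435456) :=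
  chMM m_366_c1 m_366_2 (by norm_num) (by norm_num) (by norm_num)
theorem m_366_3 : MM cl6 cl13 cl13 (((209321984 : ℕ) : ℝ) / 268435456) (((268435456 : ℕ) : ℝ) / 268435456) :=
  grpMM Q366_3.ok Q366_3.cov ok6 ok13 ok13 (by norm_num) (by norm_num)
theorem m_366_c3 : MM cl6 cl13 cl13 (((0 : ℕ) : ℝ) / 268435456) (((268435456 : ℕ) : ℝ) / 268435456) :=
  chMM m_366_c2 m_366_3 (by norm_num) (by norm_num) (by norm_num)
theorem m_366 : MM cl6 cl13 cl13 0 1 := by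
  have h := m_366_c3
  norm_num at h
  exact h
theorem m_444_0 : MM cl7 cl7 cl7 (((0 : ℕ) : ℝ) / 268435456) (((91291648 : ℕ) : ℝ) / 268435456) :=
  grpMM Q444_0.ok Q444_0.cov ok7 ok7 ok7 (by norm_num) (by norm_num)
theorem m_444_1 : MM cl7 cl7 cl7 (((91226112 : ℕ) : ℝ) / 268435456) (((150339584 : ℕ) : ℝ) / 268435456) :=
  grpMM Q444_1.ok Q444_1.cov ok7 ok7 ok7 (by norm_num) (by norm_num)
theorem m_444_c1 : MM cl7 cl7 cl7 (((0 : ℕ) : ℝ) / 268435456) (((150339584 : ℕ) : ℝ) / 268435456) :=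
  chMM m_444_0 m_444_1 (by norm_num) (by norm_num) (by norm_num)
theorem m_444_2 : MM cl7 cl7 cl7 (((150274048 : ℕ) : ℝ) / 268435456) (((209387520 : ℕ) : ℝ) / 268435456) :=
  grpMM Q444_2.ok Q444_2.cov ok7 ok7 ok7 (by norm_num) (by norm_num)
theorem m_444_c2 : MM cl7 cl7 cl7 (((0 : ℕ) : ℝ) / 268435456) (((209387520 : ℕ) : ℝ) / 268435456) :=
  chMM m_444_c1 m_444_2 (by norm_num) (by norm_num) (by norm_num)
theorem m_444_3 : MM cl7 cl7 cl7 (((209321984 : ℕ) : ℝ) / 268435456) (((268435456 : ℕ) : ℝ) / 268435456) :=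
  grpMM Q444_3.ok Q444_3.cov ok7 ok7 ok7 (by norm_num) (by norm_num)
theorem m_444_c3 : MM cl7 cl7 cl7 (((0 : ℕ) : ℝ) / 268435456) (((268435456 : ℕ) : ℝ) / 268435456) :=
  chMM m_444_c2 m_444_3 (by norm_num) (by norm_num) (by norm_num)
theorem m_444 : MM cl7 cl7 cl7 0 1 := by
  have h := m_444_c3
  norm_num at h
  exact h
theorem m_445_0 : MM cl7 cl7 cl9 (((0 : ℕ) : ℝ) / 268435456) (((91291648 : ℕ) : ℝ) / 268435456) :=
  grpMM Q445_0.ok Q445_0.cov ok7 ok7 ok9 (by norm_num) (by norm_num)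
theorem m_445_1 : MM cl7 cl7 cl9 (((91226112 : ℕ) : ℝ) / 268435456) (((150339584 : ℕ) : ℝ) / 268435456) :=
  grpMM Q445_1.ok Q445_1.cov ok7 ok7 ok9 (by norm_num) (by norm_num)
theorem m_445_c1 : MM cl7 cl7 cl9 (((0 : ℕ) : ℝ) / 268435456) (((150339584 : ℕ) : ℝ) / 268435456) :=
  chMM m_445_0 m_445_1 (by norm_num) (by norm_num) (by norm_num)
theorem m_445_2 : MM cl7 cl7 cl9 (((150274048 : ℕ) : ℝ) / 268435456) (((209387520 : ℕ) : ℝ) / 268435456) :=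
  grpMM Q445_2.ok Q445_2.cov ok7 ok7 ok9 (by norm_num) (by norm_num)
theorem m_445_c2 : MM cl7 cl7 cl9 (((0 : ℕ) : ℝ) / 268435456) (((209387520 : ℕ) : ℝ) / 268435456) :=
  chMM m_445_c1 m_445_2 (by norm_num) (by norm_num) (by norm_num)
theorem m_445_3 : MM cl7 cl7 cl9 (((209321984 : ℕ) : ℝ) / 268435456) (((268435456 : ℕ) : ℝ) / 268435456) :=
  grpMM Q445_3.ok Q445_3.cov ok7 ok7 ok9 (by norm_num) (by norm_num)
theorem m_445_c3 : MM cl7 cl7 cl9 (((0 : ℕ) : ℝ) / 268435456) (((268435456 : ℕ) : ℝ) / 268435456) :=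
  chMM m_445_c2 m_445_3 (by norm_num) (by norm_num) (by norm_num)
theorem m_445 : MM cl7 cl7 cl9 0 1 := by
  have h := m_445_c3
  norm_num at h
  exact h
theorem m_446_0 : MM cl7 cl7 cl13 (((0 : ℕ) : ℝ) / 268435456) (((91291648 : ℕ) : ℝ) / 268435456) :=
  grpMM Q446_0.ok Q446_0.cov ok7 ok7 ok13 (by norm_num) (by norm_num)
theorem m_446_1 : MM cl7 cl7 cl13 (((91226112 : ℕ) : ℝ) / 268435456) (((150339584 : ℕ) : ℝ) / 268435456) :=
  grpMM Q446_1.ok Q446_1.cov ok7 ok7 ok13 (by norm_num) (by norm_num)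
theorem m_446_c1 : MM cl7 cl7 cl13 (((0 : ℕ) : ℝ) / 268435456) (((150339584 : ℕ) : ℝ) / 268435456) :=
  chMM m_446_0 m_446_1 (by norm_num) (by norm_num) (by norm_num)
theorem m_446_2 : MM cl7 cl7 cl13 (((150274048 : ℕ) : ℝ) / 268435456) (((209387520 : ℕ) : ℝ) / 268435456) :=
  grpMM Q446_2.ok Q446_2.cov ok7 ok7 ok13 (by norm_num) (by norm_num)
theorem m_446_c2 : MM cl7 cl7 cl13 (((0 : ℕ) : ℝ) / 268435456) (((209387520 : ℕ) : ℝ) / 268435456) :=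
  chMM m_446_c1 m_446_2 (by norm_num) (by norm_num) (by norm_num)
theorem m_446_3 : MM cl7 cl7 cl13 (((209321984 : ℕ) : ℝ) / 268435456) (((268435456 : ℕ) : ℝ) / 268435456) :=
  grpMM Q446_3.ok Q446_3.cov ok7 ok7 ok13 (by norm_num) (by norm_num)
theorem m_446_c3 : MM cl7 cl7 cl13 (((0 : ℕ) : ℝ) / 268435456) (((268435456 : ℕ) : ℝ) / 268435456) :=
  chMM m_446_c2 m_446_3 (by norm_num) (by norm_num) (by norm_num)
theorem m_446 : MM cl7 cl7 cl13 0 1 := by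
  have h := m_446_c3
  norm_num at h
  exact h
theorem m_455_0 : MM cl7 cl9 cl9 (((0 : ℕ) : ℝ) / 268435456) (((91291648 : ℕ) : ℝ) / 268435456) :=
  grpMM Q455_0.ok Q455_0.cov ok7 ok9 ok9 (by norm_num) (by norm_num)
theorem m_455_1 : MM cl7 cl9 cl9 (((91226112 : ℕ) : ℝ) / 268435456) (((150339584 : ℕ) : ℝ) / 268435456) :=
  grpMM Q455_1.ok Q455_1.cov ok7 ok9 ok9 (by norm_num) (by norm_num)
theorem m_455_c1 : MM cl7 cl9 cl9 (((0 : ℕ) : ℝ) / 268435456) (((150339584 : ℕ) : ℝ) / 268435456) :=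
  chMM m_455_0 m_455_1 (by norm_num) (by norm_num) (by norm_num)
theorem m_455_2 : MM cl7 cl9 cl9 (((150274048 : ℕ) : ℝ) / 268435456) (((209387520 : ℕ) : ℝ) / 268435456) :=
  grpMM Q455_2.ok Q455_2.cov ok7 ok9 ok9 (by norm_num) (by norm_num)
theorem m_455_c2 : MM cl7 cl9 cl9 (((0 : ℕ) : ℝ) / 268435456) (((209387520 : ℕ) : ℝ) / 268435456) :=
  chMM m_455_c1 m_455_2 (by norm_num) (by norm_num) (by norm_num)
theorem m_455_3 : MM cl7 cl9 cl9 (((209321984 : ℕ) : ℝ) / 268435456) (((268435456 : ℕ) : ℝ) / 268435456) :=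
  grpMM Q455_3.ok Q455_3.cov ok7 ok9 ok9 (by norm_num) (by norm_num)
theorem m_455_c3 : MM cl7 cl9 cl9 (((0 : ℕ) : ℝ) / 268435456) (((268435456 : ℕ) : ℝ) / 268435456) :=
  chMM m_455_c2 m_455_3 (by norm_num) (by norm_num) (by norm_num)
theorem m_455 : MM cl7 cl9 cl9 0 1 := by
  have h := m_455_c3
  norm_num at h
  exact h
theorem m_456_0 : MM cl7 cl9 cl13 (((0 : ℕ) : ℝ) / 268435456) (((91291648 : ℕ) : ℝ) / 268435456) :=
  grpMM Q456_0.ok Q456_0.cov ok7 ok9 ok13 (by norm_num) (by norm_num)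
theorem m_456_1 : MM cl7 cl9 cl13 (((91226112 : ℕ) : ℝ) / 268435456) (((150339584 : ℕ) : ℝ) / 268435456) :=
  grpMM Q456_1.ok Q456_1.cov ok7 ok9 ok13 (by norm_num) (by norm_num)
theorem m_456_c1 : MM cl7 cl9 cl13 (((0 : ℕ) : ℝ) / 268435456) (((150339584 : ℕ) : ℝ) / 268435456) :=
  chMM m_456_0 m_456_1 (by norm_num) (by norm_num) (by norm_num)
theorem m_456_2 : MM cl7 cl9 cl13 (((150274048 : ℕ) : ℝ) / 268435456) (((209387520 : ℕ) : ℝ) / 268435456) :=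
  grpMM Q456_2.ok Q456_2.cov ok7 ok9 ok13 (by norm_num) (by norm_num)
theorem m_456_c2 : MM cl7 cl9 cl13 (((0 : ℕ) : ℝ) / 268435456) (((209387520 : ℕ) : ℝ) / 268435456) :=
  chMM m_456_c1 m_456_2 (by norm_num) (by norm_num) (by norm_num)
theorem m_456_3 : MM cl7 cl9 cl13 (((209321984 : ℕ) : ℝ) / 268435456) (((268435456 : ℕ) : ℝ) / 268435456) :=
  grpMM Q456_3.ok Q456_3.cov ok7 ok9 ok13 (by norm_num) (by norm_num)
theorem m_456_c3 : MM cl7 cl9 cl13 (((0 : ℕ) : ℝ) / 268435456) (((268435456 : ℕ) : ℝ) / 268435456) :=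
  chMM m_456_c2 m_456_3 (by norm_num) (by norm_num) (by norm_num)
theorem m_456 : MM cl7 cl9 cl13 0 1 := by
  have h := m_456_c3
  norm_num at h
  exact h
theorem m_466_0 : MM cl7 cl13 cl13 (((0 : ℕ) : ℝ) / 268435456) (((91291648 : ℕ) : ℝ) / 268435456) :=
  grpMM Q466_0.ok Q466_0.cov ok7 ok13 ok13 (by norm_num) (by norm_num)
theorem m_466_1 : MM cl7 cl13 cl13 (((91226112 : ℕ) : ℝ) / 268435456) (((150339584 : ℕ) : ℝ) / 268435456) :=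
  grpMM Q466_1.ok Q466_1.cov ok7 ok13 ok13 (by norm_num) (by norm_num)
theorem m_466_c1 : MM cl7 cl13 cl13 (((0 : ℕ) : ℝ) / 268435456) (((150339584 : ℕ) : ℝ) / 268435456) :=
  chMM m_466_0 m_466_1 (by norm_num) (by norm_num) (by norm_num)
theorem m_466_2 : MM cl7 cl13 cl13 (((150274048 : ℕ) : ℝ) / 268435456) (((209387520 : ℕ) : ℝ) / 268435456) :=
  grpMM Q466_2.ok Q466_2.cov ok7 ok13 ok13 (by norm_num) (by norm_num)
theorem m_466_c2 : MM cl7 cl13 cl13 (((0 : ℕ) : ℝ) / 268435456) (((209387520 : ℕ) : ℝ) / 268435456) :=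
  chMM m_466_c1 m_466_2 (by norm_num) (by norm_num) (by norm_num)
theorem m_466_3 : MM cl7 cl13 cl13 (((209321984 : ℕ) : ℝ) / 268435456) (((268435456 : ℕ) : ℝ) / 268435456) :=
  grpMM Q466_3.ok Q466_3.cov ok7 ok13 ok13 (by norm_num) (by norm_num)
theorem m_466_c3 : MM cl7 cl13 cl13 (((0 : ℕ) : ℝ) / 268435456) (((268435456 : ℕ) : ℝ) / 268435456) :=
  chMM m_466_c2 m_466_3 (by norm_num) (by norm_num) (by norm_num)
theorem m_466 : MM cl7 cl13 cl13 0 1 := by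
  have h := m_466_c3
  norm_num at h
  exact h
theorem m_555_0 : MM cl9 cl9 cl9 (((0 : ℕ) : ℝ) / 268435456) (((91291648 : ℕ) : ℝ) / 268435456) :=
  grpMM Q555_0.ok Q555_0.cov ok9 ok9 ok9 (by norm_num) (by norm_num)
theorem m_555_1 : MM cl9 cl9 cl9 (((91226112 : ℕ) : ℝ) / 268435456) (((150339584 : ℕ) : ℝ) / 268435456) :=
  grpMM Q555_1.ok Q555_1.cov ok9 ok9 ok9 (by norm_num) (by norm_num)
theorem m_555_c1 : MM cl9 cl9 cl9 (((0 : ℕ) : ℝ) / 268435456) (((150339584 : ℕ) : ℝ) / 268435456) :=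
  chMM m_555_0 m_555_1 (by norm_num) (by norm_num) (by norm_num)
theorem m_555_2 : MM cl9 cl9 cl9 (((150274048 : ℕ) : ℝ) / 268435456) (((209387520 : ℕ) : ℝ) / 268435456) :=
  grpMM Q555_2.ok Q555_2.cov ok9 ok9 ok9 (by norm_num) (by norm_num)
theorem m_555_c2 : MM cl9 cl9 cl9 (((0 : ℕ) : ℝ) / 268435456) (((209387520 : ℕ) : ℝ) / 268435456) :=
  chMM m_555_c1 m_555_2 (by norm_num) (by norm_num) (by norm_num)
theorem m_555_3 : MM cl9 cl9 cl9 (((209321984 : ℕ) : ℝ) / 268435456) (((268435456 : ℕ) : ℝ) / 268435456) :=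
  grpMM Q555_3.ok Q555_3.cov ok9 ok9 ok9 (by norm_num) (by norm_num)
theorem m_555_c3 : MM cl9 cl9 cl9 (((0 : ℕ) : ℝ) / 268435456) (((268435456 : ℕ) : ℝ) / 268435456) :=
  chMM m_555_c2 m_555_3 (by norm_num) (by norm_num) (by norm_num)
theorem m_555 : MM cl9 cl9 cl9 0 1 := by
  have h := m_555_c3
  norm_num at h
  exact h
theorem m_556_0 : MM cl9 cl9 cl13 (((0 : ℕ) : ℝ) / 268435456) (((91291648 : ℕ) : ℝ) / 268435456) :=
  grpMM Q556_0.ok Q556_0.cov ok9 ok9 ok13 (by norm_num) (by norm_num)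
theorem m_556_1 : MM cl9 cl9 cl13 (((91226112 : ℕ) : ℝ) / 268435456) (((150339584 : ℕ) : ℝ) / 268435456) :=
  grpMM Q556_1.ok Q556_1.cov ok9 ok9 ok13 (by norm_num) (by norm_num)
theorem m_556_c1 : MM cl9 cl9 cl13 (((0 : ℕ) : ℝ) / 268435456) (((150339584 : ℕ) : ℝ) / 268435456) :=
  chMM m_556_0 m_556_1 (by norm_num) (by norm_num) (by norm_num)
theorem m_556_2 : MM cl9 cl9 cl13 (((150274048 : ℕ) : ℝ) / 268435456) (((209387520 : ℕ) : ℝ) / 268435456) :=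
  grpMM Q556_2.ok Q556_2.cov ok9 ok9 ok13 (by norm_num) (by norm_num)
theorem m_556_c2 : MM cl9 cl9 cl13 (((0 : ℕ) : ℝ) / 268435456) (((209387520 : ℕ) : ℝ) / 268435456) :=
  chMM m_556_c1 m_556_2 (by norm_num) (by norm_num) (by norm_num)
theorem m_556_3 : MM cl9 cl9 cl13 (((209321984 : ℕ) : ℝ) / 268435456) (((268435456 : ℕ) : ℝ) / 268435456) :=
  grpMM Q556_3.ok Q556_3.cov ok9 ok9 ok13 (by norm_num) (by norm_num)
theorem m_556_c3 : MM cl9 cl9 cl13 (((0 : ℕ) : ℝ) / 268435456) (((268435456 : ℕ) : ℝ) / 268435456) :=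
  chMM m_556_c2 m_556_3 (by norm_num) (by norm_num) (by norm_num)
theorem m_556 : MM cl9 cl9 cl13 0 1 := by
  have h := m_556_c3
  norm_num at h
  exact h
theorem m_566_0 : MM cl9 cl13 cl13 (((0 : ℕ) : ℝ) / 268435456) (((91291648 : ℕ) : ℝ) / 268435456) :=
  grpMM Q566_0.ok Q566_0.cov ok9 ok13 ok13 (by norm_num) (by norm_num)
theorem m_566_1 : MM cl9 cl13 cl13 (((91226112 : ℕ) : ℝ) / 268435456) (((150339584 : ℕ) : ℝ) / 268435456) :=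
  grpMM Q566_1.ok Q566_1.cov ok9 ok13 ok13 (by norm_num) (by norm_num)
theorem m_566_c1 : MM cl9 cl13 cl13 (((0 : ℕ) : ℝ) / 268435456) (((150339584 : ℕ) : ℝ) / 268435456) :=
  chMM m_566_0 m_566_1 (by norm_num) (by norm_num) (by norm_num)
theorem m_566_2 : MM cl9 cl13 cl13 (((150274048 : ℕ) : ℝ) / 268435456) (((209387520 : ℕ) : ℝ) / 268435456) :=
  grpMM Q566_2.ok Q566_2.cov ok9 ok13 ok13 (by norm_num) (by norm_num)
theorem m_566_c2 : MM cl9 cl13 cl13 (((0 : ℕ) : ℝ) / 268435456) (((209387520 : ℕ) : ℝ) / 268435456) :=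
  chMM m_566_c1 m_566_2 (by norm_num) (by norm_num) (by norm_num)
theorem m_566_3 : MM cl9 cl13 cl13 (((209321984 : ℕ) : ℝ) / 268435456) (((268435456 : ℕ) : ℝ) / 268435456) :=
  grpMM Q566_3.ok Q566_3.cov ok9 ok13 ok13 (by norm_num) (by norm_num)
theorem m_566_c3 : MM cl9 cl13 cl13 (((0 : ℕ) : ℝ) / 268435456) (((268435456 : ℕ) : ℝ) / 268435456) :=
  chMM m_566_c2 m_566_3 (by norm_num) (by norm_num) (by norm_num)
theorem m_566 : MM cl9 cl13 cl13 0 1 := by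
  have h := m_566_c3
  norm_num at h
  exact h
theorem m_666_0 : MM cl13 cl13 cl13 (((0 : ℕ) : ℝ) / 268435456) (((91291648 : ℕ) : ℝ) / 268435456) :=
  grpMM Q666_0.ok Q666_0.cov ok13 ok13 ok13 (by norm_num) (by norm_num)
theorem m_666_1 : MM cl13 cl13 cl13 (((91226112 : ℕ) : ℝ) / 268435456) (((150339584 : ℕ) : ℝ) / 268435456) :=
  grpMM Q666_1.ok Q666_1.cov ok13 ok13 ok13 (by norm_num) (by norm_num)
theorem m_666_c1 : MM cl13 cl13 cl13 (((0 : ℕ) : ℝ) / 268435456) (((150339584 : ℕ) : ℝ) / 268435456) :=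
  chMM m_666_0 m_666_1 (by norm_num) (by norm_num) (by norm_num)
theorem m_666_2 : MM cl13 cl13 cl13 (((150274048 : ℕ) : ℝ) / 268435456) (((209387520 : ℕ) : ℝ) / 268435456) :=
  grpMM Q666_2.ok Q666_2.cov ok13 ok13 ok13 (by norm_num) (by norm_num)
theorem m_666_c2 : MM cl13 cl13 cl13 (((0 : ℕ) : ℝ) / 268435456) (((209387520 : ℕ) : ℝ) / 268435456) :=
  chMM m_666_c1 m_666_2 (by norm_num) (by norm_num) (by norm_num)
theorem m_666_3 : MM cl13 cl13 cl13 (((209321984 : ℕ) : ℝ) / 268435456) (((268435456 : ℕ) : ℝ) / 268435456) :=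
  grpMM Q666_3.ok Q666_3.cov ok13 ok13 ok13 (by norm_num) (by norm_num)
theorem m_666_c3 : MM cl13 cl13 cl13 (((0 : ℕ) : ℝ) / 268435456) (((268435456 : ℕ) : ℝ) / 268435456) :=
  chMM m_666_c2 m_666_3 (by norm_num) (by norm_num) (by norm_num)
theorem m_666 : MM cl13 cl13 cl13 0 1 := by
  have h := m_666_c3
  norm_num at h
  exact h

theorem row_11 (p q r : ℕ) (h1 : InC cl4 p) (h2 : InC cl4 q) (hp : 4 ≤ p) (hq : 4 ≤ q)
    (hr : 4 ≤ r) : MB p q r 0 1 := by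
  have p3 : 3 ≤ p := by omega
  have q3 : 3 ≤ q := by omega
  have r3 : 3 ≤ r := by omega
  rcases cls_of hr with h | h | h | h | h | h
  · exact m_111 _ _ _ (p_abc _ _ _) p q r p3 q3 r3 h1 h2 h
  · exact m_112 _ _ _ (p_abc _ _ _) p q r p3 q3 r3 h1 h2 h
  · exact m_113 _ _ _ (p_abc _ _ _) p q r p3 q3 r3 h1 h2 h
  · exact m_114 _ _ _ (p_abc _ _ _) p q r p3 q3 r3 h1 h2 h
  · exact m_115 _ _ _ (p_abc _ _ _) p q r p3 q3 r3 h1 h2 h
  · exact m_116 _ _ _ (p_abc _ _ _) p q r p3 q3 r3 h1 h2 h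
theorem row_12 (p q r : ℕ) (h1 : InC cl4 p) (h2 : InC cl5 q) (hp : 4 ≤ p) (hq : 4 ≤ q)
    (hr : 4 ≤ r) : MB p q r 0 1 := by
  have p3 : 3 ≤ p := by omega
  have q3 : 3 ≤ q := by omega
  have r3 : 3 ≤ r := by omega
  rcases cls_of hr with h | h | h | h | h | h
  · exact m_112 _ _ _ (p_acb _ _ _) p q r p3 q3 r3 h1 h2 h
  · exact m_122 _ _ _ (p_abc _ _ _) p q r p3 q3 r3 h1 h2 h
  · exact m_123 _ _ _ (p_abc _ _ _) p q r p3 q3 r3 h1 h2 h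
  · exact m_124 _ _ _ (p_abc _ _ _) p q r p3 q3 r3 h1 h2 h
  · exact m_125 _ _ _ (p_abc _ _ _) p q r p3 q3 r3 h1 h2 h
  · exact m_126 _ _ _ (p_abc _ _ _) p q r p3 q3 r3 h1 h2 h
theorem row_13 (p q r : ℕ) (h1 : InC cl4 p) (h2 : InC cl6 q) (hp : 4 ≤ p) (hq : 4 ≤ q)
    (hr : 4 ≤ r) : MB p q r 0 1 := by
  have p3 : 3 ≤ p := by omega
  have q3 : 3 ≤ q := by omega
  have r3 : 3 ≤ r := by omega
  rcases cls_of hr with h | h | h | h | h | h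
  · exact m_113 _ _ _ (p_acb _ _ _) p q r p3 q3 r3 h1 h2 h
  · exact m_123 _ _ _ (p_acb _ _ _) p q r p3 q3 r3 h1 h2 h
  · exact m_133 _ _ _ (p_abc _ _ _) p q r p3 q3 r3 h1 h2 h
  · exact m_134 _ _ _ (p_abc _ _ _) p q r p3 q3 r3 h1 h2 h
  · exact m_135 _ _ _ (p_abc _ _ _) p q r p3 q3 r3 h1 h2 h
  · exact m_136 _ _ _ (p_abc _ _ _) p q r p3 q3 r3 h1 h2 h
theorem row_14 (p q r : ℕ) (h1 : InC cl4 p) (h2 : InC cl7 q) (hp : 4 ≤ p) (hq : 4 ≤ q)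
    (hr : 4 ≤ r) : MB p q r 0 1 := by
  have p3 : 3 ≤ p := by omega
  have q3 : 3 ≤ q := by omega
  have r3 : 3 ≤ r := by omega
  rcases cls_of hr with h | h | h | h | h | h
  · exact m_114 _ _ _ (p_acb _ _ _) p q r p3 q3 r3 h1 h2 h
  · exact m_124 _ _ _ (p_acb _ _ _) p q r p3 q3 r3 h1 h2 h
  · exact m_134 _ _ _ (p_acb _ _ _) p q r p3 q3 r3 h1 h2 h
  · exact m_144 _ _ _ (p_abc _ _ _) p q r p3 q3 r3 h1 h2 h
  · exact m_145 _ _ _ (p_abc _ _ _) p q r p3 q3 r3 h1 h2 h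
  · exact m_146 _ _ _ (p_abc _ _ _) p q r p3 q3 r3 h1 h2 h
theorem row_15 (p q r : ℕ) (h1 : InC cl4 p) (h2 : InC cl9 q) (hp : 4 ≤ p) (hq : 4 ≤ q)
    (hr : 4 ≤ r) : MB p q r 0 1 := by
  have p3 : 3 ≤ p := by omega
  have q3 : 3 ≤ q := by omega
  have r3 : 3 ≤ r := by omega
  rcases cls_of hr with h | h | h | h | h | h
  · exact m_115 _ _ _ (p_acb _ _ _) p q r p3 q3 r3 h1 h2 h
  · exact m_125 _ _ _ (p_acb _ _ _) p q r p3 q3 r3 h1 h2 h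
  · exact m_135 _ _ _ (p_acb _ _ _) p q r p3 q3 r3 h1 h2 h
  · exact m_145 _ _ _ (p_acb _ _ _) p q r p3 q3 r3 h1 h2 h
  · exact m_155 _ _ _ (p_abc _ _ _) p q r p3 q3 r3 h1 h2 h
  · exact m_156 _ _ _ (p_abc _ _ _) p q r p3 q3 r3 h1 h2 h
theorem row_16 (p q r : ℕ) (h1 : InC cl4 p) (h2 : InC cl13 q) (hp : 4 ≤ p) (hq : 4 ≤ q)
    (hr : 4 ≤ r) : MB p q r 0 1 := by
  have p3 : 3 ≤ p := by omega
  have q3 : 3 ≤ q := by omega
  have r3 : 3 ≤ r := by omega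
  rcases cls_of hr with h | h | h | h | h | h
  · exact m_116 _ _ _ (p_acb _ _ _) p q r p3 q3 r3 h1 h2 h
  · exact m_126 _ _ _ (p_acb _ _ _) p q r p3 q3 r3 h1 h2 h
  · exact m_136 _ _ _ (p_acb _ _ _) p q r p3 q3 r3 h1 h2 h
  · exact m_146 _ _ _ (p_acb _ _ _) p q r p3 q3 r3 h1 h2 h
  · exact m_156 _ _ _ (p_acb _ _ _) p q r p3 q3 r3 h1 h2 h
  · exact m_166 _ _ _ (p_abc _ _ _) p q r p3 q3 r3 h1 h2 h
theorem row_21 (p q r : ℕ) (h1 : InC cl5 p) (h2 : InC cl4 q) (hp : 4 ≤ p) (hq : 4 ≤ q)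
    (hr : 4 ≤ r) : MB p q r 0 1 := by
  have p3 : 3 ≤ p := by omega
  have q3 : 3 ≤ q := by omega
  have r3 : 3 ≤ r := by omega
  rcases cls_of hr with h | h | h | h | h | h
  · exact m_112 _ _ _ (p_cab _ _ _) p q r p3 q3 r3 h1 h2 h
  · exact m_122 _ _ _ (p_bac _ _ _) p q r p3 q3 r3 h1 h2 h
  · exact m_123 _ _ _ (p_bac _ _ _) p q r p3 q3 r3 h1 h2 h
  · exact m_124 _ _ _ (p_bac _ _ _) p q r p3 q3 r3 h1 h2 h
  · exact m_125 _ _ _ (p_bac _ _ _) p q r p3 q3 r3 h1 h2 h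
  · exact m_126 _ _ _ (p_bac _ _ _) p q r p3 q3 r3 h1 h2 h
theorem row_22 (p q r : ℕ) (h1 : InC cl5 p) (h2 : InC cl5 q) (hp : 4 ≤ p) (hq : 4 ≤ q)
    (hr : 4 ≤ r) : MB p q r 0 1 := by
  have p3 : 3 ≤ p := by omega
  have q3 : 3 ≤ q := by omega
  have r3 : 3 ≤ r := by omega
  rcases cls_of hr with h | h | h | h | h | h
  · exact m_122 _ _ _ (p_bca _ _ _) p q r p3 q3 r3 h1 h2 h
  · exact m_222 _ _ _ (p_abc _ _ _) p q r p3 q3 r3 h1 h2 h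
  · exact m_223 _ _ _ (p_abc _ _ _) p q r p3 q3 r3 h1 h2 h
  · exact m_224 _ _ _ (p_abc _ _ _) p q r p3 q3 r3 h1 h2 h
  · exact m_225 _ _ _ (p_abc _ _ _) p q r p3 q3 r3 h1 h2 h
  · exact m_226 _ _ _ (p_abc _ _ _) p q r p3 q3 r3 h1 h2 h
theorem row_23 (p q r : ℕ) (h1 : InC cl5 p) (h2 : InC cl6 q) (hp : 4 ≤ p) (hq : 4 ≤ q)
    (hr : 4 ≤ r) : MB p q r 0 1 := by
  have p3 : 3 ≤ p := by omega
  have q3 : 3 ≤ q := by omega
  have r3 : 3 ≤ r := by omega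
  rcases cls_of hr with h | h | h | h | h | h
  · exact m_123 _ _ _ (p_bca _ _ _) p q r p3 q3 r3 h1 h2 h
  · exact m_223 _ _ _ (p_acb _ _ _) p q r p3 q3 r3 h1 h2 h
  · exact m_233 _ _ _ (p_abc _ _ _) p q r p3 q3 r3 h1 h2 h
  · exact m_234 _ _ _ (p_abc _ _ _) p q r p3 q3 r3 h1 h2 h
  · exact m_235 _ _ _ (p_abc _ _ _) p q r p3 q3 r3 h1 h2 h
  · exact m_236 _ _ _ (p_abc _ _ _) p q r p3 q3 r3 h1 h2 h
theorem row_24 (p q r : ℕ) (h1 : InC cl5 p) (h2 : InC cl7 q) (hp : 4 ≤ p) (hq : 4 ≤ q)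
    (hr : 4 ≤ r) : MB p q r 0 1 := by
  have p3 : 3 ≤ p := by omega
  have q3 : 3 ≤ q := by omega
  have r3 : 3 ≤ r := by omega
  rcases cls_of hr with h | h | h | h | h | h
  · exact m_124 _ _ _ (p_bca _ _ _) p q r p3 q3 r3 h1 h2 h
  · exact m_224 _ _ _ (p_acb _ _ _) p q r p3 q3 r3 h1 h2 h
  · exact m_234 _ _ _ (p_acb _ _ _) p q r p3 q3 r3 h1 h2 h
  · exact m_244 _ _ _ (p_abc _ _ _) p q r p3 q3 r3 h1 h2 h
  · exact m_245 _ _ _ (p_abc _ _ _) p q r p3 q3 r3 h1 h2 h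
  · exact m_246 _ _ _ (p_abc _ _ _) p q r p3 q3 r3 h1 h2 h
theorem row_25 (p q r : ℕ) (h1 : InC cl5 p) (h2 : InC cl9 q) (hp : 4 ≤ p) (hq : 4 ≤ q)
    (hr : 4 ≤ r) : MB p q r 0 1 := by
  have p3 : 3 ≤ p := by omega
  have q3 : 3 ≤ q := by omega
  have r3 : 3 ≤ r := by omega
  rcases cls_of hr with h | h | h | h | h | h
  · exact m_125 _ _ _ (p_bca _ _ _) p q r p3 q3 r3 h1 h2 h
  · exact m_225 _ _ _ (p_acb _ _ _) p q r p3 q3 r3 h1 h2 h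
  · exact m_235 _ _ _ (p_acb _ _ _) p q r p3 q3 r3 h1 h2 h
  · exact m_245 _ _ _ (p_acb _ _ _) p q r p3 q3 r3 h1 h2 h
  · exact m_255 _ _ _ (p_abc _ _ _) p q r p3 q3 r3 h1 h2 h
  · exact m_256 _ _ _ (p_abc _ _ _) p q r p3 q3 r3 h1 h2 h
theorem row_26 (p q r : ℕ) (h1 : InC cl5 p) (h2 : InC cl13 q) (hp : 4 ≤ p) (hq : 4 ≤ q)
    (hr : 4 ≤ r) : MB p q r 0 1 := by
  have p3 : 3 ≤ p := by omega
  have q3 : 3 ≤ q := by omega
  have r3 : 3 ≤ r := by omega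
  rcases cls_of hr with h | h | h | h | h | h
  · exact m_126 _ _ _ (p_bca _ _ _) p q r p3 q3 r3 h1 h2 h
  · exact m_226 _ _ _ (p_acb _ _ _) p q r p3 q3 r3 h1 h2 h
  · exact m_236 _ _ _ (p_acb _ _ _) p q r p3 q3 r3 h1 h2 h
  · exact m_246 _ _ _ (p_acb _ _ _) p q r p3 q3 r3 h1 h2 h
  · exact m_256 _ _ _ (p_acb _ _ _) p q r p3 q3 r3 h1 h2 h
  · exact m_266 _ _ _ (p_abc _ _ _) p q r p3 q3 r3 h1 h2 h
theorem row_31 (p q r : ℕ) (h1 : InC cl6 p) (h2 : InC cl4 q) (hp : 4 ≤ p) (hq : 4 ≤ q)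
    (hr : 4 ≤ r) : MB p q r 0 1 := by
  have p3 : 3 ≤ p := by omega
  have q3 : 3 ≤ q := by omega
  have r3 : 3 ≤ r := by omega
  rcases cls_of hr with h | h | h | h | h | h
  · exact m_113 _ _ _ (p_cab _ _ _) p q r p3 q3 r3 h1 h2 h
  · exact m_123 _ _ _ (p_cab _ _ _) p q r p3 q3 r3 h1 h2 h
  · exact m_133 _ _ _ (p_bac _ _ _) p q r p3 q3 r3 h1 h2 h
  · exact m_134 _ _ _ (p_bac _ _ _) p q r p3 q3 r3 h1 h2 h
  · exact m_135 _ _ _ (p_bac _ _ _) p q r p3 q3 r3 h1 h2 h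
  · exact m_136 _ _ _ (p_bac _ _ _) p q r p3 q3 r3 h1 h2 h
theorem row_32 (p q r : ℕ) (h1 : InC cl6 p) (h2 : InC cl5 q) (hp : 4 ≤ p) (hq : 4 ≤ q)
    (hr : 4 ≤ r) : MB p q r 0 1 := by
  have p3 : 3 ≤ p := by omega
  have q3 : 3 ≤ q := by omega
  have r3 : 3 ≤ r := by omega
  rcases cls_of hr with h | h | h | h | h | h
  · exact m_123 _ _ _ (p_cba _ _ _) p q r p3 q3 r3 h1 h2 h
  · exact m_223 _ _ _ (p_cab _ _ _) p q r p3 q3 r3 h1 h2 h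
  · exact m_233 _ _ _ (p_bac _ _ _) p q r p3 q3 r3 h1 h2 h
  · exact m_234 _ _ _ (p_bac _ _ _) p q r p3 q3 r3 h1 h2 h
  · exact m_235 _ _ _ (p_bac _ _ _) p q r p3 q3 r3 h1 h2 h
  · exact m_236 _ _ _ (p_bac _ _ _) p q r p3 q3 r3 h1 h2 h
theorem row_33 (p q r : ℕ) (h1 : InC cl6 p) (h2 : InC cl6 q) (hp : 4 ≤ p) (hq : 4 ≤ q)
    (hr : 4 ≤ r) : MB p q r 0 1 := by
  have p3 : 3 ≤ p := by omega
  have q3 : 3 ≤ q := by omega
  have r3 : 3 ≤ r := by omega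
  rcases cls_of hr with h | h | h | h | h | h
  · exact m_133 _ _ _ (p_bca _ _ _) p q r p3 q3 r3 h1 h2 h
  · exact m_233 _ _ _ (p_bca _ _ _) p q r p3 q3 r3 h1 h2 h
  · exact m_333 _ _ _ (p_abc _ _ _) p q r p3 q3 r3 h1 h2 h
  · exact m_334 _ _ _ (p_abc _ _ _) p q r p3 q3 r3 h1 h2 h
  · exact m_335 _ _ _ (p_abc _ _ _) p q r p3 q3 r3 h1 h2 h
  · exact m_336 _ _ _ (p_abc _ _ _) p q r p3 q3 r3 h1 h2 h
theorem row_34 (p q r : ℕ) (h1 : InC cl6 p) (h2 : InC cl7 q) (hp : 4 ≤ p) (hq : 4 ≤ q)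
    (hr : 4 ≤ r) : MB p q r 0 1 := by
  have p3 : 3 ≤ p := by omega
  have q3 : 3 ≤ q := by omega
  have r3 : 3 ≤ r := by omega
  rcases cls_of hr with h | h | h | h | h | h
  · exact m_134 _ _ _ (p_bca _ _ _) p q r p3 q3 r3 h1 h2 h
  · exact m_234 _ _ _ (p_bca _ _ _) p q r p3 q3 r3 h1 h2 h
  · exact m_334 _ _ _ (p_acb _ _ _) p q r p3 q3 r3 h1 h2 h
  · exact m_344 _ _ _ (p_abc _ _ _) p q r p3 q3 r3 h1 h2 h
  · exact m_345 _ _ _ (p_abc _ _ _) p q r p3 q3 r3 h1 h2 h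
  · exact m_346 _ _ _ (p_abc _ _ _) p q r p3 q3 r3 h1 h2 h
theorem row_35 (p q r : ℕ) (h1 : InC cl6 p) (h2 : InC cl9 q) (hp : 4 ≤ p) (hq : 4 ≤ q)
    (hr : 4 ≤ r) : MB p q r 0 1 := by
  have p3 : 3 ≤ p := by omega
  have q3 : 3 ≤ q := by omega
  have r3 : 3 ≤ r := by omega
  rcases cls_of hr with h | h | h | h | h | h
  · exact m_135 _ _ _ (p_bca _ _ _) p q r p3 q3 r3 h1 h2 h
  · exact m_235 _ _ _ (p_bca _ _ _) p q r p3 q3 r3 h1 h2 h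
  · exact m_335 _ _ _ (p_acb _ _ _) p q r p3 q3 r3 h1 h2 h
  · exact m_345 _ _ _ (p_acb _ _ _) p q r p3 q3 r3 h1 h2 h
  · exact m_355 _ _ _ (p_abc _ _ _) p q r p3 q3 r3 h1 h2 h
  · exact m_356 _ _ _ (p_abc _ _ _) p q r p3 q3 r3 h1 h2 h
theorem row_36 (p q r : ℕ) (h1 : InC cl6 p) (h2 : InC cl13 q) (hp : 4 ≤ p) (hq : 4 ≤ q)
    (hr : 4 ≤ r) : MB p q r 0 1 := by
  have p3 : 3 ≤ p := by omega
  have q3 : 3 ≤ q := by omega
  have r3 : 3 ≤ r := by omega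
  rcases cls_of hr with h | h | h | h | h | h
  · exact m_136 _ _ _ (p_bca _ _ _) p q r p3 q3 r3 h1 h2 h
  · exact m_236 _ _ _ (p_bca _ _ _) p q r p3 q3 r3 h1 h2 h
  · exact m_336 _ _ _ (p_acb _ _ _) p q r p3 q3 r3 h1 h2 h
  · exact m_346 _ _ _ (p_acb _ _ _) p q r p3 q3 r3 h1 h2 h
  · exact m_356 _ _ _ (p_acb _ _ _) p q r p3 q3 r3 h1 h2 h
  · exact m_366 _ _ _ (p_abc _ _ _) p q r p3 q3 r3 h1 h2 h
theorem row_41 (p q r : ℕ) (h1 : InC cl7 p) (h2 : InC cl4 q) (hp : 4 ≤ p) (hq : 4 ≤ q)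
    (hr : 4 ≤ r) : MB p q r 0 1 := by
  have p3 : 3 ≤ p := by omega
  have q3 : 3 ≤ q := by omega
  have r3 : 3 ≤ r := by omega
  rcases cls_of hr with h | h | h | h | h | h
  · exact m_114 _ _ _ (p_cab _ _ _) p q r p3 q3 r3 h1 h2 h
  · exact m_124 _ _ _ (p_cab _ _ _) p q r p3 q3 r3 h1 h2 h
  · exact m_134 _ _ _ (p_cab _ _ _) p q r p3 q3 r3 h1 h2 h
  · exact m_144 _ _ _ (p_bac _ _ _) p q r p3 q3 r3 h1 h2 h
  · exact m_145 _ _ _ (p_bac _ _ _) p q r p3 q3 r3 h1 h2 h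
  · exact m_146 _ _ _ (p_bac _ _ _) p q r p3 q3 r3 h1 h2 h
theorem row_42 (p q r : ℕ) (h1 : InC cl7 p) (h2 : InC cl5 q) (hp : 4 ≤ p) (hq : 4 ≤ q)
    (hr : 4 ≤ r) : MB p q r 0 1 := by
  have p3 : 3 ≤ p := by omega
  have q3 : 3 ≤ q := by omega
  have r3 : 3 ≤ r := by omega
  rcases cls_of hr with h | h | h | h | h | h
  · exact m_124 _ _ _ (p_cba _ _ _) p q r p3 q3 r3 h1 h2 h
  · exact m_224 _ _ _ (p_cab _ _ _) p q r p3 q3 r3 h1 h2 h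
  · exact m_234 _ _ _ (p_cab _ _ _) p q r p3 q3 r3 h1 h2 h
  · exact m_244 _ _ _ (p_bac _ _ _) p q r p3 q3 r3 h1 h2 h
  · exact m_245 _ _ _ (p_bac _ _ _) p q r p3 q3 r3 h1 h2 h
  · exact m_246 _ _ _ (p_bac _ _ _) p q r p3 q3 r3 h1 h2 h
theorem row_43 (p q r : ℕ) (h1 : InC cl7 p) (h2 : InC cl6 q) (hp : 4 ≤ p) (hq : 4 ≤ q)
    (hr : 4 ≤ r) : MB p q r 0 1 := by
  have p3 : 3 ≤ p := by omega
  have q3 : 3 ≤ q := by omega
  have r3 : 3 ≤ r := by omega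
  rcases cls_of hr with h | h | h | h | h | h
  · exact m_134 _ _ _ (p_cba _ _ _) p q r p3 q3 r3 h1 h2 h
  · exact m_234 _ _ _ (p_cba _ _ _) p q r p3 q3 r3 h1 h2 h
  · exact m_334 _ _ _ (p_cab _ _ _) p q r p3 q3 r3 h1 h2 h
  · exact m_344 _ _ _ (p_bac _ _ _) p q r p3 q3 r3 h1 h2 h
  · exact m_345 _ _ _ (p_bac _ _ _) p q r p3 q3 r3 h1 h2 h
  · exact m_346 _ _ _ (p_bac _ _ _) p q r p3 q3 r3 h1 h2 h
theorem row_44 (p q r : ℕ) (h1 : InC cl7 p) (h2 : InC cl7 q) (hp : 4 ≤ p) (hq : 4 ≤ q)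
    (hr : 4 ≤ r) : MB p q r 0 1 := by
  have p3 : 3 ≤ p := by omega
  have q3 : 3 ≤ q := by omega
  have r3 : 3 ≤ r := by omega
  rcases cls_of hr with h | h | h | h | h | h
  · exact m_144 _ _ _ (p_bca _ _ _) p q r p3 q3 r3 h1 h2 h
  · exact m_244 _ _ _ (p_bca _ _ _) p q r p3 q3 r3 h1 h2 h
  · exact m_344 _ _ _ (p_bca _ _ _) p q r p3 q3 r3 h1 h2 h
  · exact m_444 _ _ _ (p_abc _ _ _) p q r p3 q3 r3 h1 h2 h
  · exact m_445 _ _ _ (p_abc _ _ _) p q r p3 q3 r3 h1 h2 h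
  · exact m_446 _ _ _ (p_abc _ _ _) p q r p3 q3 r3 h1 h2 h
theorem row_45 (p q r : ℕ) (h1 : InC cl7 p) (h2 : InC cl9 q) (hp : 4 ≤ p) (hq : 4 ≤ q)
    (hr : 4 ≤ r) : MB p q r 0 1 := by
  have p3 : 3 ≤ p := by omega
  have q3 : 3 ≤ q := by omega
  have r3 : 3 ≤ r := by omega
  rcases cls_of hr with h | h | h | h | h | h
  · exact m_145 _ _ _ (p_bca _ _ _) p q r p3 q3 r3 h1 h2 h
  · exact m_245 _ _ _ (p_bca _ _ _) p q r p3 q3 r3 h1 h2 h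
  · exact m_345 _ _ _ (p_bca _ _ _) p q r p3 q3 r3 h1 h2 h
  · exact m_445 _ _ _ (p_acb _ _ _) p q r p3 q3 r3 h1 h2 h
  · exact m_455 _ _ _ (p_abc _ _ _) p q r p3 q3 r3 h1 h2 h
  · exact m_456 _ _ _ (p_abc _ _ _) p q r p3 q3 r3 h1 h2 h
theorem row_46 (p q r : ℕ) (h1 : InC cl7 p) (h2 : InC cl13 q) (hp : 4 ≤ p) (hq : 4 ≤ q)
    (hr : 4 ≤ r) : MB p q r 0 1 := by
  have p3 : 3 ≤ p := by omega
  have q3 : 3 ≤ q := by omega
  have r3 : 3 ≤ r := by omega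
  rcases cls_of hr with h | h | h | h | h | h
  · exact m_146 _ _ _ (p_bca _ _ _) p q r p3 q3 r3 h1 h2 h
  · exact m_246 _ _ _ (p_bca _ _ _) p q r p3 q3 r3 h1 h2 h
  · exact m_346 _ _ _ (p_bca _ _ _) p q r p3 q3 r3 h1 h2 h
  · exact m_446 _ _ _ (p_acb _ _ _) p q r p3 q3 r3 h1 h2 h
  · exact m_456 _ _ _ (p_acb _ _ _) p q r p3 q3 r3 h1 h2 h
  · exact m_466 _ _ _ (p_abc _ _ _) p q r p3 q3 r3 h1 h2 h
theorem row_51 (p q r : ℕ) (h1 : InC cl9 p) (h2 : InC cl4 q) (hp : 4 ≤ p) (hq : 4 ≤ q)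
    (hr : 4 ≤ r) : MB p q r 0 1 := by
  have p3 : 3 ≤ p := by omega
  have q3 : 3 ≤ q := by omega
  have r3 : 3 ≤ r := by omega
  rcases cls_of hr with h | h | h | h | h | h
  · exact m_115 _ _ _ (p_cab _ _ _) p q r p3 q3 r3 h1 h2 h
  · exact m_125 _ _ _ (p_cab _ _ _) p q r p3 q3 r3 h1 h2 h
  · exact m_135 _ _ _ (p_cab _ _ _) p q r p3 q3 r3 h1 h2 h
  · exact m_145 _ _ _ (p_cab _ _ _) p q r p3 q3 r3 h1 h2 h
  · exact m_155 _ _ _ (p_bac _ _ _) p q r p3 q3 r3 h1 h2 h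
  · exact m_156 _ _ _ (p_bac _ _ _) p q r p3 q3 r3 h1 h2 h
theorem row_52 (p q r : ℕ) (h1 : InC cl9 p) (h2 : InC cl5 q) (hp : 4 ≤ p) (hq : 4 ≤ q)
    (hr : 4 ≤ r) : MB p q r 0 1 := by
  have p3 : 3 ≤ p := by omega
  have q3 : 3 ≤ q := by omega
  have r3 : 3 ≤ r := by omega
  rcases cls_of hr with h | h | h | h | h | h
  · exact m_125 _ _ _ (p_cba _ _ _) p q r p3 q3 r3 h1 h2 h
  · exact m_225 _ _ _ (p_cab _ _ _) p q r p3 q3 r3 h1 h2 h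
  · exact m_235 _ _ _ (p_cab _ _ _) p q r p3 q3 r3 h1 h2 h
  · exact m_245 _ _ _ (p_cab _ _ _) p q r p3 q3 r3 h1 h2 h
  · exact m_255 _ _ _ (p_bac _ _ _) p q r p3 q3 r3 h1 h2 h
  · exact m_256 _ _ _ (p_bac _ _ _) p q r p3 q3 r3 h1 h2 h
theorem row_53 (p q r : ℕ) (h1 : InC cl9 p) (h2 : InC cl6 q) (hp : 4 ≤ p) (hq : 4 ≤ q)
    (hr : 4 ≤ r) : MB p q r 0 1 := by
  have p3 : 3 ≤ p := by omega
  have q3 : 3 ≤ q := by omega
  have r3 : 3 ≤ r := by omega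
  rcases cls_of hr with h | h | h | h | h | h
  · exact m_135 _ _ _ (p_cba _ _ _) p q r p3 q3 r3 h1 h2 h
  · exact m_235 _ _ _ (p_cba _ _ _) p q r p3 q3 r3 h1 h2 h
  · exact m_335 _ _ _ (p_cab _ _ _) p q r p3 q3 r3 h1 h2 h
  · exact m_345 _ _ _ (p_cab _ _ _) p q r p3 q3 r3 h1 h2 h
  · exact m_355 _ _ _ (p_bac _ _ _) p q r p3 q3 r3 h1 h2 h
  · exact m_356 _ _ _ (p_bac _ _ _) p q r p3 q3 r3 h1 h2 h
theorem row_54 (p q r : ℕ) (h1 : InC cl9 p) (h2 : InC cl7 q) (hp : 4 ≤ p) (hq : 4 ≤ q)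
    (hr : 4 ≤ r) : MB p q r 0 1 := by
  have p3 : 3 ≤ p := by omega
  have q3 : 3 ≤ q := by omega
  have r3 : 3 ≤ r := by omega
  rcases cls_of hr with h | h | h | h | h | h
  · exact m_145 _ _ _ (p_cba _ _ _) p q r p3 q3 r3 h1 h2 h
  · exact m_245 _ _ _ (p_cba _ _ _) p q r p3 q3 r3 h1 h2 h
  · exact m_345 _ _ _ (p_cba _ _ _) p q r p3 q3 r3 h1 h2 h
  · exact m_445 _ _ _ (p_cab _ _ _) p q r p3 q3 r3 h1 h2 h
  · exact m_455 _ _ _ (p_bac _ _ _) p q r p3 q3 r3 h1 h2 h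
  · exact m_456 _ _ _ (p_bac _ _ _) p q r p3 q3 r3 h1 h2 h
theorem row_55 (p q r : ℕ) (h1 : InC cl9 p) (h2 : InC cl9 q) (hp : 4 ≤ p) (hq : 4 ≤ q)
    (hr : 4 ≤ r) : MB p q r 0 1 := by
  have p3 : 3 ≤ p := by omega
  have q3 : 3 ≤ q := by omega
  have r3 : 3 ≤ r := by omega
  rcases cls_of hr with h | h | h | h | h | h
  · exact m_155 _ _ _ (p_bca _ _ _) p q r p3 q3 r3 h1 h2 h
  · exact m_255 _ _ _ (p_bca _ _ _) p q r p3 q3 r3 h1 h2 h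
  · exact m_355 _ _ _ (p_bca _ _ _) p q r p3 q3 r3 h1 h2 h
  · exact m_455 _ _ _ (p_bca _ _ _) p q r p3 q3 r3 h1 h2 h
  · exact m_555 _ _ _ (p_abc _ _ _) p q r p3 q3 r3 h1 h2 h
  · exact m_556 _ _ _ (p_abc _ _ _) p q r p3 q3 r3 h1 h2 h
theorem row_56 (p q r : ℕ) (h1 : InC cl9 p) (h2 : InC cl13 q) (hp : 4 ≤ p) (hq : 4 ≤ q)
    (hr : 4 ≤ r) : MB p q r 0 1 := by
  have p3 : 3 ≤ p := by omega
  have q3 : 3 ≤ q := by omega
  have r3 : 3 ≤ r := by omega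
  rcases cls_of hr with h | h | h | h | h | h
  · exact m_156 _ _ _ (p_bca _ _ _) p q r p3 q3 r3 h1 h2 h
  · exact m_256 _ _ _ (p_bca _ _ _) p q r p3 q3 r3 h1 h2 h
  · exact m_356 _ _ _ (p_bca _ _ _) p q r p3 q3 r3 h1 h2 h
  · exact m_456 _ _ _ (p_bca _ _ _) p q r p3 q3 r3 h1 h2 h
  · exact m_556 _ _ _ (p_acb _ _ _) p q r p3 q3 r3 h1 h2 h
  · exact m_566 _ _ _ (p_abc _ _ _) p q r p3 q3 r3 h1 h2 h
theorem row_61 (p q r : ℕ) (h1 : InC cl13 p) (h2 : InC cl4 q) (hp : 4 ≤ p) (hq : 4 ≤ q)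
    (hr : 4 ≤ r) : MB p q r 0 1 := by
  have p3 : 3 ≤ p := by omega
  have q3 : 3 ≤ q := by omega
  have r3 : 3 ≤ r := by omega
  rcases cls_of hr with h | h | h | h | h | h
  · exact m_116 _ _ _ (p_cab _ _ _) p q r p3 q3 r3 h1 h2 h
  · exact m_126 _ _ _ (p_cab _ _ _) p q r p3 q3 r3 h1 h2 h
  · exact m_136 _ _ _ (p_cab _ _ _) p q r p3 q3 r3 h1 h2 h
  · exact m_146 _ _ _ (p_cab _ _ _) p q r p3 q3 r3 h1 h2 h
  · exact m_156 _ _ _ (p_cab _ _ _) p q r p3 q3 r3 h1 h2 h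
  · exact m_166 _ _ _ (p_bac _ _ _) p q r p3 q3 r3 h1 h2 h
theorem row_62 (p q r : ℕ) (h1 : InC cl13 p) (h2 : InC cl5 q) (hp : 4 ≤ p) (hq : 4 ≤ q)
    (hr : 4 ≤ r) : MB p q r 0 1 := by
  have p3 : 3 ≤ p := by omega
  have q3 : 3 ≤ q := by omega
  have r3 : 3 ≤ r := by omega
  rcases cls_of hr with h | h | h | h | h | h
  · exact m_126 _ _ _ (p_cba _ _ _) p q r p3 q3 r3 h1 h2 h
  · exact m_226 _ _ _ (p_cab _ _ _) p q r p3 q3 r3 h1 h2 h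
  · exact m_236 _ _ _ (p_cab _ _ _) p q r p3 q3 r3 h1 h2 h
  · exact m_246 _ _ _ (p_cab _ _ _) p q r p3 q3 r3 h1 h2 h
  · exact m_256 _ _ _ (p_cab _ _ _) p q r p3 q3 r3 h1 h2 h
  · exact m_266 _ _ _ (p_bac _ _ _) p q r p3 q3 r3 h1 h2 h
theorem row_63 (p q r : ℕ) (h1 : InC cl13 p) (h2 : InC cl6 q) (hp : 4 ≤ p) (hq : 4 ≤ q)
    (hr : 4 ≤ r) : MB p q r 0 1 := by
  have p3 : 3 ≤ p := by omega
  have q3 : 3 ≤ q := by omega
  have r3 : 3 ≤ r := by omega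
  rcases cls_of hr with h | h | h | h | h | h
  · exact m_136 _ _ _ (p_cba _ _ _) p q r p3 q3 r3 h1 h2 h
  · exact m_236 _ _ _ (p_cba _ _ _) p q r p3 q3 r3 h1 h2 h
  · exact m_336 _ _ _ (p_cab _ _ _) p q r p3 q3 r3 h1 h2 h
  · exact m_346 _ _ _ (p_cab _ _ _) p q r p3 q3 r3 h1 h2 h
  · exact m_356 _ _ _ (p_cab _ _ _) p q r p3 q3 r3 h1 h2 h
  · exact m_366 _ _ _ (p_bac _ _ _) p q r p3 q3 r3 h1 h2 h
theorem row_64 (p q r : ℕ) (h1 : InC cl13 p) (h2 : InC cl7 q) (hp : 4 ≤ p) (hq : 4 ≤ q)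
    (hr : 4 ≤ r) : MB p q r 0 1 := by
  have p3 : 3 ≤ p := by omega
  have q3 : 3 ≤ q := by omega
  have r3 : 3 ≤ r := by omega
  rcases cls_of hr with h | h | h | h | h | h
  · exact m_146 _ _ _ (p_cba _ _ _) p q r p3 q3 r3 h1 h2 h
  · exact m_246 _ _ _ (p_cba _ _ _) p q r p3 q3 r3 h1 h2 h
  · exact m_346 _ _ _ (p_cba _ _ _) p q r p3 q3 r3 h1 h2 h
  · exact m_446 _ _ _ (p_cab _ _ _) p q r p3 q3 r3 h1 h2 h
  · exact m_456 _ _ _ (p_cab _ _ _) p q r p3 q3 r3 h1 h2 h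
  · exact m_466 _ _ _ (p_bac _ _ _) p q r p3 q3 r3 h1 h2 h
theorem row_65 (p q r : ℕ) (h1 : InC cl13 p) (h2 : InC cl9 q) (hp : 4 ≤ p) (hq : 4 ≤ q)
    (hr : 4 ≤ r) : MB p q r 0 1 := by
  have p3 : 3 ≤ p := by omega
  have q3 : 3 ≤ q := by omega
  have r3 : 3 ≤ r := by omega
  rcases cls_of hr with h | h | h | h | h | h
  · exact m_156 _ _ _ (p_cba _ _ _) p q r p3 q3 r3 h1 h2 h
  · exact m_256 _ _ _ (p_cba _ _ _) p q r p3 q3 r3 h1 h2 h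
  · exact m_356 _ _ _ (p_cba _ _ _) p q r p3 q3 r3 h1 h2 h
  · exact m_456 _ _ _ (p_cba _ _ _) p q r p3 q3 r3 h1 h2 h
  · exact m_556 _ _ _ (p_cab _ _ _) p q r p3 q3 r3 h1 h2 h
  · exact m_566 _ _ _ (p_bac _ _ _) p q r p3 q3 r3 h1 h2 h
theorem row_66 (p q r : ℕ) (h1 : InC cl13 p) (h2 : InC cl13 q) (hp : 4 ≤ p) (hq : 4 ≤ q)
    (hr : 4 ≤ r) : MB p q r 0 1 := by
  have p3 : 3 ≤ p := by omega
  have q3 : 3 ≤ q := by omega
  have r3 : 3 ≤ r := by omega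
  rcases cls_of hr with h | h | h | h | h | h
  · exact m_166 _ _ _ (p_bca _ _ _) p q r p3 q3 r3 h1 h2 h
  · exact m_266 _ _ _ (p_bca _ _ _) p q r p3 q3 r3 h1 h2 h
  · exact m_366 _ _ _ (p_bca _ _ _) p q r p3 q3 r3 h1 h2 h
  · exact m_466 _ _ _ (p_bca _ _ _) p q r p3 q3 r3 h1 h2 h
  · exact m_566 _ _ _ (p_bca _ _ _) p q r p3 q3 r3 h1 h2 h
  · exact m_666 _ _ _ (p_abc _ _ _) p q r p3 q3 r3 h1 h2 h

theorem a_all (p q r : ℕ) (hp : 4 ≤ p) (hq : 4 ≤ q) (hr : 4 ≤ r) : MB p q r 0 1 := by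
  rcases cls_of hp with h | h | h | h | h | h <;> rcases cls_of hq with h' | h' | h' | h' | h' | h'
  · exact row_11 p q r h h' hp hq hr
  · exact row_12 p q r h h' hp hq hr
  · exact row_13 p q r h h' hp hq hr
  · exact row_14 p q r h h' hp hq hr
  · exact row_15 p q r h h' hp hq hr
  · exact row_16 p q r h h' hp hq hr
  · exact row_21 p q r h h' hp hq hr
  · exact row_22 p q r h h' hp hq hr
  · exact row_23 p q r h h' hp hq hr
  · exact row_24 p q r h h' hp hq hr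
  · exact row_25 p q r h h' hp hq hr
  · exact row_26 p q r h h' hp hq hr
  · exact row_31 p q r h h' hp hq hr
  · exact row_32 p q r h h' hp hq hr
  · exact row_33 p q r h h' hp hq hr
  · exact row_34 p q r h h' hp hq hr
  · exact row_35 p q r h h' hp hq hr
  · exact row_36 p q r h h' hp hq hr
  · exact row_41 p q r h h' hp hq hr
  · exact row_42 p q r h h' hp hq hr
  · exact row_43 p q r h h' hp hq hr
  · exact row_44 p q r h h' hp hq hr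
  · exact row_45 p q r h h' hp hq hr
  · exact row_46 p q r h h' hp hq hr
  · exact row_51 p q r h h' hp hq hr
  · exact row_52 p q r h h' hp hq hr
  · exact row_53 p q r h h' hp hq hr
  · exact row_54 p q r h h' hp hq hr
  · exact row_55 p q r h h' hp hq hr
  · exact row_56 p q r h h' hp hq hr
  · exact row_61 p q r h h' hp hq hr
  · exact row_62 p q r h h' hp hq hr
  · exact row_63 p q r h h' hp hq hr
  · exact row_64 p q r h h' hp hq hr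
  · exact row_65 p q r h h' hp hq hr
  · exact row_66 p q r h h' hp hq hr

end Pool.Agent.Helper6.MONO.S
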