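import Pool.Agent.Helper6.MONO.Stmts
import Pool.Agent.Helper6.MONO.Cls

/-!
Statement: the classes are described correctly.
-/

set_option autoImplicit false
noncomputable section
namespace Pool.Agent.Helper6.MONO

def ST_KAP : Prop := ClsOK cl4 ∧ ClsOK cl5 ∧ ClsOK cl6 ∧ ClsOK cl7 ∧ ClsOK cl9 ∧ ClsOK cl13

end Pool.Agent.Helper6.MONO
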