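import Pool.Agent.Helper32.MONO.Ivl

/-!
The interval program for one block step (with the parameters computed from kappa, hd, he).
-/

set_option autoImplicit false
noncomputable section
namespace Pool.Agent.Helper6.MONO

open I

/-! ### the interval program -/

structure C2 where
  r : I
  i : I

namespace C2
def mul (s : I) (x y : C2) : C2 :=
  C2.mk (I.sub (I.mul x.r y.r) (I.mul s (I.mul x.i y.i))) (I.add (I.mul x.r y.i) (I.mul x.i y.r))
def sc (k : I) (x : C2) : C2 := C2.mk (I.mul k x.r) (I.mul k x.i)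
def add (x y : C2) : C2 := C2.mk (I.add x.r y.r) (I.add x.i y.i)
def inv1 (s ir : I) (x : C2) : I := I.inv (I.add x.r (I.mul s (I.mul (I.sqr x.i) ir)))
def inv2 (ir qr : I) (x : C2) : C2 := C2.mk qr (I.opp (I.mul (I.mul x.i ir) qr))
def inv (s : I) (x : C2) : C2 := (fun ir => (fun qr => inv2 ir qr x) (inv1 s ir x)) (I.inv x.r)
end C2

structure St where
  a : I
  b : I
  be : I
  yr : I
  ad : I
  bd : I
  bed : I

/-- result: new state, L, and a flag (all positivity checks passed) -/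
structure Res where
  st : St
  L : I
  ok : Bool

def two : I := I.pos (nat_lit 536870912) (nat_lit 536870912)
def half : I := I.pos (nat_lit 134217728) (nat_lit 134217728)
def quarter : I := I.pos (nat_lit 67108864) (nat_lit 67108864)

def badRes : Res := Res.mk (St.mk zero zero zero zero zero zero zero) one false
def chkP (l _h : Nat) (r : Res) : Res :=
  Bool.rec (motive := fun _ => Res) badRes r (Nat.ble (nat_lit 1) l)
def chkB (_l _h : Nat) (_r : Res) : Res := badRes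
/-- `r` if `x` is positive, away from `0`, and a failing result otherwise -/
def chk (x : I) (r : Res) : Res := I.rec (motive := fun _ => Res → Res) chkP chkB chkB x r

/-- `(ε + ι) x` -/
def mulca (s : I) (eps : Bool) (x : C2) : C2 :=
  C2.mk (I.sub (sg eps x.r) (I.mul s x.i)) (I.add x.r (sg eps x.i))
/-- `(-ε s + ι) x` -/
def mulcb (s : I) (eps : Bool) (x : C2) : C2 :=
  C2.mk (I.sub (opp (sg eps (I.mul s x.r))) (I.mul s x.i)) (I.sub x.r (sg eps (I.mul s x.i)))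

def final (cj : Bool) (w yQ Za Zb Zg Zc : C2) (Ba Bb Bg Bc La Lb Lg Lc : I) (z : St) : Res :=
  Res.mk (St.mk w.r (sg cj w.i) (sg cj yQ.i) yQ.r
    (I.add (I.add (I.mul Za.r z.ad) (I.mul Zb.r z.bd)) (I.add (I.mul Zg.r z.bed) Zc.r))
    (sg cj (I.add (I.add (I.mul Za.i z.ad) (I.mul Zb.i z.bd)) (I.add (I.mul Zg.i z.bed) Zc.i)))
    (sg cj (I.add (I.add (I.mul Ba z.ad) (I.mul Bb z.bd)) (I.add (I.mul Bg z.bed) Bc))))
    (I.add (I.add (I.mul La z.ad) (I.mul Lb z.bd)) (I.add (I.mul Lg z.bed) Lc)) true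

def imm (yQ q : C2) : I := opp (I.add (I.mul yQ.r q.i) (I.mul yQ.i q.r))

def ph5 (s1 : I) (cj : Bool) (z : St) (w yQ Za Zb Zg Zc qa qb qg qc : C2) (QiDi : I) : Res :=
  final cj w yQ Za Zb Zg Zc (imm yQ qa) (imm yQ qb) (imm yQ qg)
    (I.sub (imm yQ qc) (I.mul s1 (I.mul QiDi yQ.i)))
    (dbl qa.r) (dbl qb.r) (dbl qg.r) (I.sub (I.add (dbl qc.r) (I.mul s1 QiDi)) one) z

def cg (s e1 Yg : I) (V : C2) : C2 :=
  C2.mk (I.sub (I.mul Yg V.r) (I.mul s (I.mul e1 V.i))) (I.add (I.mul Yg V.i) (I.mul e1 V.r))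
def cc (s c0 Ycr Yci : I) (U V : C2) : C2 :=
  C2.mk (I.add (I.mul U.r c0) (I.sub (I.mul V.r Ycr) (I.mul s (I.mul V.i Yci))))
    (I.add (I.mul U.i c0) (I.add (I.mul V.r Yci) (I.mul V.i Ycr)))

/-- `P, V`: derivative of `w` by `X` and `Y`; `qU, qV`: derivative of `log D` -/
def ph4 (s s1 : I) (eps cj : Bool) (z : St) (w yQ D Q P V qU qV : C2)
    (Ya Yb Yg Ycr Yci c0 e1 : I) : Res :=
  ph5 s1 cj z w yQ
    (C2.add (mulca s eps P) (C2.sc Ya V)) (C2.add (mulcb s eps P) (C2.sc Yb V))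
    (cg s e1 Yg V) (C2.add (cc s c0 Ycr Yci P V) (C2.sc (I.mul s1 (I.mul w.i D.i)) Q))
    (C2.add (mulca s eps qU) (C2.sc Ya qV)) (C2.add (mulcb s eps qU) (C2.sc Yb qV))
    (cg s e1 Yg qV) (cc s c0 Ycr Yci qU qV) (opp (I.mul Q.i D.i))

/-- `iv = 1/(1 - 2 K yr)` -/
def ph3 (s s1 : I) (eps cj : Bool) (z : St) (b0 Sg yr Yi : I) (w yQ D Q P V : C2)
    (dl ep b2 be2 iv : I) : Res :=
  ph4 s s1 eps cj z w yQ D Q P V (C2.sc dl Q) (C2.sc ep Q)
    (I.mul s1 (I.mul (dbl z.a) iv)) (I.mul s1 (I.mul (dbl (I.mul s z.b)) iv))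
    (I.mul s1 (I.mul s (I.mul (I.sub (dbl (I.mul Sg (I.mul s1 z.be))) b0) iv)))
    (I.mul s1 (I.add yr (I.mul s1 (I.mul (I.sub (I.add b2 (I.mul Sg (I.add (I.add (sqr yr)
      (I.mul s be2)) (I.mul s1 be2)))) (I.mul b0 z.be)) iv))))
    Yi (opp (sg eps (I.mul s1 z.b))) (sg eps s1)

def ph2c (s s1 : I) (eps cj : Bool) (z : St) (b0 Sg yr Yi : I) (w yQ D Q U V Q2 : C2)
    (dl ep v : I) : Res :=
  chk v (ph3 s s1 eps cj z b0 Sg yr Yi w yQ D Q (C2.mul s U Q2) (C2.mul s V Q2) dl ep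
    (sqr z.b) (sqr z.be) (I.inv v))

/-- `U, V` (before division by `D²`), even `m` -/
def ph2e (s s1 : I) (eps cj : Bool) (z : St) (b0 Sg yr : I) (X Y w D Q : C2)
    (R dl ep rho gr yf be0 : I) : Res :=
  ph2c s s1 eps cj z b0 Sg yr Y.i w (C2.sc yf Q) D Q
    (C2.mk (opp (I.mul rho (I.sub one (I.mul gr Y.r)))) (opp (I.mul rho (I.sub be0 (I.mul gr Y.i)))))
    (C2.mk (opp (I.mul gr (I.add R (I.mul rho X.r)))) (opp (I.mul gr (I.add (I.mul R be0) (I.mul rho X.i)))))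
    (C2.mul s Q Q) dl ep (I.sub one (dbl (I.mul (I.mul s1 Sg) yr)))

/-- odd `m`: correction terms with `Δ` -/
def ph2o (s s1 : I) (eps cj : Bool) (z : St) (b0 Sg yr : I) (X Y w D Q dlt : C2)
    (R dl ep rho gr yf be0 c1 c2 : I) : Res :=
  ph2c s s1 eps cj z b0 Sg yr Y.i w (C2.sc yf Q) D Q
    (C2.mk (I.sub (I.mul c1 dlt.r) (I.mul rho (I.sub one (I.mul gr Y.r))))
      (I.sub (I.mul c1 dlt.i) (I.mul rho (I.sub be0 (I.mul gr Y.i)))))
    (C2.mk (opp (I.add (I.mul c2 dlt.r) (I.mul gr (I.add R (I.mul rho X.r)))))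
      (opp (I.add (I.mul c2 dlt.i) (I.mul gr (I.add (I.mul R be0) (I.mul rho X.i))))))
    (C2.mul s Q Q) dl ep (I.sub one (dbl (I.mul (I.mul s1 Sg) yr)))

/-- `w`, even `m`: `num` is the numerator of the imaginary part of `T/D` -/
def ph1e (s s1 : I) (eps cj : Bool) (z : St) (b0 Sg yr : I) (X Y T D Q : C2)
    (R dl ep rho gr yf be0 iD num : I) : Res :=
  ph2e s s1 eps cj z b0 Sg yr X Y
    (C2.mk (I.sub R (I.mul rho (I.sub (I.mul T.r Q.r) (I.mul s (I.mul T.i Q.i)))))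
      (opp (I.mul rho (I.mul num (I.mul iD Q.r))))) D Q R dl ep rho gr yf be0

def ph1o2 (s s1 : I) (eps cj : Bool) (z : St) (b0 Sg yr : I) (X Y W D Q dlt : C2)
    (R dl ep rho gr yf be0 c1 c2 : I) : Res :=
  ph2o s s1 eps cj z b0 Sg yr X Y
    (C2.mk (I.sub R (I.sub (I.mul W.r Q.r) (I.mul s (I.mul W.i Q.i))))
      (opp (I.add (I.mul W.r Q.i) (I.mul W.i Q.r)))) D Q dlt R dl ep rho gr yf be0 c1 c2

def ph1o (s s1 : I) (eps cj : Bool) (z : St) (b0 Sg yr : I) (X Y T D Q dlt : C2)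
    (R dl ep rho gr yf be0 c1 c2 : I) : Res :=
  ph1o2 s s1 eps cj z b0 Sg yr X Y
    (C2.mk (I.add (I.mul rho T.r) (I.mul R dlt.r)) (I.add (I.mul rho T.i) (I.mul R dlt.i)))
    D Q dlt R dl ep rho gr yf be0 c1 c2

/-- even `m`, `D` known -/
def pe2 (s s1 : I) (eps : Bool) (z : St) (b0 Sg yr : I) (X Y T D Q : C2)
    (R dl ep rho gr yf be0 iD : I) : Res :=
  ph1e s s1 eps (Bool.rec (motive := fun _ => Bool) true false eps) z b0 Sg yr X Y T D Q
    R dl ep rho gr yf be0 iD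
    (I.sub (I.add T.i (I.mul gr (I.sub (I.mul Y.i X.r) (I.mul Y.r X.i)))) (I.mul be0 T.r))

def pe1 (s s1 : I) (eps : Bool) (z : St) (b0 Sg yr : I) (X Y D : C2)
    (R dl ep rho gr gR yf be0 : I) : Res :=
  chk D.r (pe2 s s1 eps z b0 Sg yr X Y
    (C2.mk (I.add X.r (I.mul gR Y.r)) (I.add X.i (I.mul gR Y.i))) D (C2.inv s D)
    R dl ep rho gr yf be0 (I.inv D.r))

def pe0 (s s1 : I) (eps : Bool) (z : St) (b0 Sg yr : I) (X Y : C2)
    (R dl ep rho gr gR yf be0 : I) : Res :=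
  pe1 s s1 eps z b0 Sg yr X Y
    (C2.mk (I.add one (I.add (I.mul dl X.r) (I.mul ep Y.r)))
      (I.add be0 (I.add (I.mul dl X.i) (I.mul ep Y.i)))) R dl ep rho gr gR yf be0

/-- odd `m`, `D` known -/
def po1 (s s1 : I) (eps : Bool) (z : St) (b0 Sg yr : I) (X Y D dlt : C2)
    (R dl ep rho gr gR yf be0 c1 c2 : I) : Res :=
  chk D.r (ph1o s s1 eps eps z b0 Sg yr X Y
    (C2.mk (I.add X.r (I.mul gR Y.r)) (I.add X.i (I.mul gR Y.i))) D (C2.inv s D) dlt
    R dl ep rho gr yf be0 c1 c2)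

def po0 (s s1 : I) (eps : Bool) (z : St) (b0 Sg yr : I) (X Y dlt : C2)
    (R dl ep rho gr gR yf be0 c1 c2 : I) : Res :=
  po1 s s1 eps z b0 Sg yr X Y
    (C2.mk (I.add (I.add one dlt.r) (I.add (I.mul dl X.r) (I.mul ep Y.r)))
      (I.add (I.add be0 dlt.i) (I.add (I.mul dl X.i) (I.mul ep Y.i)))) dlt
    R dl ep rho gr gR yf be0 c1 c2

/-- `X, Y` -/
def cX (s : I) (eps : Bool) (a b : I) : C2 := C2.mk (sg eps (I.sub a (I.mul s b))) (I.add a b)
def cY (s1 : I) (eps : Bool) (yr be : I) : C2 := C2.mk (I.mul s1 yr) (I.mul s1 (sg eps be))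

/-- one iteration for `yr`: `A + K (y² + s be²)` -/
def itY (A0 K sbe2 y : I) : I := I.add A0 (I.mul K (I.add (sqr y) sbe2))
/-- `A = a² + s b² + td - s b0 be` -/
def cA (s td b0 : I) (z : St) : I :=
  I.sub (I.add (I.add (sqr z.a) (I.mul s (sqr z.b))) td) (I.mul s (I.mul b0 z.be))

/-! even `m` -/
def qe2 (s s1 : I) (eps : Bool) (z : St) (g b0 Sg yr R rho ep gR yf : I) : Res :=
  pe0 s s1 eps z b0 Sg yr (cX s eps z.a z.b) (cY s1 eps yr z.be) R (dbl gR) ep rho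
    (I.mul g rho) gR yf (sg eps b0)
def qe1 (s s1 : I) (eps : Bool) (z : St) (g b0 Sb Sg A0 K sbe2 R R2 R2S : I) : Res :=
  qe2 s s1 eps z g b0 Sg (itY A0 K sbe2 (itY A0 K sbe2 z.yr)) R (I.mul R2S g)
    (I.mul (I.sub R2 Sb) (sqr g)) (I.mul R g) R2S
def qe0 (s s1 : I) (eps : Bool) (z : St) (g b0 Sb td Sg R R2 : I) : Res :=
  qe1 s s1 eps z g b0 Sb Sg (cA s td b0 z) (I.mul s1 Sg) (I.mul s (sqr z.be)) R R2
    (I.add R2 Sb)

/-! odd `m` -/
def qo3 (s s1 : I) (eps : Bool) (z : St) (g b0 Sb Sg yr R R2 rho ep gR yf : I) (dlt : C2) : Res :=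
  po0 s s1 eps z b0 Sg yr (cX s eps z.a z.b) (cY s1 eps yr z.be) dlt R (dbl gR) ep rho
    (I.mul g rho) gR yf (sg eps b0) (I.mul g (I.sub R2 Sb)) (dbl (I.mul Sg R))
def qo2 (s s1 : I) (eps : Bool) (z : St) (g b0 Sb Sg yr R R2 R2S cr eta zet nu : I) : Res :=
  qo3 s s1 eps z g b0 Sb Sg yr R R2 (I.mul R2S g)
    (I.mul (I.sub R2 Sb) (sqr g)) (I.mul R g) (I.mul cr R2S)
    (C2.mk (I.mul nu eta) (sg eps (I.mul nu zet)))
def qo1 (s s1 : I) (eps : Bool) (z : St) (g b0 Sb Sg A0 K sbe2 R R2 R2S cr eta zet kq : I) : Res :=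
  qo2 s s1 eps z g b0 Sb Sg (itY A0 K sbe2 (itY A0 K sbe2 z.yr)) R R2 R2S cr eta zet
    (I.mul kq R2S)
def qo0 (s s1 : I) (eps : Bool) (z : St) (g b0 Sb td Sg R R2 cr eta zet kq : I) : Res :=
  qo1 s s1 eps z g b0 Sb Sg (cA s td b0 z) (I.mul s1 Sg) (I.mul s (sqr z.be)) R R2
    (I.add R2 Sb) cr eta zet kq

/-! ### the parameters -/

/-- all parameters known, even m -/
def pe3 (s : I) (eps : Bool) (z : St) (R g Sb td : I) : Res :=
  qe0 s (I.add one s) eps z g (I.sub (dbl (dbl g)) one) Sb td (I.mul Sb (sqr g)) R (sqr R)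

/-- odd m: q4 = 4 (2 + k), t = 4 g / k -/
def po4 (s : I) (eps : Bool) (z : St) (k R g Sb td eta zet kq : I) : Res :=
  qo0 s (I.add one s) eps z g (I.sub (dbl (dbl g)) one) Sb td (I.mul Sb (sqr g)) R (sqr R)
    (I.add one (I.mul (I.mul half (I.sub two k)) eta)) eta zet kq

def po3 (s : I) (eps : Bool) (z : St) (k R g Sb td t q4 : I) : Res :=
  chk q4 (po4 s eps z k R g Sb td (I.sub (I.add t (dbl g)) one) (I.add (I.sub t (dbl g)) one)
    (I.mul (sqr k) (I.inv q4)))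

def po2 (s : I) (eps : Bool) (z : St) (k R g Sb td : I) : Res :=
  chk k (po3 s eps z k R g Sb td (I.mul (dbl (dbl g)) (I.inv k)) (dbl (dbl (I.add two k))))

def pp2 (s : I) (eps even : Bool) (z : St) (k R g k2 hd hd2 : I) : Res :=
  chk k2 (chk hd2 (Bool.rec (motive := fun _ => Res)
    (po2 s eps z k R g (I.mul (I.mul (I.sub two k) (I.add two k)) (I.inv k2))
      (I.mul (I.mul (I.sub two hd) (I.add two hd)) (I.inv hd2)))
    (pe3 s eps z R g (I.mul (I.mul (I.sub two k) (I.add two k)) (I.inv k2))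
      (I.mul (I.mul (I.sub two hd) (I.add two hd)) (I.inv hd2))) even))

def pp1 (s : I) (eps even : Bool) (z : St) (k hd R l2 : I) : Res :=
  chk l2 (pp2 s eps even z k R (I.inv l2) (sqr k) hd (sqr hd))

def pp0 (s : I) (eps even : Bool) (z : St) (k hd he R khd : I) : Res :=
  chk khd (pp1 s eps even z k hd R (dbl (I.add one (I.mul (dbl he) (I.inv khd)))))

/-- the step as a function of kappa, hd, he and R-bar -/
def stp (s : I) (eps even : Bool) (z : St) (k hd he R : I) : Res :=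
  pp0 s eps even z k hd he R (I.mul k hd)

/-! ### R-bar for the first indices -/

def rbB (s : I) (eps even : Bool) (z : St) (k hd he num den : I) : Res :=
  chk den (stp s eps even z k hd he (I.sub one (dbl (I.mul num (I.inv den)))))

def rb2 (s : I) (eps even : Bool) (z : St) (k hd he : I) : Res := stp s eps even z k hd he one
def rb3 (s : I) (eps even : Bool) (z : St) (k hd he : I) : Res :=
  rbB s eps even z k hd he one (I.mul k (I.add k one))
def rb4 (s : I) (eps even : Bool) (z : St) (k hd he : I) : Res :=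
  rbB s eps even z k hd he one (sqr k)
def rb5 (s : I) (eps even : Bool) (z : St) (k hd he : I) : Res :=
  rbB s eps even z k hd he (I.add one k) (I.mul k (I.sub (I.add (sqr k) k) one))
def rb6 (s : I) (eps even : Bool) (z : St) (k hd he : I) : Res :=
  rbB s eps even z k hd he one (I.sub (sqr k) one)

def band (x y : Bool) : Bool := Bool.rec (motive := fun _ => Bool) false y x

/-- the test: new state in the box `t`, and `L + dc < 0` -/
def okR (r : Res) (t : St) (dc : I) : Bool :=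
  band r.ok (band (isNeg (I.add r.L dc)) (band (le r.st.a t.a) (band (le r.st.b t.b)
    (band (le r.st.be t.be) (band (le r.st.yr t.yr) (band (le r.st.ad t.ad)
    (band (le r.st.bd t.bd) (le r.st.bed t.bed))))))))

end Pool.Agent.Helper6.MONO
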