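import Pool.Agent.Helper6.MONO.Prog

/-!
The program of `Prog.lean` over the real numbers (same phases; the checks are recorded in ck).
-/

set_option autoImplicit false
noncomputable section
namespace Pool.Agent.Helper6.MONO

structure RC where
  r : ℝ
  i : ℝ

namespace RC

def mul (s : ℝ) (x y : RC) : RC :=
  (RC.mk ((x.r * y.r) - (s * (x.i * y.i))) ((x.r * y.i) + (x.i * y.r)))

def sc (k : ℝ) (x : RC) : RC :=
  (RC.mk (k * x.r) (k * x.i))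

def add (x y : RC) : RC :=
  (RC.mk (x.r + y.r) (x.i + y.i))

def inv1 (s ir : ℝ) (x : RC) : ℝ :=
  (1 / (x.r + (s * ((x.i * x.i) * ir))))

def inv2 (ir qr : ℝ) (x : RC) : RC :=
  (RC.mk qr (-((x.i * ir) * qr)))

def inv (s : ℝ) (x : RC) : RC :=
  ((fun ir => ((fun qr => (inv2 ir qr x)) (inv1 s ir x))) (1 / x.r))

end RC

structure RSt where
  a : ℝ
  b : ℝ
  be : ℝ
  yr : ℝ
  ad : ℝ
  bd : ℝ
  bed : ℝ

structure RRes where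
  st : RSt
  L : ℝ
  ck : Prop

/-- the check of a positive number -/
def r_chk (x : ℝ) (r : RRes) : RRes := RRes.mk r.st r.L (0 < x ∧ r.ck)

def r_mulca (s : ℝ) (eps : Bool) (x : RC) : RC :=
  (RC.mk ((rsg eps x.r) - (s * x.i)) (x.r + (rsg eps x.i)))

def r_mulcb (s : ℝ) (eps : Bool) (x : RC) : RC :=
  (RC.mk ((-(rsg eps (s * x.r))) - (s * x.i)) (x.r - (rsg eps (s * x.i))))

def r_final (cj : Bool) (w yQ Za Zb Zg Zc : RC) (Ba Bb Bg Bc La Lb Lg Lc : ℝ) (z : RSt) : RRes :=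
  (RRes.mk (RSt.mk w.r (rsg cj w.i) (rsg cj yQ.i) yQ.r (((Za.r * z.ad) + (Zb.r * z.bd)) + ((Zg.r
    * z.bed) + Zc.r)) (rsg cj (((Za.i * z.ad) + (Zb.i * z.bd)) + ((Zg.i * z.bed) + Zc.i))) (rsg
    cj (((Ba * z.ad) + (Bb * z.bd)) + ((Bg * z.bed) + Bc)))) (((La * z.ad) + (Lb * z.bd)) + ((Lg
    * z.bed) + Lc)) True)

def r_imm (yQ q : RC) : ℝ :=
  (-((yQ.r * q.i) + (yQ.i * q.r)))

def r_ph5 (s1 : ℝ) (cj : Bool) (z : RSt) (w yQ Za Zb Zg Zc qa qb qg qc : RC) (QiDi : ℝ) : RRes :=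
  (r_final cj w yQ Za Zb Zg Zc (r_imm yQ qa) (r_imm yQ qb) (r_imm yQ qg) ((r_imm yQ qc) - (s1 *
    (QiDi * yQ.i))) (2 * qa.r) (2 * qb.r) (2 * qg.r) (((2 * qc.r) + (s1 * QiDi)) - 1) z)

def r_cg (s e1 Yg : ℝ) (V : RC) : RC :=
  (RC.mk ((Yg * V.r) - (s * (e1 * V.i))) ((Yg * V.i) + (e1 * V.r)))

def r_cc (s c0 Ycr Yci : ℝ) (U V : RC) : RC :=
  (RC.mk ((U.r * c0) + ((V.r * Ycr) - (s * (V.i * Yci)))) ((U.i * c0) + ((V.r * Yci) + (V.i *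
    Ycr))))

def r_ph4 (s s1 : ℝ) (eps cj : Bool) (z : RSt) (w yQ D Q P V qU qV : RC)
    (Ya Yb Yg Ycr Yci c0 e1 : ℝ) : RRes :=
  (r_ph5 s1 cj z w yQ (RC.add (r_mulca s eps P) (RC.sc Ya V)) (RC.add (r_mulcb s eps P) (RC.sc
    Yb V)) (r_cg s e1 Yg V) (RC.add (r_cc s c0 Ycr Yci P V) (RC.sc (s1 * (w.i * D.i)) Q))
    (RC.add (r_mulca s eps qU) (RC.sc Ya qV)) (RC.add (r_mulcb s eps qU) (RC.sc Yb qV)) (r_cg s
    e1 Yg qV) (r_cc s c0 Ycr Yci qU qV) (-(Q.i * D.i)))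

def r_ph3 (s s1 : ℝ) (eps cj : Bool) (z : RSt) (b0 Sg yr Yi : ℝ) (w yQ D Q P V : RC)
    (dl ep b2 be2 iv : ℝ) : RRes :=
  (r_ph4 s s1 eps cj z w yQ D Q P V (RC.sc dl Q) (RC.sc ep Q) (s1 * ((2 * z.a) * iv)) (s1 * ((2
    * (s * z.b)) * iv)) (s1 * (s * (((2 * (Sg * (s1 * z.be))) - b0) * iv))) (s1 * (yr + (s1 *
    (((b2 + (Sg * (((yr * yr) + (s * be2)) + (s1 * be2)))) - (b0 * z.be)) * iv)))) Yi (-(rsg eps
    (s1 * z.b))) (rsg eps s1))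

def r_ph2c (s s1 : ℝ) (eps cj : Bool) (z : RSt) (b0 Sg yr Yi : ℝ) (w yQ D Q U V Q2 : RC)
    (dl ep v : ℝ) : RRes :=
  (r_chk v (r_ph3 s s1 eps cj z b0 Sg yr Yi w yQ D Q (RC.mul s U Q2) (RC.mul s V Q2) dl ep (z.b
    * z.b) (z.be * z.be) (1 / v)))

def r_ph2e (s s1 : ℝ) (eps cj : Bool) (z : RSt) (b0 Sg yr : ℝ) (X Y w D Q : RC)
    (R dl ep rho gr yf be0 : ℝ) : RRes :=
  (r_ph2c s s1 eps cj z b0 Sg yr Y.i w (RC.sc yf Q) D Q (RC.mk (-(rho * (1 - (gr * Y.r))))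
    (-(rho * (be0 - (gr * Y.i))))) (RC.mk (-(gr * (R + (rho * X.r)))) (-(gr * ((R * be0) + (rho
    * X.i))))) (RC.mul s Q Q) dl ep (1 - (2 * ((s1 * Sg) * yr))))

def r_ph2o (s s1 : ℝ) (eps cj : Bool) (z : RSt) (b0 Sg yr : ℝ) (X Y w D Q dlt : RC)
    (R dl ep rho gr yf be0 c1 c2 : ℝ) : RRes :=
  (r_ph2c s s1 eps cj z b0 Sg yr Y.i w (RC.sc yf Q) D Q (RC.mk ((c1 * dlt.r) - (rho * (1 - (gr *
    Y.r)))) ((c1 * dlt.i) - (rho * (be0 - (gr * Y.i))))) (RC.mk (-((c2 * dlt.r) + (gr * (R +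
    (rho * X.r))))) (-((c2 * dlt.i) + (gr * ((R * be0) + (rho * X.i)))))) (RC.mul s Q Q) dl ep
    (1 - (2 * ((s1 * Sg) * yr))))

def r_ph1e (s s1 : ℝ) (eps cj : Bool) (z : RSt) (b0 Sg yr : ℝ) (X Y T D Q : RC)
    (R dl ep rho gr yf be0 iD num : ℝ) : RRes :=
  (r_ph2e s s1 eps cj z b0 Sg yr X Y (RC.mk (R - (rho * ((T.r * Q.r) - (s * (T.i * Q.i)))))
    (-(rho * (num * (iD * Q.r))))) D Q R dl ep rho gr yf be0)

def r_ph1o2 (s s1 : ℝ) (eps cj : Bool) (z : RSt) (b0 Sg yr : ℝ) (X Y W D Q dlt : RC)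
    (R dl ep rho gr yf be0 c1 c2 : ℝ) : RRes :=
  (r_ph2o s s1 eps cj z b0 Sg yr X Y (RC.mk (R - ((W.r * Q.r) - (s * (W.i * Q.i)))) (-((W.r *
    Q.i) + (W.i * Q.r)))) D Q dlt R dl ep rho gr yf be0 c1 c2)

def r_ph1o (s s1 : ℝ) (eps cj : Bool) (z : RSt) (b0 Sg yr : ℝ) (X Y T D Q dlt : RC)
    (R dl ep rho gr yf be0 c1 c2 : ℝ) : RRes :=
  (r_ph1o2 s s1 eps cj z b0 Sg yr X Y (RC.mk ((rho * T.r) + (R * dlt.r)) ((rho * T.i) + (R *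
    dlt.i))) D Q dlt R dl ep rho gr yf be0 c1 c2)

def r_pe2 (s s1 : ℝ) (eps : Bool) (z : RSt) (b0 Sg yr : ℝ) (X Y T D Q : RC)
    (R dl ep rho gr yf be0 iD : ℝ) : RRes :=
  (r_ph1e s s1 eps (Bool.rec (motive := fun _ => Bool) true false eps) z b0 Sg yr X Y T D Q R dl
    ep rho gr yf be0 iD ((T.i + (gr * ((Y.i * X.r) - (Y.r * X.i)))) - (be0 * T.r)))

def r_pe1 (s s1 : ℝ) (eps : Bool) (z : RSt) (b0 Sg yr : ℝ) (X Y D : RC)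
    (R dl ep rho gr gR yf be0 : ℝ) : RRes :=
  (r_chk D.r (r_pe2 s s1 eps z b0 Sg yr X Y (RC.mk (X.r + (gR * Y.r)) (X.i + (gR * Y.i))) D
    (RC.inv s D) R dl ep rho gr yf be0 (1 / D.r)))

def r_pe0 (s s1 : ℝ) (eps : Bool) (z : RSt) (b0 Sg yr : ℝ) (X Y : RC)
    (R dl ep rho gr gR yf be0 : ℝ) : RRes :=
  (r_pe1 s s1 eps z b0 Sg yr X Y (RC.mk (1 + ((dl * X.r) + (ep * Y.r))) (be0 + ((dl * X.i) + (ep
    * Y.i)))) R dl ep rho gr gR yf be0)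

def r_po1 (s s1 : ℝ) (eps : Bool) (z : RSt) (b0 Sg yr : ℝ) (X Y D dlt : RC)
    (R dl ep rho gr gR yf be0 c1 c2 : ℝ) : RRes :=
  (r_chk D.r (r_ph1o s s1 eps eps z b0 Sg yr X Y (RC.mk (X.r + (gR * Y.r)) (X.i + (gR * Y.i))) D
    (RC.inv s D) dlt R dl ep rho gr yf be0 c1 c2))

def r_po0 (s s1 : ℝ) (eps : Bool) (z : RSt) (b0 Sg yr : ℝ) (X Y dlt : RC)
    (R dl ep rho gr gR yf be0 c1 c2 : ℝ) : RRes :=
  (r_po1 s s1 eps z b0 Sg yr X Y (RC.mk ((1 + dlt.r) + ((dl * X.r) + (ep * Y.r))) ((be0 + dlt.i)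
    + ((dl * X.i) + (ep * Y.i)))) dlt R dl ep rho gr gR yf be0 c1 c2)

def r_cX (s : ℝ) (eps : Bool) (a b : ℝ) : RC :=
  (RC.mk (rsg eps (a - (s * b))) (a + b))

def r_cY (s1 : ℝ) (eps : Bool) (yr be : ℝ) : RC :=
  (RC.mk (s1 * yr) (s1 * (rsg eps be)))

def r_itY (A0 K sbe2 y : ℝ) : ℝ :=
  (A0 + (K * ((y * y) + sbe2)))

def r_cA (s td b0 : ℝ) (z : RSt) : ℝ :=
  ((((z.a * z.a) + (s * (z.b * z.b))) + td) - (s * (b0 * z.be)))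

def r_qe2 (s s1 : ℝ) (eps : Bool) (z : RSt) (g b0 Sg yr R rho ep gR yf : ℝ) : RRes :=
  (r_pe0 s s1 eps z b0 Sg yr (r_cX s eps z.a z.b) (r_cY s1 eps yr z.be) R (2 * gR) ep rho (g *
    rho) gR yf (rsg eps b0))

def r_qe1 (s s1 : ℝ) (eps : Bool) (z : RSt) (g b0 Sb Sg A0 K sbe2 R R2 R2S : ℝ) : RRes :=
  (r_qe2 s s1 eps z g b0 Sg (r_itY A0 K sbe2 (r_itY A0 K sbe2 z.yr)) R (R2S * g) ((R2 - Sb) * (g
    * g)) (R * g) R2S)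

def r_qe0 (s s1 : ℝ) (eps : Bool) (z : RSt) (g b0 Sb td Sg R R2 : ℝ) : RRes :=
  (r_qe1 s s1 eps z g b0 Sb Sg (r_cA s td b0 z) (s1 * Sg) (s * (z.be * z.be)) R R2 (R2 + Sb))

def r_qo3 (s s1 : ℝ) (eps : Bool) (z : RSt) (g b0 Sb Sg yr R R2 rho ep gR yf : ℝ) (dlt : RC) : RRes :=
  (r_po0 s s1 eps z b0 Sg yr (r_cX s eps z.a z.b) (r_cY s1 eps yr z.be) dlt R (2 * gR) ep rho (g
    * rho) gR yf (rsg eps b0) (g * (R2 - Sb)) (2 * (Sg * R)))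

def r_qo2 (s s1 : ℝ) (eps : Bool) (z : RSt) (g b0 Sb Sg yr R R2 R2S cr eta zet nu : ℝ) : RRes :=
  (r_qo3 s s1 eps z g b0 Sb Sg yr R R2 (R2S * g) ((R2 - Sb) * (g * g)) (R * g) (cr * R2S) (RC.mk
    (nu * eta) (rsg eps (nu * zet))))

def r_qo1 (s s1 : ℝ) (eps : Bool) (z : RSt) (g b0 Sb Sg A0 K sbe2 R R2 R2S cr eta zet kq : ℝ) : RRes :=
  (r_qo2 s s1 eps z g b0 Sb Sg (r_itY A0 K sbe2 (r_itY A0 K sbe2 z.yr)) R R2 R2S cr eta zet (kq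
    * R2S))

def r_qo0 (s s1 : ℝ) (eps : Bool) (z : RSt) (g b0 Sb td Sg R R2 cr eta zet kq : ℝ) : RRes :=
  (r_qo1 s s1 eps z g b0 Sb Sg (r_cA s td b0 z) (s1 * Sg) (s * (z.be * z.be)) R R2 (R2 + Sb) cr
    eta zet kq)

def r_pe3 (s : ℝ) (eps : Bool) (z : RSt) (R g Sb td : ℝ) : RRes :=
  (r_qe0 s (1 + s) eps z g ((2 * (2 * g)) - 1) Sb td (Sb * (g * g)) R (R * R))

def r_po4 (s : ℝ) (eps : Bool) (z : RSt) (k R g Sb td eta zet kq : ℝ) : RRes :=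
  (r_qo0 s (1 + s) eps z g ((2 * (2 * g)) - 1) Sb td (Sb * (g * g)) R (R * R) (1 + (((1 / 2) *
    (2 - k)) * eta)) eta zet kq)

def r_po3 (s : ℝ) (eps : Bool) (z : RSt) (k R g Sb td t q4 : ℝ) : RRes :=
  (r_chk q4 (r_po4 s eps z k R g Sb td ((t + (2 * g)) - 1) ((t - (2 * g)) + 1) ((k * k) * (1 /
    q4))))

def r_po2 (s : ℝ) (eps : Bool) (z : RSt) (k R g Sb td : ℝ) : RRes :=
  (r_chk k (r_po3 s eps z k R g Sb td ((2 * (2 * g)) * (1 / k)) (2 * (2 * (2 + k)))))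

def r_pp2 (s : ℝ) (eps even : Bool) (z : RSt) (k R g k2 hd hd2 : ℝ) : RRes :=
  (r_chk k2 (r_chk hd2 (Bool.rec (motive := fun _ => RRes) (r_po2 s eps z k R g (((2 - k) * (2 +
    k)) * (1 / k2)) (((2 - hd) * (2 + hd)) * (1 / hd2))) (r_pe3 s eps z R g (((2 - k) * (2 + k))
    * (1 / k2)) (((2 - hd) * (2 + hd)) * (1 / hd2))) even)))

def r_pp1 (s : ℝ) (eps even : Bool) (z : RSt) (k hd R l2 : ℝ) : RRes :=
  (r_chk l2 (r_pp2 s eps even z k R (1 / l2) (k * k) hd (hd * hd)))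

def r_pp0 (s : ℝ) (eps even : Bool) (z : RSt) (k hd he R khd : ℝ) : RRes :=
  (r_chk khd (r_pp1 s eps even z k hd R (2 * (1 + ((2 * he) * (1 / khd))))))

def r_stp (s : ℝ) (eps even : Bool) (z : RSt) (k hd he R : ℝ) : RRes :=
  (r_pp0 s eps even z k hd he R (k * hd))

def r_rbB (s : ℝ) (eps even : Bool) (z : RSt) (k hd he num den : ℝ) : RRes :=
  (r_chk den (r_stp s eps even z k hd he (1 - (2 * (num * (1 / den))))))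

def r_rb2 (s : ℝ) (eps even : Bool) (z : RSt) (k hd he : ℝ) : RRes :=
  (r_stp s eps even z k hd he 1)

def r_rb3 (s : ℝ) (eps even : Bool) (z : RSt) (k hd he : ℝ) : RRes :=
  (r_rbB s eps even z k hd he 1 (k * (k + 1)))

def r_rb4 (s : ℝ) (eps even : Bool) (z : RSt) (k hd he : ℝ) : RRes :=
  (r_rbB s eps even z k hd he 1 (k * k))

def r_rb5 (s : ℝ) (eps even : Bool) (z : RSt) (k hd he : ℝ) : RRes :=
  (r_rbB s eps even z k hd he (1 + k) (k * (((k * k) + k) - 1)))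

def r_rb6 (s : ℝ) (eps even : Bool) (z : RSt) (k hd he : ℝ) : RRes :=
  (r_rbB s eps even z k hd he 1 ((k * k) - 1))

end Pool.Agent.Helper6.MONO
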