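import Pool.Agent.Helper6.MONO.Sound

/-!
Soundness of the interval program, quantitative version: real numbers in the input intervals give real results which
pass every test passed by the interval results.
-/

set_option autoImplicit false
noncomputable section
namespace Pool.Agent.Helper6.MONO.S

open I

/-- every test passed by the interval result `X` holds for the real result `x` -/
def Good (x : RRes) (X : Res) : Prop := ∀ (t : St) (dc : I) (dl : ℝ), mem dl dc →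
  okR X t dc = true → memSt x.st t ∧ x.L + dl ≤ -(1 / 268435456) ∧ x.ck

theorem le_of_isNeg {x : ℝ} {X : I} (hx : mem x X) (h : isNeg X = true) :
    x ≤ -(1 / 268435456) := by
  cases X with
  | pos l u => exact absurd (show false = true from h) (by simp)
  | mix l u => exact absurd (show false = true from h) (by simp)
  | neg l u =>
    obtain ⟨a1, a2⟩ := hx
    have h1 : Nat.ble 1 l = true := h
    have l1 : (1 : ℝ) ≤ l := by exact_mod_cast Nat.le_of_ble_eq_true h1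
    linarith

theorem good_mk {x : RSt} {X : St} {l : ℝ} {L : I} (h : memSt x X) (hl : mem l L) :
    Good (RRes.mk x l True) (Res.mk X L true) := by
  intro t dc dl hdl ht
  obtain ⟨_, ht⟩ := band_eq ht
  obtain ⟨h1, ht⟩ := band_eq ht
  obtain ⟨h2, ht⟩ := band_eq ht
  obtain ⟨h3, ht⟩ := band_eq ht
  obtain ⟨h4, ht⟩ := band_eq ht
  obtain ⟨h5, ht⟩ := band_eq ht
  obtain ⟨h6, ht⟩ := band_eq ht
  obtain ⟨h7, h8⟩ := band_eq ht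
  exact ⟨⟨mem_of_le h.a h2, mem_of_le h.b h3, mem_of_le h.be h4, mem_of_le h.yr h5,
    mem_of_le h.ad h6, mem_of_le h.bd h7, mem_of_le h.bed h8⟩, le_of_isNeg (mem_add hl hdl) h1, trivial⟩

theorem good_bad (x : RRes) : Good x badRes := by
  intro t dc dl hdl ht
  obtain ⟨h1, _⟩ := band_eq ht
  exact absurd (show false = true from h1) (by simp)

theorem good_chk {a : ℝ} {A : I} (ha : mem a A) {x : RRes} {X : Res}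
    (h : isPos A = true → Good x X) : Good (r_chk a x) (chk A X) := by
  cases A with
  | neg l u => exact good_bad _
  | mix l u => exact good_bad _
  | pos l u =>
    change Good _ (chkP l u X)
    unfold chkP
    cases e : Nat.ble 1 l with
    | false => exact good_bad _
    | true =>
      intro t dc dl hdl ht
      obtain ⟨h1, h2, h3⟩ := h e t dc dl hdl ht
      exact ⟨h1, h2, pos_of_isPos ha e, h3⟩

theorem mem_brec (e : Bool) {a b : ℝ} {A B : I} (ha : mem a A) (hb : mem b B) :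
    mem (Bool.rec (motive := fun _ => ℝ) a b e) (Bool.rec (motive := fun _ => I) A B e) := by
  cases e with
  | false => exact ha
  | true => exact hb

theorem good_brec (e : Bool) {a b : RRes} {A B : Res} (ha : Good a A) (hb : Good b B) :
    Good (Bool.rec (motive := fun _ => RRes) a b e) (Bool.rec (motive := fun _ => Res) A B e) := by
  cases e with
  | false => exact ha
  | true => exact hb

theorem isPos_den {sa sb : Nat} {X : C2} (hp : isPos X.r = true) :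
    isPos (I.add X.r (I.mul (I.pos sa sb) (I.mul (I.sqr X.i) (I.inv X.r)))) = true := by
  obtain ⟨A, B⟩ := X
  cases A with
  | neg l u => exact absurd (show false = true from hp) (by simp)
  | mix l u => exact absurd (show false = true from hp) (by simp)
  | pos l u =>
    have h1 : 1 ≤ l := Nat.le_of_ble_eq_true hp
    cases B with
    | neg l' u' => exact Nat.ble_eq_true_of_le (Nat.le_trans h1 (Nat.le_add_left _ _))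
    | mix l' u' => exact Nat.ble_eq_true_of_le (Nat.le_trans h1 (Nat.le_add_left _ _))
    | pos l' u' => exact Nat.ble_eq_true_of_le (Nat.le_trans h1 (Nat.le_add_left _ _))

theorem mC_mul {s : ℝ} {s_ : I} (hs : mem s s_) {x : RC} {x_ : C2} (hx : memC x x_) {y : RC} {y_
    : C2} (hy : memC y y_) : memC (RC.mul s x y) (C2.mul s_ x_ y_) :=
  (memC.mk (mem_sub (mem_mul hx.r hy.r) (mem_mul hs (mem_mul hx.i hy.i))) (mem_add (mem_mul hx.r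
    hy.i) (mem_mul hx.i hy.r)))

theorem mC_sc {k : ℝ} {k_ : I} (hk : mem k k_) {x : RC} {x_ : C2} (hx : memC x x_) : memC (RC.sc
    k x) (C2.sc k_ x_) :=
  (memC.mk (mem_mul hk hx.r) (mem_mul hk hx.i))

theorem mC_add {x : RC} {x_ : C2} (hx : memC x x_) {y : RC} {y_ : C2} (hy : memC y y_) : memC
    (RC.add x y) (C2.add x_ y_) :=
  (memC.mk (mem_add hx.r hy.r) (mem_add hx.i hy.i))

theorem mC_inv2 {ir : ℝ} {ir_ : I} (hir : mem ir ir_) {qr : ℝ} {qr_ : I} (hqr : mem qr qr_) {x :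
    RC} {x_ : C2} (hx : memC x x_) : memC (RC.inv2 ir qr x) (C2.inv2 ir_ qr_ x_) :=
  (memC.mk hqr (mem_opp (mem_mul (mem_mul hx.i hir) hqr)))

theorem mC_inv {s : ℝ} {sa sb : Nat} (hs : mem s (I.pos sa sb))
    {x : RC} {x_ : C2} (hx : memC x x_) (hp : isPos x_.r = true) :
    memC (RC.inv s x) (C2.inv (I.pos sa sb) x_) :=
  mC_inv2 (mem_inv hx.r hp).1
    (mem_inv (mem_add hx.r (mem_mul hs (mem_mul (mem_sqr hx.i) (mem_inv hx.r hp).1)))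
      (isPos_den hp)).1 hx

theorem m_mulca {s : ℝ} {s_ : I} (hs : mem s s_) (eps : Bool) {x : RC} {x_ : C2} (hx : memC x
    x_) : memC (r_mulca s eps x) (mulca s_ eps x_) :=
  (memC.mk (mem_sub (mem_sg eps hx.r) (mem_mul hs hx.i)) (mem_add hx.r (mem_sg eps hx.i)))

theorem m_mulcb {s : ℝ} {s_ : I} (hs : mem s s_) (eps : Bool) {x : RC} {x_ : C2} (hx : memC x
    x_) : memC (r_mulcb s eps x) (mulcb s_ eps x_) :=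
  (memC.mk (mem_sub (mem_opp (mem_sg eps (mem_mul hs hx.r))) (mem_mul hs hx.i)) (mem_sub hx.r
    (mem_sg eps (mem_mul hs hx.i))))

theorem m_final (cj : Bool) {w : RC} {w_ : C2} (hw : memC w w_) {yQ : RC} {yQ_ : C2} (hyQ : memC
    yQ yQ_) {Za : RC} {Za_ : C2} (hZa : memC Za Za_) {Zb : RC} {Zb_ : C2} (hZb : memC Zb Zb_)
    {Zg : RC} {Zg_ : C2} (hZg : memC Zg Zg_) {Zc : RC} {Zc_ : C2} (hZc : memC Zc Zc_) {Ba : ℝ}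
    {Ba_ : I} (hBa : mem Ba Ba_) {Bb : ℝ} {Bb_ : I} (hBb : mem Bb Bb_) {Bg : ℝ} {Bg_ : I} (hBg :
    mem Bg Bg_) {Bc : ℝ} {Bc_ : I} (hBc : mem Bc Bc_) {La : ℝ} {La_ : I} (hLa : mem La La_) {Lb
    : ℝ} {Lb_ : I} (hLb : mem Lb Lb_) {Lg : ℝ} {Lg_ : I} (hLg : mem Lg Lg_) {Lc : ℝ} {Lc_ : I}
    (hLc : mem Lc Lc_) {z : RSt} {z_ : St} (hz : memSt z z_) : Good (r_final cj w yQ Za Zb Zg Zc
    Ba Bb Bg Bc La Lb Lg Lc z) (final cj w_ yQ_ Za_ Zb_ Zg_ Zc_ Ba_ Bb_ Bg_ Bc_ La_ Lb_ Lg_ Lc_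
    z_) :=
  (good_mk (memSt.mk hw.r (mem_sg cj hw.i) (mem_sg cj hyQ.i) hyQ.r (mem_add (mem_add (mem_mul
    hZa.r hz.ad) (mem_mul hZb.r hz.bd)) (mem_add (mem_mul hZg.r hz.bed) hZc.r)) (mem_sg cj
    (mem_add (mem_add (mem_mul hZa.i hz.ad) (mem_mul hZb.i hz.bd)) (mem_add (mem_mul hZg.i
    hz.bed) hZc.i))) (mem_sg cj (mem_add (mem_add (mem_mul hBa hz.ad) (mem_mul hBb hz.bd))
    (mem_add (mem_mul hBg hz.bed) hBc)))) (mem_add (mem_add (mem_mul hLa hz.ad) (mem_mul hLb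
    hz.bd)) (mem_add (mem_mul hLg hz.bed) hLc)))

theorem m_imm {yQ : RC} {yQ_ : C2} (hyQ : memC yQ yQ_) {q : RC} {q_ : C2} (hq : memC q q_) : mem
    (r_imm yQ q) (imm yQ_ q_) :=
  (mem_opp (mem_add (mem_mul hyQ.r hq.i) (mem_mul hyQ.i hq.r)))

theorem m_ph5 {s1 : ℝ} {s1_ : I} (hs1 : mem s1 s1_) (cj : Bool) {z : RSt} {z_ : St} (hz : memSt
    z z_) {w : RC} {w_ : C2} (hw : memC w w_) {yQ : RC} {yQ_ : C2} (hyQ : memC yQ yQ_) {Za : RC}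
    {Za_ : C2} (hZa : memC Za Za_) {Zb : RC} {Zb_ : C2} (hZb : memC Zb Zb_) {Zg : RC} {Zg_ : C2}
    (hZg : memC Zg Zg_) {Zc : RC} {Zc_ : C2} (hZc : memC Zc Zc_) {qa : RC} {qa_ : C2} (hqa :
    memC qa qa_) {qb : RC} {qb_ : C2} (hqb : memC qb qb_) {qg : RC} {qg_ : C2} (hqg : memC qg
    qg_) {qc : RC} {qc_ : C2} (hqc : memC qc qc_) {QiDi : ℝ} {QiDi_ : I} (hQiDi : mem QiDi
    QiDi_) : Good (r_ph5 s1 cj z w yQ Za Zb Zg Zc qa qb qg qc QiDi) (ph5 s1_ cj z_ w_ yQ_ Za_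
    Zb_ Zg_ Zc_ qa_ qb_ qg_ qc_ QiDi_) :=
  (m_final cj hw hyQ hZa hZb hZg hZc (m_imm hyQ hqa) (m_imm hyQ hqb) (m_imm hyQ hqg) (mem_sub
    (m_imm hyQ hqc) (mem_mul hs1 (mem_mul hQiDi hyQ.i))) (mem_dbl hqa.r) (mem_dbl hqb.r)
    (mem_dbl hqg.r) (mem_sub (mem_add (mem_dbl hqc.r) (mem_mul hs1 hQiDi)) mem_one) hz)

theorem m_cg {s : ℝ} {s_ : I} (hs : mem s s_) {e1 : ℝ} {e1_ : I} (he1 : mem e1 e1_) {Yg : ℝ}
    {Yg_ : I} (hYg : mem Yg Yg_) {V : RC} {V_ : C2} (hV : memC V V_) : memC (r_cg s e1 Yg V) (cg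
    s_ e1_ Yg_ V_) :=
  (memC.mk (mem_sub (mem_mul hYg hV.r) (mem_mul hs (mem_mul he1 hV.i))) (mem_add (mem_mul hYg
    hV.i) (mem_mul he1 hV.r)))

theorem m_cc {s : ℝ} {s_ : I} (hs : mem s s_) {c0 : ℝ} {c0_ : I} (hc0 : mem c0 c0_) {Ycr : ℝ}
    {Ycr_ : I} (hYcr : mem Ycr Ycr_) {Yci : ℝ} {Yci_ : I} (hYci : mem Yci Yci_) {U : RC} {U_ :
    C2} (hU : memC U U_) {V : RC} {V_ : C2} (hV : memC V V_) : memC (r_cc s c0 Ycr Yci U V) (cc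
    s_ c0_ Ycr_ Yci_ U_ V_) :=
  (memC.mk (mem_add (mem_mul hU.r hc0) (mem_sub (mem_mul hV.r hYcr) (mem_mul hs (mem_mul hV.i
    hYci)))) (mem_add (mem_mul hU.i hc0) (mem_add (mem_mul hV.r hYci) (mem_mul hV.i hYcr))))

theorem m_ph4 {s : ℝ} {sa sb : Nat} (hs : mem s (I.pos sa sb)) {s1 : ℝ} {s1_ : I} (hs1 : mem s1
    s1_) (eps : Bool) (cj : Bool) {z : RSt} {z_ : St} (hz : memSt z z_) {w : RC} {w_ : C2} (hw :
    memC w w_) {yQ : RC} {yQ_ : C2} (hyQ : memC yQ yQ_) {D : RC} {D_ : C2} (hD : memC D D_) {Q :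
    RC} {Q_ : C2} (hQ : memC Q Q_) {P : RC} {P_ : C2} (hP : memC P P_) {V : RC} {V_ : C2} (hV :
    memC V V_) {qU : RC} {qU_ : C2} (hqU : memC qU qU_) {qV : RC} {qV_ : C2} (hqV : memC qV qV_)
    {Ya : ℝ} {Ya_ : I} (hYa : mem Ya Ya_) {Yb : ℝ} {Yb_ : I} (hYb : mem Yb Yb_) {Yg : ℝ} {Yg_ :
    I} (hYg : mem Yg Yg_) {Ycr : ℝ} {Ycr_ : I} (hYcr : mem Ycr Ycr_) {Yci : ℝ} {Yci_ : I} (hYci
    : mem Yci Yci_) {c0 : ℝ} {c0_ : I} (hc0 : mem c0 c0_) {e1 : ℝ} {e1_ : I} (he1 : mem e1 e1_)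
    : Good (r_ph4 s s1 eps cj z w yQ D Q P V qU qV Ya Yb Yg Ycr Yci c0 e1) (ph4 (I.pos sa sb)
    s1_ eps cj z_ w_ yQ_ D_ Q_ P_ V_ qU_ qV_ Ya_ Yb_ Yg_ Ycr_ Yci_ c0_ e1_) :=
  (m_ph5 hs1 cj hz hw hyQ (mC_add (m_mulca hs eps hP) (mC_sc hYa hV)) (mC_add (m_mulcb hs eps
    hP) (mC_sc hYb hV)) (m_cg hs he1 hYg hV) (mC_add (m_cc hs hc0 hYcr hYci hP hV) (mC_sc
    (mem_mul hs1 (mem_mul hw.i hD.i)) hQ)) (mC_add (m_mulca hs eps hqU) (mC_sc hYa hqV)) (mC_add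
    (m_mulcb hs eps hqU) (mC_sc hYb hqV)) (m_cg hs he1 hYg hqV) (m_cc hs hc0 hYcr hYci hqU hqV)
    (mem_opp (mem_mul hQ.i hD.i)))

theorem m_ph3 {s : ℝ} {sa sb : Nat} (hs : mem s (I.pos sa sb)) {s1 : ℝ} {s1_ : I} (hs1 : mem s1
    s1_) (eps : Bool) (cj : Bool) {z : RSt} {z_ : St} (hz : memSt z z_) {b0 : ℝ} {b0_ : I} (hb0
    : mem b0 b0_) {Sg : ℝ} {Sg_ : I} (hSg : mem Sg Sg_) {yr : ℝ} {yr_ : I} (hyr : mem yr yr_)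
    {Yi : ℝ} {Yi_ : I} (hYi : mem Yi Yi_) {w : RC} {w_ : C2} (hw : memC w w_) {yQ : RC} {yQ_ :
    C2} (hyQ : memC yQ yQ_) {D : RC} {D_ : C2} (hD : memC D D_) {Q : RC} {Q_ : C2} (hQ : memC Q
    Q_) {P : RC} {P_ : C2} (hP : memC P P_) {V : RC} {V_ : C2} (hV : memC V V_) {dl : ℝ} {dl_ :
    I} (hdl : mem dl dl_) {ep : ℝ} {ep_ : I} (hep : mem ep ep_) {b2 : ℝ} {b2_ : I} (hb2 : mem b2
    b2_) {be2 : ℝ} {be2_ : I} (hbe2 : mem be2 be2_) {iv : ℝ} {iv_ : I} (hiv : mem iv iv_) : Good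
    (r_ph3 s s1 eps cj z b0 Sg yr Yi w yQ D Q P V dl ep b2 be2 iv) (ph3 (I.pos sa sb) s1_ eps cj
    z_ b0_ Sg_ yr_ Yi_ w_ yQ_ D_ Q_ P_ V_ dl_ ep_ b2_ be2_ iv_) :=
  (m_ph4 hs hs1 eps cj hz hw hyQ hD hQ hP hV (mC_sc hdl hQ) (mC_sc hep hQ) (mem_mul hs1 (mem_mul
    (mem_dbl hz.a) hiv)) (mem_mul hs1 (mem_mul (mem_dbl (mem_mul hs hz.b)) hiv)) (mem_mul hs1
    (mem_mul hs (mem_mul (mem_sub (mem_dbl (mem_mul hSg (mem_mul hs1 hz.be))) hb0) hiv)))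
    (mem_mul hs1 (mem_add hyr (mem_mul hs1 (mem_mul (mem_sub (mem_add hb2 (mem_mul hSg (mem_add
    (mem_add (mem_sqr hyr) (mem_mul hs hbe2)) (mem_mul hs1 hbe2)))) (mem_mul hb0 hz.be)) hiv))))
    hYi (mem_opp (mem_sg eps (mem_mul hs1 hz.b))) (mem_sg eps hs1))

theorem m_ph2c {s : ℝ} {sa sb : Nat} (hs : mem s (I.pos sa sb)) {s1 : ℝ} {s1_ : I} (hs1 : mem s1
    s1_) (eps : Bool) (cj : Bool) {z : RSt} {z_ : St} (hz : memSt z z_) {b0 : ℝ} {b0_ : I} (hb0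
    : mem b0 b0_) {Sg : ℝ} {Sg_ : I} (hSg : mem Sg Sg_) {yr : ℝ} {yr_ : I} (hyr : mem yr yr_)
    {Yi : ℝ} {Yi_ : I} (hYi : mem Yi Yi_) {w : RC} {w_ : C2} (hw : memC w w_) {yQ : RC} {yQ_ :
    C2} (hyQ : memC yQ yQ_) {D : RC} {D_ : C2} (hD : memC D D_) {Q : RC} {Q_ : C2} (hQ : memC Q
    Q_) {U : RC} {U_ : C2} (hU : memC U U_) {V : RC} {V_ : C2} (hV : memC V V_) {Q2 : RC} {Q2_ :
    C2} (hQ2 : memC Q2 Q2_) {dl : ℝ} {dl_ : I} (hdl : mem dl dl_) {ep : ℝ} {ep_ : I} (hep : mem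
    ep ep_) {v : ℝ} {v_ : I} (hv : mem v v_) : Good (r_ph2c s s1 eps cj z b0 Sg yr Yi w yQ D Q U
    V Q2 dl ep v) (ph2c (I.pos sa sb) s1_ eps cj z_ b0_ Sg_ yr_ Yi_ w_ yQ_ D_ Q_ U_ V_ Q2_ dl_
    ep_ v_) :=
  (good_chk hv (fun hp0 => (m_ph3 hs hs1 eps cj hz hb0 hSg hyr hYi hw hyQ hD hQ (mC_mul hs hU
    hQ2) (mC_mul hs hV hQ2) hdl hep (mem_sqr hz.b) (mem_sqr hz.be) ((mem_inv hv hp0).1))))

theorem m_ph2e {s : ℝ} {sa sb : Nat} (hs : mem s (I.pos sa sb)) {s1 : ℝ} {s1_ : I} (hs1 : mem s1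
    s1_) (eps : Bool) (cj : Bool) {z : RSt} {z_ : St} (hz : memSt z z_) {b0 : ℝ} {b0_ : I} (hb0
    : mem b0 b0_) {Sg : ℝ} {Sg_ : I} (hSg : mem Sg Sg_) {yr : ℝ} {yr_ : I} (hyr : mem yr yr_) {X
    : RC} {X_ : C2} (hX : memC X X_) {Y : RC} {Y_ : C2} (hY : memC Y Y_) {w : RC} {w_ : C2} (hw
    : memC w w_) {D : RC} {D_ : C2} (hD : memC D D_) {Q : RC} {Q_ : C2} (hQ : memC Q Q_) {R : ℝ}
    {R_ : I} (hR : mem R R_) {dl : ℝ} {dl_ : I} (hdl : mem dl dl_) {ep : ℝ} {ep_ : I} (hep : mem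
    ep ep_) {rho : ℝ} {rho_ : I} (hrho : mem rho rho_) {gr : ℝ} {gr_ : I} (hgr : mem gr gr_) {yf
    : ℝ} {yf_ : I} (hyf : mem yf yf_) {be0 : ℝ} {be0_ : I} (hbe0 : mem be0 be0_) : Good (r_ph2e
    s s1 eps cj z b0 Sg yr X Y w D Q R dl ep rho gr yf be0) (ph2e (I.pos sa sb) s1_ eps cj z_
    b0_ Sg_ yr_ X_ Y_ w_ D_ Q_ R_ dl_ ep_ rho_ gr_ yf_ be0_) :=
  (m_ph2c hs hs1 eps cj hz hb0 hSg hyr hY.i hw (mC_sc hyf hQ) hD hQ (memC.mk (mem_opp (mem_mul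
    hrho (mem_sub mem_one (mem_mul hgr hY.r)))) (mem_opp (mem_mul hrho (mem_sub hbe0 (mem_mul
    hgr hY.i))))) (memC.mk (mem_opp (mem_mul hgr (mem_add hR (mem_mul hrho hX.r)))) (mem_opp
    (mem_mul hgr (mem_add (mem_mul hR hbe0) (mem_mul hrho hX.i))))) (mC_mul hs hQ hQ) hdl hep
    (mem_sub mem_one (mem_dbl (mem_mul (mem_mul hs1 hSg) hyr))))

theorem m_ph2o {s : ℝ} {sa sb : Nat} (hs : mem s (I.pos sa sb)) {s1 : ℝ} {s1_ : I} (hs1 : mem s1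
    s1_) (eps : Bool) (cj : Bool) {z : RSt} {z_ : St} (hz : memSt z z_) {b0 : ℝ} {b0_ : I} (hb0
    : mem b0 b0_) {Sg : ℝ} {Sg_ : I} (hSg : mem Sg Sg_) {yr : ℝ} {yr_ : I} (hyr : mem yr yr_) {X
    : RC} {X_ : C2} (hX : memC X X_) {Y : RC} {Y_ : C2} (hY : memC Y Y_) {w : RC} {w_ : C2} (hw
    : memC w w_) {D : RC} {D_ : C2} (hD : memC D D_) {Q : RC} {Q_ : C2} (hQ : memC Q Q_) {dlt :
    RC} {dlt_ : C2} (hdlt : memC dlt dlt_) {R : ℝ} {R_ : I} (hR : mem R R_) {dl : ℝ} {dl_ : I}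
    (hdl : mem dl dl_) {ep : ℝ} {ep_ : I} (hep : mem ep ep_) {rho : ℝ} {rho_ : I} (hrho : mem
    rho rho_) {gr : ℝ} {gr_ : I} (hgr : mem gr gr_) {yf : ℝ} {yf_ : I} (hyf : mem yf yf_) {be0 :
    ℝ} {be0_ : I} (hbe0 : mem be0 be0_) {c1 : ℝ} {c1_ : I} (hc1 : mem c1 c1_) {c2 : ℝ} {c2_ : I}
    (hc2 : mem c2 c2_) : Good (r_ph2o s s1 eps cj z b0 Sg yr X Y w D Q dlt R dl ep rho gr yf be0
    c1 c2) (ph2o (I.pos sa sb) s1_ eps cj z_ b0_ Sg_ yr_ X_ Y_ w_ D_ Q_ dlt_ R_ dl_ ep_ rho_ gr_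
    yf_ be0_ c1_ c2_) :=
  (m_ph2c hs hs1 eps cj hz hb0 hSg hyr hY.i hw (mC_sc hyf hQ) hD hQ (memC.mk (mem_sub (mem_mul
    hc1 hdlt.r) (mem_mul hrho (mem_sub mem_one (mem_mul hgr hY.r)))) (mem_sub (mem_mul hc1
    hdlt.i) (mem_mul hrho (mem_sub hbe0 (mem_mul hgr hY.i))))) (memC.mk (mem_opp (mem_add
    (mem_mul hc2 hdlt.r) (mem_mul hgr (mem_add hR (mem_mul hrho hX.r))))) (mem_opp (mem_add
    (mem_mul hc2 hdlt.i) (mem_mul hgr (mem_add (mem_mul hR hbe0) (mem_mul hrho hX.i))))))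
    (mC_mul hs hQ hQ) hdl hep (mem_sub mem_one (mem_dbl (mem_mul (mem_mul hs1 hSg) hyr))))

theorem m_ph1e {s : ℝ} {sa sb : Nat} (hs : mem s (I.pos sa sb)) {s1 : ℝ} {s1_ : I} (hs1 : mem s1
    s1_) (eps : Bool) (cj : Bool) {z : RSt} {z_ : St} (hz : memSt z z_) {b0 : ℝ} {b0_ : I} (hb0
    : mem b0 b0_) {Sg : ℝ} {Sg_ : I} (hSg : mem Sg Sg_) {yr : ℝ} {yr_ : I} (hyr : mem yr yr_) {X
    : RC} {X_ : C2} (hX : memC X X_) {Y : RC} {Y_ : C2} (hY : memC Y Y_) {T : RC} {T_ : C2} (hT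
    : memC T T_) {D : RC} {D_ : C2} (hD : memC D D_) {Q : RC} {Q_ : C2} (hQ : memC Q Q_) {R : ℝ}
    {R_ : I} (hR : mem R R_) {dl : ℝ} {dl_ : I} (hdl : mem dl dl_) {ep : ℝ} {ep_ : I} (hep : mem
    ep ep_) {rho : ℝ} {rho_ : I} (hrho : mem rho rho_) {gr : ℝ} {gr_ : I} (hgr : mem gr gr_) {yf
    : ℝ} {yf_ : I} (hyf : mem yf yf_) {be0 : ℝ} {be0_ : I} (hbe0 : mem be0 be0_) {iD : ℝ} {iD_ :
    I} (hiD : mem iD iD_) {num : ℝ} {num_ : I} (hnum : mem num num_) : Good (r_ph1e s s1 eps cj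
    z b0 Sg yr X Y T D Q R dl ep rho gr yf be0 iD num) (ph1e (I.pos sa sb) s1_ eps cj z_ b0_ Sg_
    yr_ X_ Y_ T_ D_ Q_ R_ dl_ ep_ rho_ gr_ yf_ be0_ iD_ num_) :=
  (m_ph2e hs hs1 eps cj hz hb0 hSg hyr hX hY (memC.mk (mem_sub hR (mem_mul hrho (mem_sub
    (mem_mul hT.r hQ.r) (mem_mul hs (mem_mul hT.i hQ.i))))) (mem_opp (mem_mul hrho (mem_mul hnum
    (mem_mul hiD hQ.r))))) hD hQ hR hdl hep hrho hgr hyf hbe0)

theorem m_ph1o2 {s : ℝ} {sa sb : Nat} (hs : mem s (I.pos sa sb)) {s1 : ℝ} {s1_ : I} (hs1 : mem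
    s1 s1_) (eps : Bool) (cj : Bool) {z : RSt} {z_ : St} (hz : memSt z z_) {b0 : ℝ} {b0_ : I}
    (hb0 : mem b0 b0_) {Sg : ℝ} {Sg_ : I} (hSg : mem Sg Sg_) {yr : ℝ} {yr_ : I} (hyr : mem yr
    yr_) {X : RC} {X_ : C2} (hX : memC X X_) {Y : RC} {Y_ : C2} (hY : memC Y Y_) {W : RC} {W_ :
    C2} (hW : memC W W_) {D : RC} {D_ : C2} (hD : memC D D_) {Q : RC} {Q_ : C2} (hQ : memC Q Q_)
    {dlt : RC} {dlt_ : C2} (hdlt : memC dlt dlt_) {R : ℝ} {R_ : I} (hR : mem R R_) {dl : ℝ} {dl_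
    : I} (hdl : mem dl dl_) {ep : ℝ} {ep_ : I} (hep : mem ep ep_) {rho : ℝ} {rho_ : I} (hrho :
    mem rho rho_) {gr : ℝ} {gr_ : I} (hgr : mem gr gr_) {yf : ℝ} {yf_ : I} (hyf : mem yf yf_)
    {be0 : ℝ} {be0_ : I} (hbe0 : mem be0 be0_) {c1 : ℝ} {c1_ : I} (hc1 : mem c1 c1_) {c2 : ℝ}
    {c2_ : I} (hc2 : mem c2 c2_) : Good (r_ph1o2 s s1 eps cj z b0 Sg yr X Y W D Q dlt R dl ep
    rho gr yf be0 c1 c2) (ph1o2 (I.pos sa sb) s1_ eps cj z_ b0_ Sg_ yr_ X_ Y_ W_ D_ Q_ dlt_ R_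
    dl_ ep_ rho_ gr_ yf_ be0_ c1_ c2_) :=
  (m_ph2o hs hs1 eps cj hz hb0 hSg hyr hX hY (memC.mk (mem_sub hR (mem_sub (mem_mul hW.r hQ.r)
    (mem_mul hs (mem_mul hW.i hQ.i)))) (mem_opp (mem_add (mem_mul hW.r hQ.i) (mem_mul hW.i
    hQ.r)))) hD hQ hdlt hR hdl hep hrho hgr hyf hbe0 hc1 hc2)

theorem m_ph1o {s : ℝ} {sa sb : Nat} (hs : mem s (I.pos sa sb)) {s1 : ℝ} {s1_ : I} (hs1 : mem s1
    s1_) (eps : Bool) (cj : Bool) {z : RSt} {z_ : St} (hz : memSt z z_) {b0 : ℝ} {b0_ : I} (hb0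
    : mem b0 b0_) {Sg : ℝ} {Sg_ : I} (hSg : mem Sg Sg_) {yr : ℝ} {yr_ : I} (hyr : mem yr yr_) {X
    : RC} {X_ : C2} (hX : memC X X_) {Y : RC} {Y_ : C2} (hY : memC Y Y_) {T : RC} {T_ : C2} (hT
    : memC T T_) {D : RC} {D_ : C2} (hD : memC D D_) {Q : RC} {Q_ : C2} (hQ : memC Q Q_) {dlt :
    RC} {dlt_ : C2} (hdlt : memC dlt dlt_) {R : ℝ} {R_ : I} (hR : mem R R_) {dl : ℝ} {dl_ : I}
    (hdl : mem dl dl_) {ep : ℝ} {ep_ : I} (hep : mem ep ep_) {rho : ℝ} {rho_ : I} (hrho : mem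
    rho rho_) {gr : ℝ} {gr_ : I} (hgr : mem gr gr_) {yf : ℝ} {yf_ : I} (hyf : mem yf yf_) {be0 :
    ℝ} {be0_ : I} (hbe0 : mem be0 be0_) {c1 : ℝ} {c1_ : I} (hc1 : mem c1 c1_) {c2 : ℝ} {c2_ : I}
    (hc2 : mem c2 c2_) : Good (r_ph1o s s1 eps cj z b0 Sg yr X Y T D Q dlt R dl ep rho gr yf be0
    c1 c2) (ph1o (I.pos sa sb) s1_ eps cj z_ b0_ Sg_ yr_ X_ Y_ T_ D_ Q_ dlt_ R_ dl_ ep_ rho_ gr_
    yf_ be0_ c1_ c2_) :=
  (m_ph1o2 hs hs1 eps cj hz hb0 hSg hyr hX hY (memC.mk (mem_add (mem_mul hrho hT.r) (mem_mul hR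
    hdlt.r)) (mem_add (mem_mul hrho hT.i) (mem_mul hR hdlt.i))) hD hQ hdlt hR hdl hep hrho hgr
    hyf hbe0 hc1 hc2)

theorem m_pe2 {s : ℝ} {sa sb : Nat} (hs : mem s (I.pos sa sb)) {s1 : ℝ} {s1_ : I} (hs1 : mem s1
    s1_) (eps : Bool) {z : RSt} {z_ : St} (hz : memSt z z_) {b0 : ℝ} {b0_ : I} (hb0 : mem b0
    b0_) {Sg : ℝ} {Sg_ : I} (hSg : mem Sg Sg_) {yr : ℝ} {yr_ : I} (hyr : mem yr yr_) {X : RC}
    {X_ : C2} (hX : memC X X_) {Y : RC} {Y_ : C2} (hY : memC Y Y_) {T : RC} {T_ : C2} (hT : memC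
    T T_) {D : RC} {D_ : C2} (hD : memC D D_) {Q : RC} {Q_ : C2} (hQ : memC Q Q_) {R : ℝ} {R_ :
    I} (hR : mem R R_) {dl : ℝ} {dl_ : I} (hdl : mem dl dl_) {ep : ℝ} {ep_ : I} (hep : mem ep
    ep_) {rho : ℝ} {rho_ : I} (hrho : mem rho rho_) {gr : ℝ} {gr_ : I} (hgr : mem gr gr_) {yf :
    ℝ} {yf_ : I} (hyf : mem yf yf_) {be0 : ℝ} {be0_ : I} (hbe0 : mem be0 be0_) {iD : ℝ} {iD_ :
    I} (hiD : mem iD iD_) : Good (r_pe2 s s1 eps z b0 Sg yr X Y T D Q R dl ep rho gr yf be0 iD)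
    (pe2 (I.pos sa sb) s1_ eps z_ b0_ Sg_ yr_ X_ Y_ T_ D_ Q_ R_ dl_ ep_ rho_ gr_ yf_ be0_ iD_) :=
  (m_ph1e hs hs1 eps (Bool.rec (motive := fun _ => Bool) true false eps) hz hb0 hSg hyr hX hY hT
    hD hQ hR hdl hep hrho hgr hyf hbe0 hiD (mem_sub (mem_add hT.i (mem_mul hgr (mem_sub (mem_mul
    hY.i hX.r) (mem_mul hY.r hX.i)))) (mem_mul hbe0 hT.r)))

theorem m_pe1 {s : ℝ} {sa sb : Nat} (hs : mem s (I.pos sa sb)) {s1 : ℝ} {s1_ : I} (hs1 : mem s1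
    s1_) (eps : Bool) {z : RSt} {z_ : St} (hz : memSt z z_) {b0 : ℝ} {b0_ : I} (hb0 : mem b0
    b0_) {Sg : ℝ} {Sg_ : I} (hSg : mem Sg Sg_) {yr : ℝ} {yr_ : I} (hyr : mem yr yr_) {X : RC}
    {X_ : C2} (hX : memC X X_) {Y : RC} {Y_ : C2} (hY : memC Y Y_) {D : RC} {D_ : C2} (hD : memC
    D D_) {R : ℝ} {R_ : I} (hR : mem R R_) {dl : ℝ} {dl_ : I} (hdl : mem dl dl_) {ep : ℝ} {ep_ :
    I} (hep : mem ep ep_) {rho : ℝ} {rho_ : I} (hrho : mem rho rho_) {gr : ℝ} {gr_ : I} (hgr :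
    mem gr gr_) {gR : ℝ} {gR_ : I} (hgR : mem gR gR_) {yf : ℝ} {yf_ : I} (hyf : mem yf yf_) {be0
    : ℝ} {be0_ : I} (hbe0 : mem be0 be0_) : Good (r_pe1 s s1 eps z b0 Sg yr X Y D R dl ep rho gr
    gR yf be0) (pe1 (I.pos sa sb) s1_ eps z_ b0_ Sg_ yr_ X_ Y_ D_ R_ dl_ ep_ rho_ gr_ gR_ yf_
    be0_) :=
  (good_chk hD.r (fun hp0 => (m_pe2 hs hs1 eps hz hb0 hSg hyr hX hY (memC.mk (mem_add hX.r
    (mem_mul hgR hY.r)) (mem_add hX.i (mem_mul hgR hY.i))) hD (mC_inv hs hD hp0) hR hdl hep hrho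
    hgr hyf hbe0 ((mem_inv hD.r hp0).1))))

theorem m_pe0 {s : ℝ} {sa sb : Nat} (hs : mem s (I.pos sa sb)) {s1 : ℝ} {s1_ : I} (hs1 : mem s1
    s1_) (eps : Bool) {z : RSt} {z_ : St} (hz : memSt z z_) {b0 : ℝ} {b0_ : I} (hb0 : mem b0
    b0_) {Sg : ℝ} {Sg_ : I} (hSg : mem Sg Sg_) {yr : ℝ} {yr_ : I} (hyr : mem yr yr_) {X : RC}
    {X_ : C2} (hX : memC X X_) {Y : RC} {Y_ : C2} (hY : memC Y Y_) {R : ℝ} {R_ : I} (hR : mem R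
    R_) {dl : ℝ} {dl_ : I} (hdl : mem dl dl_) {ep : ℝ} {ep_ : I} (hep : mem ep ep_) {rho : ℝ}
    {rho_ : I} (hrho : mem rho rho_) {gr : ℝ} {gr_ : I} (hgr : mem gr gr_) {gR : ℝ} {gR_ : I}
    (hgR : mem gR gR_) {yf : ℝ} {yf_ : I} (hyf : mem yf yf_) {be0 : ℝ} {be0_ : I} (hbe0 : mem
    be0 be0_) : Good (r_pe0 s s1 eps z b0 Sg yr X Y R dl ep rho gr gR yf be0) (pe0 (I.pos sa sb)
    s1_ eps z_ b0_ Sg_ yr_ X_ Y_ R_ dl_ ep_ rho_ gr_ gR_ yf_ be0_) :=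
  (m_pe1 hs hs1 eps hz hb0 hSg hyr hX hY (memC.mk (mem_add mem_one (mem_add (mem_mul hdl hX.r)
    (mem_mul hep hY.r))) (mem_add hbe0 (mem_add (mem_mul hdl hX.i) (mem_mul hep hY.i)))) hR hdl
    hep hrho hgr hgR hyf hbe0)

theorem m_po1 {s : ℝ} {sa sb : Nat} (hs : mem s (I.pos sa sb)) {s1 : ℝ} {s1_ : I} (hs1 : mem s1
    s1_) (eps : Bool) {z : RSt} {z_ : St} (hz : memSt z z_) {b0 : ℝ} {b0_ : I} (hb0 : mem b0
    b0_) {Sg : ℝ} {Sg_ : I} (hSg : mem Sg Sg_) {yr : ℝ} {yr_ : I} (hyr : mem yr yr_) {X : RC}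
    {X_ : C2} (hX : memC X X_) {Y : RC} {Y_ : C2} (hY : memC Y Y_) {D : RC} {D_ : C2} (hD : memC
    D D_) {dlt : RC} {dlt_ : C2} (hdlt : memC dlt dlt_) {R : ℝ} {R_ : I} (hR : mem R R_) {dl :
    ℝ} {dl_ : I} (hdl : mem dl dl_) {ep : ℝ} {ep_ : I} (hep : mem ep ep_) {rho : ℝ} {rho_ : I}
    (hrho : mem rho rho_) {gr : ℝ} {gr_ : I} (hgr : mem gr gr_) {gR : ℝ} {gR_ : I} (hgR : mem gR
    gR_) {yf : ℝ} {yf_ : I} (hyf : mem yf yf_) {be0 : ℝ} {be0_ : I} (hbe0 : mem be0 be0_) {c1 :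
    ℝ} {c1_ : I} (hc1 : mem c1 c1_) {c2 : ℝ} {c2_ : I} (hc2 : mem c2 c2_) : Good (r_po1 s s1 eps
    z b0 Sg yr X Y D dlt R dl ep rho gr gR yf be0 c1 c2) (po1 (I.pos sa sb) s1_ eps z_ b0_ Sg_
    yr_ X_ Y_ D_ dlt_ R_ dl_ ep_ rho_ gr_ gR_ yf_ be0_ c1_ c2_) :=
  (good_chk hD.r (fun hp0 => (m_ph1o hs hs1 eps eps hz hb0 hSg hyr hX hY (memC.mk (mem_add hX.r
    (mem_mul hgR hY.r)) (mem_add hX.i (mem_mul hgR hY.i))) hD (mC_inv hs hD hp0) hdlt hR hdl hep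
    hrho hgr hyf hbe0 hc1 hc2)))

theorem m_po0 {s : ℝ} {sa sb : Nat} (hs : mem s (I.pos sa sb)) {s1 : ℝ} {s1_ : I} (hs1 : mem s1
    s1_) (eps : Bool) {z : RSt} {z_ : St} (hz : memSt z z_) {b0 : ℝ} {b0_ : I} (hb0 : mem b0
    b0_) {Sg : ℝ} {Sg_ : I} (hSg : mem Sg Sg_) {yr : ℝ} {yr_ : I} (hyr : mem yr yr_) {X : RC}
    {X_ : C2} (hX : memC X X_) {Y : RC} {Y_ : C2} (hY : memC Y Y_) {dlt : RC} {dlt_ : C2} (hdlt
    : memC dlt dlt_) {R : ℝ} {R_ : I} (hR : mem R R_) {dl : ℝ} {dl_ : I} (hdl : mem dl dl_) {ep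
    : ℝ} {ep_ : I} (hep : mem ep ep_) {rho : ℝ} {rho_ : I} (hrho : mem rho rho_) {gr : ℝ} {gr_ :
    I} (hgr : mem gr gr_) {gR : ℝ} {gR_ : I} (hgR : mem gR gR_) {yf : ℝ} {yf_ : I} (hyf : mem yf
    yf_) {be0 : ℝ} {be0_ : I} (hbe0 : mem be0 be0_) {c1 : ℝ} {c1_ : I} (hc1 : mem c1 c1_) {c2 :
    ℝ} {c2_ : I} (hc2 : mem c2 c2_) : Good (r_po0 s s1 eps z b0 Sg yr X Y dlt R dl ep rho gr gR
    yf be0 c1 c2) (po0 (I.pos sa sb) s1_ eps z_ b0_ Sg_ yr_ X_ Y_ dlt_ R_ dl_ ep_ rho_ gr_ gR_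
    yf_ be0_ c1_ c2_) :=
  (m_po1 hs hs1 eps hz hb0 hSg hyr hX hY (memC.mk (mem_add (mem_add mem_one hdlt.r) (mem_add
    (mem_mul hdl hX.r) (mem_mul hep hY.r))) (mem_add (mem_add hbe0 hdlt.i) (mem_add (mem_mul hdl
    hX.i) (mem_mul hep hY.i)))) hdlt hR hdl hep hrho hgr hgR hyf hbe0 hc1 hc2)

theorem m_cX {s : ℝ} {s_ : I} (hs : mem s s_) (eps : Bool) {a : ℝ} {a_ : I} (ha : mem a a_) {b :
    ℝ} {b_ : I} (hb : mem b b_) : memC (r_cX s eps a b) (cX s_ eps a_ b_) :=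
  (memC.mk (mem_sg eps (mem_sub ha (mem_mul hs hb))) (mem_add ha hb))

theorem m_cY {s1 : ℝ} {s1_ : I} (hs1 : mem s1 s1_) (eps : Bool) {yr : ℝ} {yr_ : I} (hyr : mem yr
    yr_) {be : ℝ} {be_ : I} (hbe : mem be be_) : memC (r_cY s1 eps yr be) (cY s1_ eps yr_ be_) :=
  (memC.mk (mem_mul hs1 hyr) (mem_mul hs1 (mem_sg eps hbe)))

theorem m_itY {A0 : ℝ} {A0_ : I} (hA0 : mem A0 A0_) {K : ℝ} {K_ : I} (hK : mem K K_) {sbe2 : ℝ}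
    {sbe2_ : I} (hsbe2 : mem sbe2 sbe2_) {y : ℝ} {y_ : I} (hy : mem y y_) : mem (r_itY A0 K sbe2
    y) (itY A0_ K_ sbe2_ y_) :=
  (mem_add hA0 (mem_mul hK (mem_add (mem_sqr hy) hsbe2)))

theorem m_cA {s : ℝ} {s_ : I} (hs : mem s s_) {td : ℝ} {td_ : I} (htd : mem td td_) {b0 : ℝ}
    {b0_ : I} (hb0 : mem b0 b0_) {z : RSt} {z_ : St} (hz : memSt z z_) : mem (r_cA s td b0 z)
    (cA s_ td_ b0_ z_) :=
  (mem_sub (mem_add (mem_add (mem_sqr hz.a) (mem_mul hs (mem_sqr hz.b))) htd) (mem_mul hs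
    (mem_mul hb0 hz.be)))

theorem m_qe2 {s : ℝ} {sa sb : Nat} (hs : mem s (I.pos sa sb)) {s1 : ℝ} {s1_ : I} (hs1 : mem s1
    s1_) (eps : Bool) {z : RSt} {z_ : St} (hz : memSt z z_) {g : ℝ} {g_ : I} (hg : mem g g_) {b0
    : ℝ} {b0_ : I} (hb0 : mem b0 b0_) {Sg : ℝ} {Sg_ : I} (hSg : mem Sg Sg_) {yr : ℝ} {yr_ : I}
    (hyr : mem yr yr_) {R : ℝ} {R_ : I} (hR : mem R R_) {rho : ℝ} {rho_ : I} (hrho : mem rho
    rho_) {ep : ℝ} {ep_ : I} (hep : mem ep ep_) {gR : ℝ} {gR_ : I} (hgR : mem gR gR_) {yf : ℝ}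
    {yf_ : I} (hyf : mem yf yf_) : Good (r_qe2 s s1 eps z g b0 Sg yr R rho ep gR yf) (qe2 (I.pos
    sa sb) s1_ eps z_ g_ b0_ Sg_ yr_ R_ rho_ ep_ gR_ yf_) :=
  (m_pe0 hs hs1 eps hz hb0 hSg hyr (m_cX hs eps hz.a hz.b) (m_cY hs1 eps hyr hz.be) hR (mem_dbl
    hgR) hep hrho (mem_mul hg hrho) hgR hyf (mem_sg eps hb0))

theorem m_qe1 {s : ℝ} {sa sb : Nat} (hs : mem s (I.pos sa sb)) {s1 : ℝ} {s1_ : I} (hs1 : mem s1
    s1_) (eps : Bool) {z : RSt} {z_ : St} (hz : memSt z z_) {g : ℝ} {g_ : I} (hg : mem g g_) {b0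
    : ℝ} {b0_ : I} (hb0 : mem b0 b0_) {Sb : ℝ} {Sb_ : I} (hSb : mem Sb Sb_) {Sg : ℝ} {Sg_ : I}
    (hSg : mem Sg Sg_) {A0 : ℝ} {A0_ : I} (hA0 : mem A0 A0_) {K : ℝ} {K_ : I} (hK : mem K K_)
    {sbe2 : ℝ} {sbe2_ : I} (hsbe2 : mem sbe2 sbe2_) {R : ℝ} {R_ : I} (hR : mem R R_) {R2 : ℝ}
    {R2_ : I} (hR2 : mem R2 R2_) {R2S : ℝ} {R2S_ : I} (hR2S : mem R2S R2S_) : Good (r_qe1 s s1
    eps z g b0 Sb Sg A0 K sbe2 R R2 R2S) (qe1 (I.pos sa sb) s1_ eps z_ g_ b0_ Sb_ Sg_ A0_ K_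
    sbe2_ R_ R2_ R2S_) :=
  (m_qe2 hs hs1 eps hz hg hb0 hSg (m_itY hA0 hK hsbe2 (m_itY hA0 hK hsbe2 hz.yr)) hR (mem_mul
    hR2S hg) (mem_mul (mem_sub hR2 hSb) (mem_sqr hg)) (mem_mul hR hg) hR2S)

theorem m_qe0 {s : ℝ} {sa sb : Nat} (hs : mem s (I.pos sa sb)) {s1 : ℝ} {s1_ : I} (hs1 : mem s1
    s1_) (eps : Bool) {z : RSt} {z_ : St} (hz : memSt z z_) {g : ℝ} {g_ : I} (hg : mem g g_) {b0
    : ℝ} {b0_ : I} (hb0 : mem b0 b0_) {Sb : ℝ} {Sb_ : I} (hSb : mem Sb Sb_) {td : ℝ} {td_ : I}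
    (htd : mem td td_) {Sg : ℝ} {Sg_ : I} (hSg : mem Sg Sg_) {R : ℝ} {R_ : I} (hR : mem R R_)
    {R2 : ℝ} {R2_ : I} (hR2 : mem R2 R2_) : Good (r_qe0 s s1 eps z g b0 Sb td Sg R R2) (qe0
    (I.pos sa sb) s1_ eps z_ g_ b0_ Sb_ td_ Sg_ R_ R2_) :=
  (m_qe1 hs hs1 eps hz hg hb0 hSb hSg (m_cA hs htd hb0 hz) (mem_mul hs1 hSg) (mem_mul hs
    (mem_sqr hz.be)) hR hR2 (mem_add hR2 hSb))

theorem m_qo3 {s : ℝ} {sa sb : Nat} (hs : mem s (I.pos sa sb)) {s1 : ℝ} {s1_ : I} (hs1 : mem s1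
    s1_) (eps : Bool) {z : RSt} {z_ : St} (hz : memSt z z_) {g : ℝ} {g_ : I} (hg : mem g g_) {b0
    : ℝ} {b0_ : I} (hb0 : mem b0 b0_) {Sb : ℝ} {Sb_ : I} (hSb : mem Sb Sb_) {Sg : ℝ} {Sg_ : I}
    (hSg : mem Sg Sg_) {yr : ℝ} {yr_ : I} (hyr : mem yr yr_) {R : ℝ} {R_ : I} (hR : mem R R_)
    {R2 : ℝ} {R2_ : I} (hR2 : mem R2 R2_) {rho : ℝ} {rho_ : I} (hrho : mem rho rho_) {ep : ℝ}
    {ep_ : I} (hep : mem ep ep_) {gR : ℝ} {gR_ : I} (hgR : mem gR gR_) {yf : ℝ} {yf_ : I} (hyf :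
    mem yf yf_) {dlt : RC} {dlt_ : C2} (hdlt : memC dlt dlt_) : Good (r_qo3 s s1 eps z g b0 Sb
    Sg yr R R2 rho ep gR yf dlt) (qo3 (I.pos sa sb) s1_ eps z_ g_ b0_ Sb_ Sg_ yr_ R_ R2_ rho_
    ep_ gR_ yf_ dlt_) :=
  (m_po0 hs hs1 eps hz hb0 hSg hyr (m_cX hs eps hz.a hz.b) (m_cY hs1 eps hyr hz.be) hdlt hR
    (mem_dbl hgR) hep hrho (mem_mul hg hrho) hgR hyf (mem_sg eps hb0) (mem_mul hg (mem_sub hR2
    hSb)) (mem_dbl (mem_mul hSg hR)))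

theorem m_qo2 {s : ℝ} {sa sb : Nat} (hs : mem s (I.pos sa sb)) {s1 : ℝ} {s1_ : I} (hs1 : mem s1
    s1_) (eps : Bool) {z : RSt} {z_ : St} (hz : memSt z z_) {g : ℝ} {g_ : I} (hg : mem g g_) {b0
    : ℝ} {b0_ : I} (hb0 : mem b0 b0_) {Sb : ℝ} {Sb_ : I} (hSb : mem Sb Sb_) {Sg : ℝ} {Sg_ : I}
    (hSg : mem Sg Sg_) {yr : ℝ} {yr_ : I} (hyr : mem yr yr_) {R : ℝ} {R_ : I} (hR : mem R R_)
    {R2 : ℝ} {R2_ : I} (hR2 : mem R2 R2_) {R2S : ℝ} {R2S_ : I} (hR2S : mem R2S R2S_) {cr : ℝ}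
    {cr_ : I} (hcr : mem cr cr_) {eta : ℝ} {eta_ : I} (heta : mem eta eta_) {zet : ℝ} {zet_ : I}
    (hzet : mem zet zet_) {nu : ℝ} {nu_ : I} (hnu : mem nu nu_) : Good (r_qo2 s s1 eps z g b0 Sb
    Sg yr R R2 R2S cr eta zet nu) (qo2 (I.pos sa sb) s1_ eps z_ g_ b0_ Sb_ Sg_ yr_ R_ R2_ R2S_
    cr_ eta_ zet_ nu_) :=
  (m_qo3 hs hs1 eps hz hg hb0 hSb hSg hyr hR hR2 (mem_mul hR2S hg) (mem_mul (mem_sub hR2 hSb)
    (mem_sqr hg)) (mem_mul hR hg) (mem_mul hcr hR2S) (memC.mk (mem_mul hnu heta) (mem_sg eps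
    (mem_mul hnu hzet))))

theorem m_qo1 {s : ℝ} {sa sb : Nat} (hs : mem s (I.pos sa sb)) {s1 : ℝ} {s1_ : I} (hs1 : mem s1
    s1_) (eps : Bool) {z : RSt} {z_ : St} (hz : memSt z z_) {g : ℝ} {g_ : I} (hg : mem g g_) {b0
    : ℝ} {b0_ : I} (hb0 : mem b0 b0_) {Sb : ℝ} {Sb_ : I} (hSb : mem Sb Sb_) {Sg : ℝ} {Sg_ : I}
    (hSg : mem Sg Sg_) {A0 : ℝ} {A0_ : I} (hA0 : mem A0 A0_) {K : ℝ} {K_ : I} (hK : mem K K_)
    {sbe2 : ℝ} {sbe2_ : I} (hsbe2 : mem sbe2 sbe2_) {R : ℝ} {R_ : I} (hR : mem R R_) {R2 : ℝ}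
    {R2_ : I} (hR2 : mem R2 R2_) {R2S : ℝ} {R2S_ : I} (hR2S : mem R2S R2S_) {cr : ℝ} {cr_ : I}
    (hcr : mem cr cr_) {eta : ℝ} {eta_ : I} (heta : mem eta eta_) {zet : ℝ} {zet_ : I} (hzet :
    mem zet zet_) {kq : ℝ} {kq_ : I} (hkq : mem kq kq_) : Good (r_qo1 s s1 eps z g b0 Sb Sg A0 K
    sbe2 R R2 R2S cr eta zet kq) (qo1 (I.pos sa sb) s1_ eps z_ g_ b0_ Sb_ Sg_ A0_ K_ sbe2_ R_
    R2_ R2S_ cr_ eta_ zet_ kq_) :=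
  (m_qo2 hs hs1 eps hz hg hb0 hSb hSg (m_itY hA0 hK hsbe2 (m_itY hA0 hK hsbe2 hz.yr)) hR hR2
    hR2S hcr heta hzet (mem_mul hkq hR2S))

theorem m_qo0 {s : ℝ} {sa sb : Nat} (hs : mem s (I.pos sa sb)) {s1 : ℝ} {s1_ : I} (hs1 : mem s1
    s1_) (eps : Bool) {z : RSt} {z_ : St} (hz : memSt z z_) {g : ℝ} {g_ : I} (hg : mem g g_) {b0
    : ℝ} {b0_ : I} (hb0 : mem b0 b0_) {Sb : ℝ} {Sb_ : I} (hSb : mem Sb Sb_) {td : ℝ} {td_ : I}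
    (htd : mem td td_) {Sg : ℝ} {Sg_ : I} (hSg : mem Sg Sg_) {R : ℝ} {R_ : I} (hR : mem R R_)
    {R2 : ℝ} {R2_ : I} (hR2 : mem R2 R2_) {cr : ℝ} {cr_ : I} (hcr : mem cr cr_) {eta : ℝ} {eta_
    : I} (heta : mem eta eta_) {zet : ℝ} {zet_ : I} (hzet : mem zet zet_) {kq : ℝ} {kq_ : I}
    (hkq : mem kq kq_) : Good (r_qo0 s s1 eps z g b0 Sb td Sg R R2 cr eta zet kq) (qo0 (I.pos sa
    sb) s1_ eps z_ g_ b0_ Sb_ td_ Sg_ R_ R2_ cr_ eta_ zet_ kq_) :=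
  (m_qo1 hs hs1 eps hz hg hb0 hSb hSg (m_cA hs htd hb0 hz) (mem_mul hs1 hSg) (mem_mul hs
    (mem_sqr hz.be)) hR hR2 (mem_add hR2 hSb) hcr heta hzet hkq)

theorem m_pe3 {s : ℝ} {sa sb : Nat} (hs : mem s (I.pos sa sb)) (eps : Bool) {z : RSt} {z_ : St}
    (hz : memSt z z_) {R : ℝ} {R_ : I} (hR : mem R R_) {g : ℝ} {g_ : I} (hg : mem g g_) {Sb : ℝ}
    {Sb_ : I} (hSb : mem Sb Sb_) {td : ℝ} {td_ : I} (htd : mem td td_) : Good (r_pe3 s eps z R g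
    Sb td) (pe3 (I.pos sa sb) eps z_ R_ g_ Sb_ td_) :=
  (m_qe0 hs (mem_add mem_one hs) eps hz hg (mem_sub (mem_dbl (mem_dbl hg)) mem_one) hSb htd
    (mem_mul hSb (mem_sqr hg)) hR (mem_sqr hR))

theorem m_po4 {s : ℝ} {sa sb : Nat} (hs : mem s (I.pos sa sb)) (eps : Bool) {z : RSt} {z_ : St}
    (hz : memSt z z_) {k : ℝ} {k_ : I} (hk : mem k k_) {R : ℝ} {R_ : I} (hR : mem R R_) {g : ℝ}
    {g_ : I} (hg : mem g g_) {Sb : ℝ} {Sb_ : I} (hSb : mem Sb Sb_) {td : ℝ} {td_ : I} (htd : mem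
    td td_) {eta : ℝ} {eta_ : I} (heta : mem eta eta_) {zet : ℝ} {zet_ : I} (hzet : mem zet
    zet_) {kq : ℝ} {kq_ : I} (hkq : mem kq kq_) : Good (r_po4 s eps z k R g Sb td eta zet kq)
    (po4 (I.pos sa sb) eps z_ k_ R_ g_ Sb_ td_ eta_ zet_ kq_) :=
  (m_qo0 hs (mem_add mem_one hs) eps hz hg (mem_sub (mem_dbl (mem_dbl hg)) mem_one) hSb htd
    (mem_mul hSb (mem_sqr hg)) hR (mem_sqr hR) (mem_add mem_one (mem_mul (mem_mul mem_half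
    (mem_sub mem_two hk)) heta)) heta hzet hkq)

theorem m_po3 {s : ℝ} {sa sb : Nat} (hs : mem s (I.pos sa sb)) (eps : Bool) {z : RSt} {z_ : St}
    (hz : memSt z z_) {k : ℝ} {k_ : I} (hk : mem k k_) {R : ℝ} {R_ : I} (hR : mem R R_) {g : ℝ}
    {g_ : I} (hg : mem g g_) {Sb : ℝ} {Sb_ : I} (hSb : mem Sb Sb_) {td : ℝ} {td_ : I} (htd : mem
    td td_) {t : ℝ} {t_ : I} (ht : mem t t_) {q4 : ℝ} {q4_ : I} (hq4 : mem q4 q4_) : Good (r_po3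
    s eps z k R g Sb td t q4) (po3 (I.pos sa sb) eps z_ k_ R_ g_ Sb_ td_ t_ q4_) :=
  (good_chk hq4 (fun hp0 => (m_po4 hs eps hz hk hR hg hSb htd (mem_sub (mem_add ht (mem_dbl hg))
    mem_one) (mem_add (mem_sub ht (mem_dbl hg)) mem_one) (mem_mul (mem_sqr hk) (mem_inv hq4
    hp0).1))))

theorem m_po2 {s : ℝ} {sa sb : Nat} (hs : mem s (I.pos sa sb)) (eps : Bool) {z : RSt} {z_ : St}
    (hz : memSt z z_) {k : ℝ} {k_ : I} (hk : mem k k_) {R : ℝ} {R_ : I} (hR : mem R R_) {g : ℝ}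
    {g_ : I} (hg : mem g g_) {Sb : ℝ} {Sb_ : I} (hSb : mem Sb Sb_) {td : ℝ} {td_ : I} (htd : mem
    td td_) : Good (r_po2 s eps z k R g Sb td) (po2 (I.pos sa sb) eps z_ k_ R_ g_ Sb_ td_) :=
  (good_chk hk (fun hp0 => (m_po3 hs eps hz hk hR hg hSb htd (mem_mul (mem_dbl (mem_dbl hg))
    (mem_inv hk hp0).1) (mem_dbl (mem_dbl (mem_add mem_two hk))))))

theorem m_pp2 {s : ℝ} {sa sb : Nat} (hs : mem s (I.pos sa sb)) (eps : Bool) (even : Bool) {z :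
    RSt} {z_ : St} (hz : memSt z z_) {k : ℝ} {k_ : I} (hk : mem k k_) {R : ℝ} {R_ : I} (hR : mem
    R R_) {g : ℝ} {g_ : I} (hg : mem g g_) {k2 : ℝ} {k2_ : I} (hk2 : mem k2 k2_) {hd : ℝ} {hd_ :
    I} (hhd : mem hd hd_) {hd2 : ℝ} {hd2_ : I} (hhd2 : mem hd2 hd2_) : Good (r_pp2 s eps even z
    k R g k2 hd hd2) (pp2 (I.pos sa sb) eps even z_ k_ R_ g_ k2_ hd_ hd2_) :=
  (good_chk hk2 (fun hp0 => (good_chk hhd2 (fun hp1 => (good_brec even (m_po2 hs eps hz hk hR hg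
    (mem_mul (mem_mul (mem_sub mem_two hk) (mem_add mem_two hk)) (mem_inv hk2 hp0).1) (mem_mul
    (mem_mul (mem_sub mem_two hhd) (mem_add mem_two hhd)) (mem_inv hhd2 hp1).1)) (m_pe3 hs eps
    hz hR hg (mem_mul (mem_mul (mem_sub mem_two hk) (mem_add mem_two hk)) (mem_inv hk2 hp0).1)
    (mem_mul (mem_mul (mem_sub mem_two hhd) (mem_add mem_two hhd)) (mem_inv hhd2 hp1).1)))))))

theorem m_pp1 {s : ℝ} {sa sb : Nat} (hs : mem s (I.pos sa sb)) (eps : Bool) (even : Bool) {z :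
    RSt} {z_ : St} (hz : memSt z z_) {k : ℝ} {k_ : I} (hk : mem k k_) {hd : ℝ} {hd_ : I} (hhd :
    mem hd hd_) {R : ℝ} {R_ : I} (hR : mem R R_) {l2 : ℝ} {l2_ : I} (hl2 : mem l2 l2_) : Good
    (r_pp1 s eps even z k hd R l2) (pp1 (I.pos sa sb) eps even z_ k_ hd_ R_ l2_) :=
  (good_chk hl2 (fun hp0 => (m_pp2 hs eps even hz hk hR ((mem_inv hl2 hp0).1) (mem_sqr hk) hhd
    (mem_sqr hhd))))

theorem m_pp0 {s : ℝ} {sa sb : Nat} (hs : mem s (I.pos sa sb)) (eps : Bool) (even : Bool) {z :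
    RSt} {z_ : St} (hz : memSt z z_) {k : ℝ} {k_ : I} (hk : mem k k_) {hd : ℝ} {hd_ : I} (hhd :
    mem hd hd_) {he : ℝ} {he_ : I} (hhe : mem he he_) {R : ℝ} {R_ : I} (hR : mem R R_) {khd : ℝ}
    {khd_ : I} (hkhd : mem khd khd_) : Good (r_pp0 s eps even z k hd he R khd) (pp0 (I.pos sa
    sb) eps even z_ k_ hd_ he_ R_ khd_) :=
  (good_chk hkhd (fun hp0 => (m_pp1 hs eps even hz hk hhd hR (mem_dbl (mem_add mem_one (mem_mul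
    (mem_dbl hhe) (mem_inv hkhd hp0).1))))))

theorem m_stp {s : ℝ} {sa sb : Nat} (hs : mem s (I.pos sa sb)) (eps : Bool) (even : Bool) {z :
    RSt} {z_ : St} (hz : memSt z z_) {k : ℝ} {k_ : I} (hk : mem k k_) {hd : ℝ} {hd_ : I} (hhd :
    mem hd hd_) {he : ℝ} {he_ : I} (hhe : mem he he_) {R : ℝ} {R_ : I} (hR : mem R R_) : Good
    (r_stp s eps even z k hd he R) (stp (I.pos sa sb) eps even z_ k_ hd_ he_ R_) :=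
  (m_pp0 hs eps even hz hk hhd hhe hR (mem_mul hk hhd))

theorem m_rbB {s : ℝ} {sa sb : Nat} (hs : mem s (I.pos sa sb)) (eps : Bool) (even : Bool) {z :
    RSt} {z_ : St} (hz : memSt z z_) {k : ℝ} {k_ : I} (hk : mem k k_) {hd : ℝ} {hd_ : I} (hhd :
    mem hd hd_) {he : ℝ} {he_ : I} (hhe : mem he he_) {num : ℝ} {num_ : I} (hnum : mem num num_)
    {den : ℝ} {den_ : I} (hden : mem den den_) : Good (r_rbB s eps even z k hd he num den) (rbB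
    (I.pos sa sb) eps even z_ k_ hd_ he_ num_ den_) :=
  (good_chk hden (fun hp0 => (m_stp hs eps even hz hk hhd hhe (mem_sub mem_one (mem_dbl (mem_mul
    hnum (mem_inv hden hp0).1))))))

theorem m_rb2 {s : ℝ} {sa sb : Nat} (hs : mem s (I.pos sa sb)) (eps : Bool) (even : Bool) {z :
    RSt} {z_ : St} (hz : memSt z z_) {k : ℝ} {k_ : I} (hk : mem k k_) {hd : ℝ} {hd_ : I} (hhd :
    mem hd hd_) {he : ℝ} {he_ : I} (hhe : mem he he_) : Good (r_rb2 s eps even z k hd he) (rb2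
    (I.pos sa sb) eps even z_ k_ hd_ he_) :=
  (m_stp hs eps even hz hk hhd hhe mem_one)

theorem m_rb3 {s : ℝ} {sa sb : Nat} (hs : mem s (I.pos sa sb)) (eps : Bool) (even : Bool) {z :
    RSt} {z_ : St} (hz : memSt z z_) {k : ℝ} {k_ : I} (hk : mem k k_) {hd : ℝ} {hd_ : I} (hhd :
    mem hd hd_) {he : ℝ} {he_ : I} (hhe : mem he he_) : Good (r_rb3 s eps even z k hd he) (rb3
    (I.pos sa sb) eps even z_ k_ hd_ he_) :=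
  (m_rbB hs eps even hz hk hhd hhe mem_one (mem_mul hk (mem_add hk mem_one)))

theorem m_rb4 {s : ℝ} {sa sb : Nat} (hs : mem s (I.pos sa sb)) (eps : Bool) (even : Bool) {z :
    RSt} {z_ : St} (hz : memSt z z_) {k : ℝ} {k_ : I} (hk : mem k k_) {hd : ℝ} {hd_ : I} (hhd :
    mem hd hd_) {he : ℝ} {he_ : I} (hhe : mem he he_) : Good (r_rb4 s eps even z k hd he) (rb4
    (I.pos sa sb) eps even z_ k_ hd_ he_) :=
  (m_rbB hs eps even hz hk hhd hhe mem_one (mem_sqr hk))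

theorem m_rb5 {s : ℝ} {sa sb : Nat} (hs : mem s (I.pos sa sb)) (eps : Bool) (even : Bool) {z :
    RSt} {z_ : St} (hz : memSt z z_) {k : ℝ} {k_ : I} (hk : mem k k_) {hd : ℝ} {hd_ : I} (hhd :
    mem hd hd_) {he : ℝ} {he_ : I} (hhe : mem he he_) : Good (r_rb5 s eps even z k hd he) (rb5
    (I.pos sa sb) eps even z_ k_ hd_ he_) :=
  (m_rbB hs eps even hz hk hhd hhe (mem_add mem_one hk) (mem_mul hk (mem_sub (mem_add (mem_sqr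
    hk) hk) mem_one)))

theorem m_rb6 {s : ℝ} {sa sb : Nat} (hs : mem s (I.pos sa sb)) (eps : Bool) (even : Bool) {z :
    RSt} {z_ : St} (hz : memSt z z_) {k : ℝ} {k_ : I} (hk : mem k k_) {hd : ℝ} {hd_ : I} (hhd :
    mem hd hd_) {he : ℝ} {he_ : I} (hhe : mem he he_) : Good (r_rb6 s eps even z k hd he) (rb6
    (I.pos sa sb) eps even z_ k_ hd_ he_) :=
  (m_rbB hs eps even hz hk hhd hhe mem_one (mem_sub (mem_sqr hk) mem_one))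

end Pool.Agent.Helper6.MONO.S
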