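import Pool.Agent.Helper6.MONO.Stmts
import Pool.Agent.Helper6.MONO.Sound2

/-!
Quantitative version: statements of the modules. Everything as in the first version, but with a
definite gain in every block; this gives a uniform contraction of the length spectrum.
-/

set_option autoImplicit false
noncomputable section
namespace Pool.Agent.Helper6.MONO.S

/-- soundness of a subdivision tree -/
def ST_TRS : Prop := ∀ (t : Tag) (src : Bx) (bt : BTr) (tr : Tr) (c : Cell) (sa sb : ℕ),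
  c.s = I.pos sa sb → chkTr t src bt tr c = true →
  ∀ (s k hd he R : ℝ) (z : RSt), InPr c s k hd he z → (t.rt = RT.tl → mem R c.R) →
  mem z.yr src.z.yr → mem z.ad src.z.ad → mem z.bd src.z.bd → mem z.bed src.z.bed →
  rtOK t.rt k R →
  (r_stp s t.eps t.even z k hd he R).ck ∧
  ∃ (p : Pth) (x : Bx), BTr.at p bt = some x ∧ (x.v = true → t.vout = true) ∧
    memSt (r_stp s t.eps t.even z k hd he R).st x.z ∧
    (r_stp s t.eps t.even z k hd he R).L + ((x.pot : ℝ) - src.pot) / 268435456 ≤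
      -(1 / 268435456)

/-- soundness of one tag -/
def ST_TGS : Prop := ST_TRS → ∀ (sa sb : ℕ) (ck cd ce : ClassD) (bt : BTr) (src : Bx) (t : Tag)
  (RI : I) (tr : Tr), chkTag (I.pos sa sb) ck cd ce bt src t RI tr = true →
  (t.rt = RT.tl → t.m0 ≠ RT.tl ∧ t.m0 ≠ RT.r2) →
  ∀ (s k hd he R : ℝ) (z : RSt), mem s (I.pos sa sb) → mem k ck.k → mem hd cd.k → mem he ce.k →
  memSt z src.z → rtOK t.rt k R → tailOK t k R →
  (r_stp s t.eps t.even z k hd he R).ck ∧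
  ∃ (p : Pth) (x : Bx), BTr.at p bt = some x ∧ (x.v = true → t.vout = true) ∧
    memSt (r_stp s t.eps t.even z k hd he R).st x.z ∧
    (r_stp s t.eps t.even z k hd he R).L + ((x.pot : ℝ) - src.pot) / 268435456 ≤
      -(1 / 268435456)

/-- the region: everything the certificate provides for the orders `p, q, r` and `s0 ≤ s ≤ s1`,
with a gain `dl` in every block -/
def RegOK (p q r : ℕ) (s0 s1 dl : ℝ) : Prop :=
  ∃ (J : Type) (At : J → Fin 3 × Fin 3 × Fin 3 → Prop) (fl : J → Bool) (pt : J → ℝ)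
    (Bx : J → RSt → Prop) (B : ℝ),
    (∀ j, |pt j| ≤ B) ∧
    (∀ j z, Bx j z → |z.a| ≤ B ∧ |z.b| ≤ B ∧ |z.be| ≤ B ∧ |z.yr| ≤ B) ∧
    (∀ c d e : Fin 3, Dist c d e → ∀ a0, isA0 a0 → ∃ j, At j (c, d, e) ∧ fl j = false ∧
      ∀ s, s0 ≤ s → s ≤ s1 →
        4 * Kst s (kk p q r d e) (kk p q r c d) (kk p q r c e) * (a0 * a0 + SbP (kk p q r c d)) < 1 ∧
        Bx j ⟨a0, 0, 0, y0 s (kk p q r d e) (kk p q r c d) (kk p q r c e) a0, 0, 0, 0⟩) ∧
    (∀ (j : J) (c d e : Fin 3), Dist c d e → At j (c, d, e) → ∀ (ε : Bool) (m : ℕ),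
      allowed (mm p q r d e) (fl j) ε m → ∀ (s : ℝ) (z : RSt), s0 ≤ s → s ≤ s1 → Bx j z →
      (r_stp s ε (ev2 m) z (kk p q r d e) (kk p q r c d) (kk p q r c e) (Rb (mm p q r d e) m)).ck ∧
      ∃ j' : J, At j' (nx (ev2 m) c d e) ∧
        (fl j' = true → vnext (mm p q r d e) (fl j) ε m = true) ∧
        Bx j' (r_stp s ε (ev2 m) z (kk p q r d e) (kk p q r c d) (kk p q r c e)
          (Rb (mm p q r d e) m)).st ∧
        (r_stp s ε (ev2 m) z (kk p q r d e) (kk p q r c d) (kk p q r c e)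
          (Rb (mm p q r d e) m)).L + (pt j' - pt j) ≤ -dl)

/-- a valid group gives a region -/
def ST_REG : Prop := ST_TRS → ST_TGS → ST_TGC → ST_STS → ST_RBF → ST_RBT →
  ∀ (sa sb : ℕ) (G : List StarD) (A B C : ClassD), GroupOK sa sb G → GroupCov G A B C →
  ClsOK A → ClsOK B → ClsOK C → ∀ (p q r : ℕ), 3 ≤ p → 3 ≤ q → 3 ≤ r → InC A p → InC B q →
  InC C r → RegOK p q r ((sa : ℝ) / 268435456) ((sb : ℝ) / 268435456) (1 / 268435456)

/-- monotonicity up to constants on `s0 ≤ s ≤ s1`, with exponential gain in the number of blocks -/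
def MB (p q r : ℕ) (s0 s1 : ℝ) : Prop :=
  ∃ C dl : ℝ, 0 < C ∧ 0 < dl ∧ ∀ (c d e : Fin 3), Dist c d e → ∀ a0, isA0 a0 →
    ∀ bs : List (Bool × ℕ),
    okPath p q r false (c, d, e) bs → ∀ s, s0 ≤ s → s ≤ s1 →
      NR s (kk p q r d e) (kk p q r c d) (kk p q r c e) (zst p q r s (c, d, e) a0) ∧
      nP p q r s (c, d, e) (zst p q r s (c, d, e) a0) bs ∧
      0 ≤ fP p q r s (c, d, e) (zst p q r s (c, d, e) a0) bs ∧
      |(zst p q r s (c, d, e) a0).yr| ≤ C ∧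
      |(zP p q r s (c, d, e) (zst p q r s (c, d, e) a0) bs).a| ≤ C ∧
      |(zP p q r s (c, d, e) (zst p q r s (c, d, e) a0) bs).b| ≤ C ∧
      |(zP p q r s (c, d, e) (zst p q r s (c, d, e) a0) bs).be| ≤ C ∧
      |(zP p q r s (c, d, e) (zst p q r s (c, d, e) a0) bs).yr| ≤ C ∧
      ∀ s', s ≤ s' → s' ≤ s1 →
        fP p q r s' (c, d, e) (zst p q r s' (c, d, e) a0) bs ≤
          C * Real.exp (-(dl * (s' - s) * bs.length)) *
            fP p q r s (c, d, e) (zst p q r s (c, d, e) a0) bs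

def ST_GRW : Prop := ST_NRI → ST_EQ true → ST_EQ false → ST_DER → ST_YD → ST_Y0 →
  ∀ (p q r : ℕ), 3 ≤ p → 3 ≤ q → 3 ≤ r → ∀ s0 s1 dl : ℝ, 0 ≤ s0 → s0 < s1 → s1 ≤ 2 → 0 < dl →
  RegOK p q r s0 s1 dl → MB p q r s0 s1

/-- chaining of intervals -/
def ST_MBC : Prop := ∀ (p q r : ℕ) (s0 s1 s1' s2 : ℝ), s0 ≤ s1' → s1' ≤ s1 → s1 ≤ s2 →
  MB p q r s0 s1 → MB p q r s1' s2 → MB p q r s0 s2

/-- minimal length of an equivalent word -/
def mlen (p q r : ℕ) (w : List (Fin 3)) : ℕ := sInf {n | ∃ v, Eqv p q r w v ∧ v.length = n}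

/-- uniform comparison of norms, with exponential gain in the word length -/
def ST_NRM : Prop := ST_PATH → ST_PTH → ST_BLK true → ST_BLK false → ST_CHN → ST_SPN → ST_INV →
  ∀ (p q r : ℕ), 3 ≤ p → 3 ≤ q → 3 ≤ r → ∀ s1 : ℝ, s1 ≤ 1 → MB p q r 0 s1 →
  ∀ (τ τ' : ℝ) (G G' : Fin 3 → Fin 3 → ℂ), |τ| < |τ'| → τ' ^ 2 ≤ s1 → IsG p q r τ G →
  IsG p q r τ' G' → ∃ C dl : ℝ, 0 < dl ∧ ∀ w : List (Fin 3),
    nrm (gact G' w) ≤ C * Real.exp (-(dl * mlen p q r w)) * nrm (gact G w)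

/-- comparison of translation lengths -/
def ST_TLE : Prop := ST_TL1 → ST_TL2 → ST_TL3 → ∀ g g' : E3, Pres g → Pres g' → ∀ c : ℝ, 0 ≤ c →
  (∃ C : ℝ, ∀ k : ℕ, nrm (g' ^ (2 ^ k) : E3) ≤ C * Real.exp (-(c * 2 ^ k)) * nrm (g ^ (2 ^ k) : E3)) →
  tl g' ≤ tl g - 2 * c

/-- displacement and word length -/
def ST_DSP : Prop := ST_TL1 → ST_TL2 → ∀ e : Fin 3 → V3, (∀ i, hf (e i) (e i) = 1) →
  ∃ D : ℝ, 0 < D ∧ ∀ (g : E3), Pres g → ∀ (k : ℕ) (v : List (Fin 3)),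
    (∀ x, (g ^ (2 ^ k) : E3) x = act e v x) → 2 ^ k * tl g ≤ D * v.length

end Pool.Agent.Helper6.MONO.S
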